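import Mathlib

/-!
Arithmetic of `y ^ g = x ^ n * F + 1` with `g` a prime power.
-/

namespace Pool.Agent.Shorey

/-- gap between powers -/
lemma nat_gap (u v g : ℕ) (hg : 1 ≤ g) :
    |(v : ℤ) - u| * (u : ℤ) ^ (g - 1) ≤ |(v : ℤ) ^ g - (u : ℤ) ^ g| := by
  obtain ⟨k, rfl⟩ : ∃ k, g = k + 1 := ⟨g - 1, by omega⟩
  rw [Nat.add_sub_cancel, pow_succ, pow_succ]
  rcases le_total u v with h | h
  · have h1 : (u : ℤ) ^ k ≤ (v : ℤ) ^ k := by exact_mod_cast Nat.pow_le_pow_left h k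
    have h2 : (u : ℤ) ≤ v := by exact_mod_cast h
    rw [abs_of_nonneg (by linarith)]
    refine le_trans ?_ (le_abs_self _)
    nlinarith [pow_nonneg (Nat.cast_nonneg (α := ℤ) u) k, Nat.cast_nonneg (α := ℤ) v]
  · have h1 : (v : ℤ) ^ k ≤ (u : ℤ) ^ k := by exact_mod_cast Nat.pow_le_pow_left h k
    have h2 : (v : ℤ) ≤ u := by exact_mod_cast h
    rw [abs_of_nonpos (by linarith), ← abs_neg ((v : ℤ) ^ k * v - (u : ℤ) ^ k * u)]
    refine le_trans ?_ (le_abs_self _)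
    nlinarith [pow_nonneg (Nat.cast_nonneg (α := ℤ) v) k, Nat.cast_nonneg (α := ℤ) v]

/-- better gap between powers -/
lemma nat_gap_two (u v g : ℕ) (hg : 1 ≤ g) (h : v < u → g * (u - v) ≤ u) :
    (g : ℤ) * |(v : ℤ) - u| * (u : ℤ) ^ (g - 1) ≤ 2 * |(v : ℤ) ^ g - (u : ℤ) ^ g| := by
  obtain ⟨k, rfl⟩ : ∃ k, g = k + 1 := ⟨g - 1, by omega⟩
  rw [Nat.add_sub_cancel]
  rcases le_or_gt u v with h1 | h1
  · have h2 : (u : ℤ) ≤ v := by exact_mod_cast h1
    have h3 : (u : ℤ) ^ (k + 1) ≤ (v : ℤ) ^ (k + 1) := by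
      exact_mod_cast Nat.pow_le_pow_left h1 (k + 1)
    rw [abs_of_nonneg (by linarith), abs_of_nonneg (by linarith)]
    have h4 := (Commute.all (v : ℤ) u).geom_sum₂_mul (k + 1)
    have h5 : ((k + 1 : ℕ) : ℤ) * (u : ℤ) ^ k ≤
        ∑ i ∈ Finset.range (k + 1), (v : ℤ) ^ i * (u : ℤ) ^ (k + 1 - 1 - i) := by
      rw [← nsmul_eq_mul, ← Finset.card_range (k + 1), Finset.card_range]
      rw [show (k + 1) • (u : ℤ) ^ k = (Finset.range (k + 1)).card • (u : ℤ) ^ k by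
        rw [Finset.card_range]]
      apply Finset.card_nsmul_le_sum
      intro i hi
      rw [Finset.mem_range] at hi
      calc (u : ℤ) ^ k = (u : ℤ) ^ i * (u : ℤ) ^ (k + 1 - 1 - i) := by
            rw [← pow_add]; congr 1; omega
        _ ≤ (v : ℤ) ^ i * (u : ℤ) ^ (k + 1 - 1 - i) := by
            apply mul_le_mul_of_nonneg_right _ (by positivity)
            exact pow_le_pow_left₀ (by positivity) h2 i
    have h6 : 0 ≤ (v : ℤ) - u := by linarith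
    have h7 : 0 ≤ (v : ℤ) ^ (k + 1) - (u : ℤ) ^ (k + 1) := by linarith
    calc ((k + 1 : ℕ) : ℤ) * ((v : ℤ) - u) * (u : ℤ) ^ k
        = (((k + 1 : ℕ) : ℤ) * (u : ℤ) ^ k) * ((v : ℤ) - u) := by ring
      _ ≤ (∑ i ∈ Finset.range (k + 1), (v : ℤ) ^ i * (u : ℤ) ^ (k + 1 - 1 - i)) *
          ((v : ℤ) - u) := mul_le_mul_of_nonneg_right h5 h6
      _ = (v : ℤ) ^ (k + 1) - (u : ℤ) ^ (k + 1) := h4
      _ ≤ 2 * ((v : ℤ) ^ (k + 1) - (u : ℤ) ^ (k + 1)) := by linarith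
  · obtain ⟨t, rfl⟩ : ∃ t, u = v + t := ⟨u - v, by omega⟩
    have ht := h h1
    rw [Nat.add_sub_cancel_left] at ht
    have ht1 : 1 ≤ t := by omega
    have h3 : (v : ℤ) ^ (k + 1) ≤ ((v + t : ℕ) : ℤ) ^ (k + 1) := by
      exact_mod_cast Nat.pow_le_pow_left (show v ≤ v + t by omega) (k + 1)
    rw [abs_of_nonpos (by push_cast; linarith), abs_of_nonpos (by linarith)]
    -- Bernoulli
    have hb : v ^ (k + 1) * (v + (k + 1) * t) ≤ (v + t) ^ (k + 1) * v := by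
      clear h3 h ht h1 hg
      induction k with
      | zero => simp; nlinarith
      | succ k ih =>
        have e1 : v ^ (k + 1 + 1) * (v + (k + 1 + 1) * t) ≤
            (v ^ (k + 1) * (v + (k + 1) * t)) * (v + t) := by
          have : v * (v + (k + 1 + 1) * t) ≤ (v + (k + 1) * t) * (v + t) := by
            nlinarith [Nat.zero_le ((k + 1) * t * t)]
          calc v ^ (k + 1 + 1) * (v + (k + 1 + 1) * t) =
              v ^ (k + 1) * (v * (v + (k + 1 + 1) * t)) := by ring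
            _ ≤ v ^ (k + 1) * ((v + (k + 1) * t) * (v + t)) := Nat.mul_le_mul_left _ this
            _ = (v ^ (k + 1) * (v + (k + 1) * t)) * (v + t) := by ring
        calc v ^ (k + 1 + 1) * (v + (k + 1 + 1) * t)
            ≤ (v ^ (k + 1) * (v + (k + 1) * t)) * (v + t) := e1
          _ ≤ ((v + t) ^ (k + 1) * v) * (v + t) := Nat.mul_le_mul_right _ ih
          _ = (v + t) ^ (k + 1 + 1) * v := by ring
    have hbZ : (v : ℤ) ^ (k + 1) * (v + (k + 1) * t) ≤ ((v : ℤ) + t) ^ (k + 1) * v := by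
      exact_mod_cast hb
    have htZ : ((k : ℤ) + 1) * t ≤ v + t := by exact_mod_cast ht
    push_cast at h3 ⊢
    set P := ((v : ℤ) + t) ^ (k + 1) with hP
    set Q := (v : ℤ) ^ (k + 1) with hQ
    have hv0 : (0 : ℤ) ≤ v := Nat.cast_nonneg v
    have ht0 : (1 : ℤ) ≤ t := by exact_mod_cast ht1
    have hk0 : (0 : ℤ) ≤ k := Nat.cast_nonneg k
    -- (P - Q) (v + (k+1) t) ≥ P (k+1) t
    have h5 : P * ((k + 1) * t) ≤ (P - Q) * (v + (k + 1) * t) := by nlinarith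
    have h6 : (P - Q) * (v + (k + 1) * t) ≤ (P - Q) * (2 * (v + t)) := by
      apply mul_le_mul_of_nonneg_left _ (by linarith)
      linarith
    have h7 : P = ((v : ℤ) + t) ^ k * (v + t) := by rw [hP, pow_succ]
    have h8 : 0 < (v : ℤ) + t := by linarith
    have h9 : ((v : ℤ) + t) * (((k : ℤ) + 1) * t * ((v : ℤ) + t) ^ k) ≤
        ((v : ℤ) + t) * (2 * (P - Q)) := by
      calc ((v : ℤ) + t) * (((k : ℤ) + 1) * t * ((v : ℤ) + t) ^ k) = P * ((k + 1) * t) := by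
            rw [h7]; ring
        _ ≤ (P - Q) * (2 * (v + t)) := h5.trans h6
        _ = ((v : ℤ) + t) * (2 * (P - Q)) := by ring
    have h10 := le_of_mul_le_mul_left h9 h8
    linarith

/-- `q ^ 2` does not divide the cyclotomic factor -/
lemma sq_not_dvd (q a : ℕ) (hq : q.Prime) (h2 : q = 2 → 2 ≤ a) (Y : ℤ)
    (h : (q : ℤ) ∣ Y ^ (q ^ (a - 1)) - 1) :
    ¬ (q : ℤ) ^ 2 ∣ ∑ i ∈ Finset.range q, (Y ^ (q ^ (a - 1))) ^ i := by
  intro hd
  rcases hq.eq_two_or_odd' with rfl | hodd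
  · have ha2 := h2 rfl
    rw [Finset.sum_range_succ, Finset.sum_range_one, pow_zero, pow_one] at hd
    have e1 : Y ^ (2 ^ (a - 1)) = (Y ^ (2 ^ (a - 2))) ^ 2 := by
      rw [← pow_mul, ← pow_succ]; congr 2; omega
    rw [e1] at hd h
    set Z := Y ^ (2 ^ (a - 2))
    have h3 : Z % 4 = 0 ∨ Z % 4 = 1 ∨ Z % 4 = 2 ∨ Z % 4 = 3 := by omega
    have h4 : (1 + Z ^ 2) % 4 = 0 := by
      push_cast at hd
      omega
    rcases h3 with h3 | h3 | h3 | h3 <;> (rw [sq, Int.add_emod, Int.mul_emod, h3] at h4; omega)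
  · obtain ⟨t, ht⟩ := h
    have e1 : Y ^ (q ^ (a - 1)) = 1 + q * t := by linarith
    have e2 := odd_sq_dvd_geom_sum₂_sub (R := ℤ) (a := 1) (b := t) hodd
    simp only [one_pow, mul_one] at e2
    rw [e1] at hd
    have e3 : (q : ℤ) ^ 2 ∣ (q : ℤ) := by
      have := dvd_sub hd e2
      rwa [sub_sub_cancel] at this
    have e4 : q ^ 2 ∣ q := by exact_mod_cast e3
    have e5 := Nat.le_of_dvd hq.pos e4
    nlinarith [hq.two_le]

/-- the part of a divisor at a prime dividing `W - 1` -/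
lemma part_dvd (q a : ℕ) (hq : q.Prime) (h2 : q = 2 → 2 ≤ a) (Y : ℤ) (p m : ℕ)
    (hp : p.Prime) (hpW : (p : ℤ) ∣ Y ^ (q ^ (a - 1)) - 1)
    (h : (p : ℤ) ^ m ∣ (Y ^ (q ^ (a - 1)) - 1) *
      ∑ i ∈ Finset.range q, (Y ^ (q ^ (a - 1))) ^ i) :
    (p : ℤ) ^ m ∣ q * (Y ^ (q ^ (a - 1)) - 1) := by
  set W := Y ^ (q ^ (a - 1)) with hW
  set S := ∑ i ∈ Finset.range q, W ^ i with hS
  have hpI : Prime (p : ℤ) := Nat.prime_iff_prime_int.mp hp
  have hSq : (W - 1) ∣ S - q := by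
    rw [hS]
    have : ∑ i ∈ Finset.range q, W ^ i - q = ∑ i ∈ Finset.range q, (W ^ i - 1) := by
      rw [Finset.sum_sub_distrib]; simp
    rw [this]
    exact Finset.dvd_sum fun i _ => sub_one_dvd_pow_sub_one W i
  by_cases hpS : (p : ℤ) ∣ S
  · have hpq : (p : ℤ) ∣ q := by
      have := dvd_sub hpS (hpW.trans hSq)
      rwa [sub_sub_cancel] at this
    have hpq' : p = q := (Nat.prime_dvd_prime_iff_eq hp hq).mp (by exact_mod_cast hpq)
    subst hpq'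
    obtain ⟨S', hS'⟩ := hpS
    have hnd : ¬ (p : ℤ) ∣ S' := by
      rintro ⟨u, hu⟩
      apply sq_not_dvd p a hp h2 Y hpW
      rw [← hW, ← hS, hS', hu]
      exact ⟨u, by ring⟩
    have hcop : IsCoprime ((p : ℤ) ^ m) S' :=
      ((Prime.coprime_iff_not_dvd hpI).mpr hnd).pow_left
    apply hcop.dvd_of_dvd_mul_right
    rw [hS'] at h
    have e1 : (p : ℤ) * (W - 1) * S' = (W - 1) * (p * S') := by ring
    rw [e1]
    exact h
  · have hcop : IsCoprime ((p : ℤ) ^ m) S :=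
      ((Prime.coprime_iff_not_dvd hpI).mpr hpS).pow_left
    exact (hcop.dvd_of_dvd_mul_right h).mul_left _

end Pool.Agent.Shorey
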