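import Pool.Agent.Shorey.PrimeCase

/-!
Bounds for the prime powers.
-/

namespace Pool.Agent.Shorey

open Filter

variable {q a : ℕ} {x Y ε r : ℤ} {K D e d2 s0 n R : ℕ}

/-- in the prime case `x` is exponentially large -/
lemma Sol.large_prime (h : Sol q 1 x Y ε r K D e d2 s0 n R) (hodd : Odd q)
    (hX : q + 1 ≤ x.natAbs) (hqR : 4 * R + 16 ≤ q) : 2 ^ q ≤ 12 * q * x.natAbs := by
  obtain ⟨p, hp, hpx, hpY⟩ := h.exists_common hodd hX hqR
  have hX0 : 0 < x.natAbs := by omega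
  have hXZ : (0 : ℤ) < x.natAbs := by exact_mod_cast hX0
  have h1 := part_dvd q 1 h.hq (fun h2 => by
    rw [h2] at hodd
    exact absurd hodd (by decide)) Y p n hp (by simpa using hpY) (by
      rw [h.factor]
      exact (pow_dvd_pow_of_dvd hpx n).mul_right _)
  simp only [Nat.sub_self, pow_zero, pow_one] at h1
  have hY1 : Y - 1 ≠ 0 := by
    intro h0
    have h2 := h.hY
    have : Y = 1 := by linarith
    rw [this] at h2
    simp at h2
  have hne : q * (Y - 1) ≠ 0 := mul_ne_zero (by exact_mod_cast h.hq.pos.ne') hY1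
  have h2 : p ^ n ≤ q * (Y - 1).natAbs := by
    have h3 : p ^ n ∣ (q * (Y - 1)).natAbs := by
      rw [← Int.natCast_dvd]
      exact_mod_cast h1
    have h4 := Nat.le_of_dvd (Int.natAbs_pos.mpr hne) h3
    rwa [Int.natAbs_mul, Int.natAbs_natCast] at h4
  have hV : Y.natAbs ≤ 2 * x.natAbs ^ K := by
    have h3 := h.gap
    have h4 : (R + 1 : ℤ) ≤ (x.natAbs : ℤ) ^ d2 := by
      have h5 : x.natAbs ≤ x.natAbs ^ d2 := Nat.le_self_pow (by have := h.d2_pos; omega) _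
      exact_mod_cast (show R + 1 ≤ x.natAbs by omega).trans h5
    have h5 : |(Y.natAbs : ℤ) - (x.natAbs ^ K : ℕ)| ≤ (x.natAbs : ℤ) ^ K := by
      have h6 : (0 : ℤ) < (x.natAbs : ℤ) ^ d2 := by positivity
      apply le_of_mul_le_mul_right _ h6
      calc |(Y.natAbs : ℤ) - (x.natAbs ^ K : ℕ)| * (x.natAbs : ℤ) ^ d2
          ≤ (R + 1) * (x.natAbs : ℤ) ^ K := h3
        _ ≤ (x.natAbs : ℤ) ^ d2 * (x.natAbs : ℤ) ^ K :=
            mul_le_mul_of_nonneg_right h4 (by positivity)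
        _ = (x.natAbs : ℤ) ^ K * (x.natAbs : ℤ) ^ d2 := mul_comm _ _
    have h6 := (abs_le.mp h5).2
    push_cast at h6
    have h7 : (Y.natAbs : ℤ) ≤ 2 * (x.natAbs : ℤ) ^ K := by
      push_cast
      linarith
    exact_mod_cast h7
  have hY3 : (Y - 1).natAbs ≤ 3 * x.natAbs ^ K := by
    have h3 := Int.natAbs_sub_le Y 1
    have h4 : 1 ≤ x.natAbs ^ K := Nat.one_le_pow _ _ hX0
    have h5 : (1 : ℤ).natAbs = 1 := rfl
    omega
  have h3 : 2 ^ n ≤ 3 * q * x.natAbs ^ K := by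
    calc 2 ^ n ≤ p ^ n := Nat.pow_le_pow_left hp.two_le n
      _ ≤ q * (Y - 1).natAbs := h2
      _ ≤ q * (3 * x.natAbs ^ K) := Nat.mul_le_mul_left _ hY3
      _ = 3 * q * x.natAbs ^ K := by ring
  have hnl := h.n_large (by omega)
  rw [pow_one] at hnl
  have hK := h.K_pos
  have h4 : (2 ^ q) ^ K ≤ (12 * q * x.natAbs) ^ K := by
    calc (2 ^ q) ^ K = 2 ^ (q * K) := by rw [← pow_mul]
      _ ≤ 2 ^ (n + 2 * K) := Nat.pow_le_pow_right (by norm_num) hnl.le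
      _ = 2 ^ n * 4 ^ K := by rw [pow_add, pow_mul]; norm_num
      _ ≤ (3 * q * x.natAbs ^ K) * 4 ^ K := Nat.mul_le_mul_right _ h3
      _ ≤ ((3 * q) ^ K * x.natAbs ^ K) * 4 ^ K := by
          apply Nat.mul_le_mul_right
          apply Nat.mul_le_mul_right
          exact Nat.le_self_pow (by omega) _
      _ = (12 * q * x.natAbs) ^ K := by rw [← mul_pow, ← mul_pow]; ring
  exact (Nat.pow_le_pow_iff_left (by omega)).mp h4

/-- no solutions with a large prime -/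
theorem Sol.no_prime (h : Sol q 1 x Y ε r K D e d2 s0 n R) (κ : ℕ) (hκ : D ≤ κ * s0)
    (hodd : Odd q) (hbig : 16 * (2 * q * (R + 2) ^ 3) ^ 2 < 2 ^ q) (hgR : 4 * R + 16 ≤ q)
    (h4 : (16 * q * R ^ 2) ^ 3 * (12 * q) ^ 2 ≤ 4 ^ q) (hg : 10 + 5 * κ ≤ q) : False := by
  have hq2 : q = 2 → 2 ≤ 1 := fun h2 => by
    rw [h2] at hodd
    exact absurd hodd (by decide)
  have hX : q + 1 ≤ x.natAbs := by
    have := h.X_large hq2 (by rw [pow_one]; exact hbig)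
    rwa [pow_one] at this
  have hlp := h.large_prime hodd hX hgR
  apply h.kill κ 2 (by omega) (by omega) hκ
  · rw [pow_one, sq]
    exact Nat.mul_le_mul (by omega) (by omega)
  · rw [pow_one]
    have h5 : (16 * q * R ^ 2) ^ (2 + 1) ≤ x.natAbs ^ 2 := by
      have h6 : (12 * q) ^ 2 * (16 * q * R ^ 2) ^ 3 ≤ (12 * q) ^ 2 * x.natAbs ^ 2 := by
        calc (12 * q) ^ 2 * (16 * q * R ^ 2) ^ 3 = (16 * q * R ^ 2) ^ 3 * (12 * q) ^ 2 := by ring
          _ ≤ 4 ^ q := h4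
          _ = (2 ^ q) ^ 2 := by rw [← pow_mul, mul_comm, pow_mul]; norm_num
          _ ≤ (12 * q * x.natAbs) ^ 2 := Nat.pow_le_pow_left hlp 2
          _ = (12 * q) ^ 2 * x.natAbs ^ 2 := mul_pow _ _ _
      exact Nat.le_of_mul_le_mul_left h6 (by
        have := h.hq.pos
        positivity)
    refine h5.trans (Nat.pow_le_pow_right (by omega) ?_)
    have := h.hs1
    omega
  · rw [pow_one]; omega

/-- no solutions with a large power of a given prime -/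
theorem Sol.no_pow (h : Sol q a x Y ε r K D e d2 s0 n R) (ha : 2 ≤ a) (hR : 1 ≤ R) (κ : ℕ)
    (hκ : D ≤ κ * s0) (hbig : 16 * (2 * q ^ a * (R + 2) ^ 3) ^ 2 < 2 ^ (q ^ a))
    (hgR : 4 * R + 16 ≤ q ^ a) (h6 : 6 * q ^ 2 < q ^ a) (hqR : q * (R + 2) ≤ q ^ a)
    (hl : (16 * R ^ 2) ^ (2 * q) ≤ q ^ a) (hg : 4 * q + 6 + κ * (2 * q + 3) ≤ q ^ a) : False := by
  have hX : q ^ a + 1 ≤ x.natAbs := h.X_large (fun _ => ha) hbig
  apply h.kill κ (2 * q) (by omega) (by omega) hκ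
  · rw [sq]
    exact Nat.mul_le_mul (by omega) (by omega)
  · refine (h.large_pow ha hR hbig hgR h6 hqR hl).trans (Nat.pow_le_pow_right (by omega) ?_)
    exact Nat.le_mul_of_pos_left _ h.hs1
  · omega

/-- exponentials beat powers -/
lemma evt_pow (c k : ℕ) : ∀ᶠ n : ℕ in atTop, c * n ^ k < 2 ^ n := by
  have h := tendsto_pow_const_div_const_pow_of_one_lt k (one_lt_two (α := ℝ))
  have h1 := h.eventually (gt_mem_nhds (show (0 : ℝ) < 1 / (c + 1) by positivity))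
  filter_upwards [h1] with n hn
  rw [div_lt_div_iff₀ (by positivity) (by positivity), one_mul] at hn
  have h2 : n ^ k * (c + 1) < 2 ^ n := by exact_mod_cast hn
  nlinarith [Nat.zero_le (n ^ k)]

/-- the largest possible prime -/
lemma exists_prime_bound (R κ : ℕ) : ∃ B : ℕ, ∀ (q : ℕ) (x Y ε r : ℤ) (K D e d2 s0 n : ℕ),
    Sol q 1 x Y ε r K D e d2 s0 n R → D ≤ κ * s0 → q ≤ B := by
  have e1 := evt_pow (16 * (2 * (R + 2) ^ 3) ^ 2) 2
  have e2 := evt_pow ((16 * R ^ 2) ^ 3 * 12 ^ 2) 5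
  obtain ⟨B, hB⟩ := eventually_atTop.mp (e1.and (e2.and (eventually_ge_atTop
    (4 * R + 16 + 10 + 5 * κ))))
  refine ⟨B + 2, ?_⟩
  intro q x Y ε r K D e d2 s0 n h hκ
  by_contra hcon
  push Not at hcon
  obtain ⟨h1, h2, h3⟩ := hB q (by omega)
  apply h.no_prime κ hκ
  · exact h.hq.odd_of_ne_two (by omega)
  · calc 16 * (2 * q * (R + 2) ^ 3) ^ 2 = 16 * (2 * (R + 2) ^ 3) ^ 2 * q ^ 2 := by ring
      _ < 2 ^ q := h1
  · omega
  · calc (16 * q * R ^ 2) ^ 3 * (12 * q) ^ 2 = (16 * R ^ 2) ^ 3 * 12 ^ 2 * q ^ 5 := by ring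
      _ ≤ 2 ^ q := h2.le
      _ ≤ 4 ^ q := Nat.pow_le_pow_left (by norm_num) q
  · omega

/-- the largest possible power of a given prime -/
lemma exists_pow_bound (R κ q : ℕ) (hR : 1 ≤ R) :
    ∃ B : ℕ, ∀ (a : ℕ) (x Y ε r : ℤ) (K D e d2 s0 n : ℕ), 2 ≤ a →
    Sol q a x Y ε r K D e d2 s0 n R → D ≤ κ * s0 → q ^ a ≤ B := by
  have e1 := evt_pow (16 * (2 * (R + 2) ^ 3) ^ 2) 2
  obtain ⟨B, hB⟩ := eventually_atTop.mp (e1.and (eventually_ge_atTop
    (4 * R + 16 + (6 * q ^ 2 + 1) + q * (R + 2) + (16 * R ^ 2) ^ (2 * q) +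
      (4 * q + 6 + κ * (2 * q + 3)))))
  refine ⟨B, ?_⟩
  intro a x Y ε r K D e d2 s0 n ha h hκ
  by_contra hcon
  push Not at hcon
  obtain ⟨h1, h2⟩ := hB (q ^ a) hcon.le
  apply h.no_pow ha hR κ hκ
  · calc 16 * (2 * q ^ a * (R + 2) ^ 3) ^ 2 = 16 * (2 * (R + 2) ^ 3) ^ 2 * (q ^ a) ^ 2 := by ring
      _ < 2 ^ (q ^ a) := h1
  all_goals omega

/-- the bound for all prime powers -/
theorem exists_bound (R κ : ℕ) (hR : 1 ≤ R) :
    ∃ B : ℕ, ∀ (g : ℕ) , (∀ q a : ℕ, q.Prime → 1 ≤ a → q ^ a ∣ g →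
      ∃ (x Y ε r : ℤ) (K D e d2 s0 n : ℕ), Sol q a x Y ε r K D e d2 s0 n R ∧ D ≤ κ * s0) →
      g ≤ B := by
  obtain ⟨B1, hB1⟩ := exists_prime_bound R κ
  choose b hb using fun q => exists_pow_bound R κ q hR
  set B := B1 + ∑ q ∈ Finset.range (B1 + 1), b q with hBdef
  refine ⟨B.factorial, ?_⟩
  intro g hg
  apply Nat.le_of_dvd (Nat.factorial_pos _)
  rw [Nat.dvd_iff_prime_pow_dvd_dvd]
  intro q a hq hqa
  rcases Nat.eq_zero_or_pos a with ha | ha
  · rw [ha, pow_zero]; exact one_dvd _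
  · have hqB : q ≤ B1 := by
      obtain ⟨x, Y, ε, r, K, D, e, d2, s0, n, h, hκ⟩ := hg q 1 hq le_rfl
        ((pow_dvd_pow q ha).trans hqa)
      exact hB1 q x Y ε r K D e d2 s0 n h hκ
    have hle : q ^ a ≤ B := by
      rcases Nat.lt_or_ge a 2 with ha2 | ha2
      · have : a = 1 := by omega
        rw [this, pow_one]
        omega
      · obtain ⟨x, Y, ε, r, K, D, e, d2, s0, n, h, hκ⟩ := hg q a hq ha hqa
        have h1 := hb q a x Y ε r K D e d2 s0 n ha2 h hκ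
        have h2 : b q ≤ ∑ q ∈ Finset.range (B1 + 1), b q :=
          Finset.single_le_sum (f := b) (fun _ _ => Nat.zero_le _)
            (Finset.mem_range.mpr (by omega))
        omega
    exact Nat.dvd_factorial (pow_pos hq.pos a) hle

end Pool.Agent.Shorey
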