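import Pool.Agent.Shorey.Eval

/-!
The approximation argument.
-/

namespace Pool.Agent.Shorey

noncomputable section

/-- an upper bound for a difference from the difference of powers -/
lemma pow_sub_pow_abs (u w : ℝ) (hu : 0 ≤ u) (hw : 0 ≤ w) (g : ℕ) (hg : 1 ≤ g) :
    |u - w| * w ^ (g - 1) ≤ |u ^ g - w ^ g| := by
  have h1 := (Commute.all u w).geom_sum₂_mul g
  rw [← h1, abs_mul, mul_comm]
  apply mul_le_mul_of_nonneg_right _ (abs_nonneg _)
  have h2 : w ^ (g - 1) ≤ ∑ i ∈ Finset.range g, u ^ i * w ^ (g - 1 - i) := by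
    have h3 := Finset.single_le_sum (f := fun i => u ^ i * w ^ (g - 1 - i))
      (s := Finset.range g) (fun i _ => by positivity) (Finset.mem_range.mpr (show 0 < g by omega))
    simpa using h3
  exact h2.trans (le_abs_self _)

lemma near (g : ℕ) (hg : 1 ≤ g) (U V : ℝ) (hU : 0 < U) (hV : 0 ≤ V) (z δ : ℝ)
    (hz : |z| ≤ 1 / 2) (hδ : |δ| ≤ 1) (h : V ^ g = U ^ g * (1 + z) + δ) :
    |V / U - (1 + z) ^ (1 / (g : ℝ))| ≤ 2 / U ^ g := by
  have hz1 : 1 / 2 ≤ 1 + z := by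
    have := (abs_le.mp hz).1
    linarith
  set w := (1 + z) ^ (1 / (g : ℝ)) with hw
  have hw0 : 0 ≤ w := Real.rpow_nonneg (by linarith) _
  have hwg : w ^ g = 1 + z := by
    rw [hw, one_div, Real.rpow_inv_natCast_pow (by linarith) (by omega)]
  have h1 := pow_sub_pow_abs (V / U) w (by positivity) hw0 g hg
  have hUg : 0 < U ^ g := by positivity
  have h2 : (V / U) ^ g - w ^ g = δ / U ^ g := by
    rw [hwg, div_pow, h]
    field_simp
    ring
  rw [h2, abs_div, abs_of_pos hUg] at h1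
  have h3 : 1 / 2 ≤ w ^ (g - 1) := by
    by_cases hw1 : 1 ≤ w
    · calc (1 : ℝ) / 2 ≤ 1 := by norm_num
        _ ≤ w ^ (g - 1) := one_le_pow₀ hw1
    · push Not at hw1
      calc 1 / 2 ≤ 1 + z := hz1
        _ = w ^ g := hwg.symm
        _ ≤ w ^ (g - 1) := pow_le_pow_of_le_one hw0 hw1.le (by omega)
  have h4 : |V / U - w| * (1 / 2) ≤ 1 / U ^ g := by
    calc |V / U - w| * (1 / 2) ≤ |V / U - w| * w ^ (g - 1) :=
          mul_le_mul_of_nonneg_left h3 (abs_nonneg _)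
      _ ≤ |δ| / U ^ g := h1
      _ ≤ 1 / U ^ g := div_le_div_of_nonneg_right hδ hUg.le
  have h5 : 2 / U ^ g = 2 * (1 / U ^ g) := by ring
  rw [h5]
  linarith

/-- one approximant -/
lemma one_step (q a : ℕ) (hq : q.Prime) (N T : ℤ) (hT : T ≠ 0) (U V : ℕ) (hU : 0 < U)
    (hz : |(N : ℝ) / T| ≤ 1 / 2) (η : ℝ)
    (hη : |(V : ℝ) / U - (1 + (N : ℝ) / T) ^ (1 / ((q ^ a : ℕ) : ℝ))| ≤ η) (j : ℕ)
    (hsmall : (Mk q (q ^ a) j : ℝ) * |(T : ℝ)| ^ j * U * (8 ^ j * η +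
      2 * 8 ^ j * |(N : ℝ) / T| ^ (2 * j + 1)) < 1) :
    (Qp (1 / ((q ^ a : ℕ) : ℝ)) j).eval ((N : ℝ) / T) * V =
      (Pp (1 / ((q ^ a : ℕ) : ℝ)) j).eval ((N : ℝ) / T) * U := by
  obtain ⟨zq, hzq⟩ := Qp_int q a j hq N T hT
  obtain ⟨zp, hzp⟩ := Pp_int q a j hq N T hT
  have hg1 : (1 : ℝ) ≤ ((q ^ a : ℕ) : ℝ) := by exact_mod_cast Nat.one_le_pow _ _ hq.pos
  set ν := 1 / ((q ^ a : ℕ) : ℝ) with hν
  have hν0 : 0 ≤ ν := by positivity
  have hν1 : ν ≤ 1 := by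
    rw [hν, div_le_one (by linarith)]
    exact hg1
  set z := (N : ℝ) / T with hzdef
  have hTR : (T : ℝ) ≠ 0 := by exact_mod_cast hT
  have hUR : (0 : ℝ) < U := by exact_mod_cast hU
  have hM : 0 < Mk q (q ^ a) j := by
    rw [Mk]
    exact Nat.mul_pos (pow_pos (pow_pos hq.pos _) _) (pow_pos hq.pos _)
  have hMR : (0 : ℝ) < Mk q (q ^ a) j := by exact_mod_cast hM
  have h1 : |(zq : ℝ) * V - zp * U| < 1 := by
    have e1 : (zq : ℝ) * V - zp * U = (Mk q (q ^ a) j : ℝ) * (T : ℝ) ^ j * U *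
        ((Qp ν j).eval z * ((V : ℝ) / U - (1 + z) ^ ν) +
          ((Qp ν j).eval z * (1 + z) ^ ν - (Pp ν j).eval z)) := by
      rw [← hzq, ← hzp]
      field_simp
      ring
    rw [e1, abs_mul, abs_mul, abs_mul, abs_of_pos hMR, abs_pow, abs_of_pos hUR]
    refine lt_of_le_of_lt ?_ hsmall
    apply mul_le_mul_of_nonneg_left _ (by positivity)
    refine (abs_add_le _ _).trans (add_le_add ?_ (pade_bound ν hν0 hν1 z hz j))
    rw [abs_mul]
    exact mul_le_mul (Qp_eval_abs ν hν0 hν1 z (by linarith) j) hη (abs_nonneg _) (by positivity)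
  have h2 : zq * V - zp * U = 0 := by
    rw [← Int.abs_lt_one_iff]
    have : (|zq * (V : ℤ) - zp * (U : ℤ)| : ℝ) < 1 := by
      push_cast
      exact_mod_cast h1
    exact_mod_cast this
  have h3 : (zq : ℝ) * V = zp * U := by
    have : ((zq * V - zp * U : ℤ) : ℝ) = 0 := by rw [h2]; simp
    push_cast at this
    linarith
  rw [← hzq, ← hzp] at h3
  have hne : (Mk q (q ^ a) j : ℝ) * (T : ℝ) ^ j ≠ 0 := mul_ne_zero hMR.ne' (pow_ne_zero _ hTR)
  apply mul_left_cancel₀ hne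
  linear_combination h3

/-- two consecutive approximants give a contradiction -/
lemma two_steps (q a : ℕ) (hq : q.Prime) (ha : 1 ≤ a) (N T : ℤ) (hN : N ≠ 0) (hT : T ≠ 0)
    (U V : ℕ) (hU : 0 < U) (k : ℕ)
    (h : ∀ j, j = k ∨ j = k + 1 → (Qp (1 / ((q ^ a : ℕ) : ℝ)) j).eval ((N : ℝ) / T) * V =
      (Pp (1 / ((q ^ a : ℕ) : ℝ)) j).eval ((N : ℝ) / T) * U) : False := by
  have hg : 1 < q ^ a := Nat.one_lt_pow (by omega) hq.one_lt
  have hgR : (1 : ℝ) < ((q ^ a : ℕ) : ℝ) := by exact_mod_cast hg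
  set ν := 1 / ((q ^ a : ℕ) : ℝ) with hν
  have hν0 : 0 < ν := by positivity
  have hν1 : ν < 1 := by
    rw [hν, div_lt_one (by linarith)]
    exact hgR
  obtain ⟨c, hc, hdet⟩ := pade_det ν hν0 hν1 k
  have h1 := h k (Or.inl rfl)
  have h2 := h (k + 1) (Or.inr rfl)
  have h3 := congrArg (Polynomial.eval ((N : ℝ) / T)) hdet
  simp only [Polynomial.eval_sub, Polynomial.eval_mul, Polynomial.eval_C, Polynomial.eval_pow,
    Polynomial.eval_X] at h3
  have hTR : (T : ℝ) ≠ 0 := by exact_mod_cast hT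
  have hNR : (N : ℝ) ≠ 0 := by exact_mod_cast hN
  have hUR : (U : ℝ) ≠ 0 := by exact_mod_cast hU.ne'
  have h4 : (U : ℝ) * (c * ((N : ℝ) / T) ^ (2 * k + 1)) = 0 := by
    rw [← h3]
    linear_combination (Polynomial.eval ((N : ℝ) / T) (Qp ν k)) * h2 -
      (Polynomial.eval ((N : ℝ) / T) (Qp ν (k + 1))) * h1
  have h5 : ((N : ℝ) / T) ^ (2 * k + 1) ≠ 0 := pow_ne_zero _ (div_ne_zero hNR hTR)
  exact (mul_ne_zero hUR (mul_ne_zero hc h5)) h4

/-- the numerical condition for the second term -/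
lemma cond_two (g R X K d2 s0 s j : ℕ) (hR : 4 * R < X) (hX : 1 ≤ X) (hd2 : 1 ≤ d2)
    (hj : (s + 1) * K ≤ j * s0) (hL : (16 * g * R ^ 2) ^ (s + 1) ≤ X ^ (s0 * s)) :
    4 * R * (16 * g * R ^ 2) ^ j * X ^ K < X ^ (s0 * j + d2) := by
  have h1 : (4 * R * (16 * g * R ^ 2) ^ j * X ^ K) ^ (s + 1) < (X ^ (s0 * j + d2)) ^ (s + 1) := by
    calc (4 * R * (16 * g * R ^ 2) ^ j * X ^ K) ^ (s + 1)
        = (4 * R) ^ (s + 1) * (((16 * g * R ^ 2) ^ (s + 1)) ^ j * X ^ ((s + 1) * K)) := by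
          rw [mul_pow, mul_pow, ← pow_mul, ← pow_mul, ← pow_mul]; ring
      _ ≤ (4 * R) ^ (s + 1) * ((X ^ (s0 * s)) ^ j * X ^ (j * s0)) := by
          apply Nat.mul_le_mul_left
          exact Nat.mul_le_mul (Nat.pow_le_pow_left hL j) (Nat.pow_le_pow_right hX hj)
      _ < X ^ (s + 1) * ((X ^ (s0 * s)) ^ j * X ^ (j * s0)) := by
          apply Nat.mul_lt_mul_of_pos_right (Nat.pow_lt_pow_left hR (by omega))
          positivity
      _ ≤ X ^ (d2 * (s + 1)) * ((X ^ (s0 * s)) ^ j * X ^ (j * s0)) := by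
          apply Nat.mul_le_mul_right
          apply Nat.pow_le_pow_right hX
          exact Nat.le_mul_of_pos_left _ hd2
      _ = (X ^ (s0 * j + d2)) ^ (s + 1) := by
          rw [← pow_mul, ← pow_add, ← pow_add, ← pow_mul]
          congr 1
          ring
  exact lt_of_pow_lt_pow_left₀ (s + 1) (by positivity) h1

/-- the numerical condition for the first term -/
lemma cond_one (g X K D j : ℕ) (hX : 4 < X) (hg : 16 * g ≤ X ^ 2)
    (h : 1 + 2 * j + D * j + K ≤ g * K) :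
    4 * (16 * g) ^ j * X ^ (D * j + K) < X ^ (g * K) := by
  calc 4 * (16 * g) ^ j * X ^ (D * j + K) ≤ 4 * (X ^ 2) ^ j * X ^ (D * j + K) := by
        apply Nat.mul_le_mul_right
        exact Nat.mul_le_mul_left _ (Nat.pow_le_pow_left hg j)
    _ < X * (X ^ 2) ^ j * X ^ (D * j + K) := by
        apply Nat.mul_lt_mul_of_pos_right _ (by positivity)
        exact Nat.mul_lt_mul_of_pos_right hX (by positivity)
    _ = X ^ (1 + 2 * j + D * j + K) := by
        rw [← pow_mul, ← pow_succ', ← pow_add]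
        congr 1
        ring
    _ ≤ X ^ (g * K) := Nat.pow_le_pow_right (by omega) h

/-- no solutions when the base is large -/
theorem pade_main (q a : ℕ) (hq : q.Prime) (ha : 1 ≤ a) (N T : ℤ) (hN : N ≠ 0)
    (X K D e d2 s0 s κ R V : ℕ) (δ : ℝ)
    (hX : 4 * R < X) (hX4 : 4 < X) (hT : T.natAbs = X ^ D) (hNR : N.natAbs ≤ R * X ^ e)
    (hD : D = e + d2) (hs0 : D + s0 = 2 * d2) (hs1 : 1 ≤ s0) (hdK : d2 ≤ K)
    (hκ : D ≤ κ * s0) (hgX : 16 * q ^ a ≤ X ^ 2)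
    (hL : (16 * q ^ a * R ^ 2) ^ (s + 1) ≤ X ^ (s0 * s))
    (hg : 2 * s + 6 + κ * (s + 3) ≤ q ^ a) (hδ : |δ| ≤ 1)
    (heq : (V : ℝ) ^ (q ^ a) = ((X ^ K : ℕ) : ℝ) ^ (q ^ a) * (1 + (N : ℝ) / T) + δ) : False := by
  have hX0 : 0 < X := by omega
  have hXR : (0 : ℝ) < X := by exact_mod_cast hX0
  have hd2 : 1 ≤ d2 := by omega
  have hT0 : T ≠ 0 := by
    intro h
    rw [h, Int.natAbs_zero] at hT
    exact (pow_pos hX0 D).ne' hT.symm
  have hTabs : |(T : ℝ)| = (X : ℝ) ^ D := by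
    rw [← Int.cast_abs, Int.abs_eq_natAbs, hT]
    push_cast
    rfl
  have hz : |(N : ℝ) / T| ≤ R / (X : ℝ) ^ d2 := by
    rw [abs_div, hTabs, div_le_div_iff₀ (by positivity) (by positivity), hD, pow_add, ← mul_assoc]
    apply mul_le_mul_of_nonneg_right _ (by positivity)
    rw [← Int.cast_abs, Int.abs_eq_natAbs]
    exact_mod_cast hNR
  have hz2 : |(N : ℝ) / T| ≤ 1 / 2 := by
    apply hz.trans
    rw [div_le_div_iff₀ (by positivity) (by norm_num)]
    have h1 : X ≤ X ^ d2 := Nat.le_self_pow (by omega) X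
    have h2 : R * 2 ≤ 1 * X ^ d2 := by omega
    exact_mod_cast h2
  have hgpos : 1 ≤ q ^ a := Nat.one_le_pow _ _ hq.pos
  have hU : 0 < X ^ K := pow_pos hX0 K
  have hUR : (0 : ℝ) < ((X ^ K : ℕ) : ℝ) := by exact_mod_cast hU
  have hnear := near (q ^ a) hgpos ((X ^ K : ℕ) : ℝ) V hUR (Nat.cast_nonneg V) _ δ hz2 hδ heq
  set k := ((s + 1) * K + s0 - 1) / s0 with hk
  have hk1 : (s + 1) * K ≤ k * s0 := by
    have h1 := Nat.div_add_mod ((s + 1) * K + s0 - 1) s0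
    have h2 := Nat.mod_lt ((s + 1) * K + s0 - 1) (show 0 < s0 by omega)
    rw [← hk, mul_comm] at h1
    omega
  have hk2 : k * s0 ≤ (s + 1) * K + s0 - 1 := Nat.div_mul_le_self _ _
  have hs0K : s0 ≤ K := by omega
  apply two_steps q a hq ha N T hN hT0 (X ^ K) V hU k
  intro j hj
  have hj1 : (s + 1) * K ≤ j * s0 := by
    have h1 : (k + 1) * s0 = k * s0 + s0 := by ring
    rcases hj with rfl | rfl
    · exact hk1
    · omega
  have hj2 : j * s0 ≤ (s + 1) * K + 2 * s0 := by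
    have h1 : (k + 1) * s0 = k * s0 + s0 := by ring
    rcases hj with rfl | rfl
    · omega
    · omega
  have hj3 : j ≤ (s + 2) * K := by
    have h1 : k ≤ (s + 1) * K := by
      rw [hk, Nat.div_le_iff_le_mul_add_pred (by omega)]
      have : (s + 1) * K ≤ s0 * ((s + 1) * K) := Nat.le_mul_of_pos_left _ hs1
      omega
    have h2 : (s + 2) * K = (s + 1) * K + K := by ring
    rcases hj with rfl | rfl
    · omega
    · omega
  have hDj : D * j ≤ κ * ((s + 3) * K) := by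
    calc D * j ≤ κ * s0 * j := Nat.mul_le_mul_right _ hκ
      _ = κ * (j * s0) := by ring
      _ ≤ κ * ((s + 1) * K + 2 * s0) := Nat.mul_le_mul_left _ hj2
      _ ≤ κ * ((s + 3) * K) := by
          apply Nat.mul_le_mul_left
          have : (s + 3) * K = (s + 1) * K + 2 * K := by ring
          omega
  have hcond : 1 + 2 * j + D * j + K ≤ q ^ a * K := by
    have h1 : (2 * s + 6 + κ * (s + 3)) * K ≤ q ^ a * K := Nat.mul_le_mul_right _ hg
    have h2 : (2 * s + 6 + κ * (s + 3)) * K = 2 * ((s + 2) * K) + κ * ((s + 3) * K) + 2 * K := by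
      ring
    have h3 : 1 ≤ K := by omega
    omega
  have c1 := cond_one (q ^ a) X K D j hX4 hgX hcond
  have c2 := cond_two (q ^ a) R X K d2 s0 s j hX (by omega) hd2 hj1 hL
  apply one_step q a hq N T hT0 (X ^ K) V hU hz2 _ hnear j
  have hM : (Mk q (q ^ a) j : ℝ) ≤ (2 * (q ^ a : ℕ) : ℝ) ^ j := by
    exact_mod_cast Mk_le q (q ^ a) j hq
  have c1' : (Mk q (q ^ a) j : ℝ) * |(T : ℝ)| ^ j * ((X ^ K : ℕ) : ℝ) *
      (8 ^ j * (2 / ((X ^ K : ℕ) : ℝ) ^ (q ^ a))) < 1 / 2 := by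
    rw [hTabs]
    have e1 : (Mk q (q ^ a) j : ℝ) * ((X : ℝ) ^ D) ^ j * ((X ^ K : ℕ) : ℝ) *
        (8 ^ j * (2 / ((X ^ K : ℕ) : ℝ) ^ (q ^ a))) =
        (Mk q (q ^ a) j : ℝ) * (2 * 8 ^ j * (X : ℝ) ^ (D * j + K)) / (X : ℝ) ^ (q ^ a * K) := by
      push_cast
      have e0 : ((X : ℝ) ^ K) ^ (q ^ a) = (X : ℝ) ^ (q ^ a * K) := by
        rw [← pow_mul, mul_comm]
      rw [e0, pow_add, pow_mul (X : ℝ) D j]
      ring
    rw [e1, div_lt_iff₀ (by positivity)]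
    calc (Mk q (q ^ a) j : ℝ) * (2 * 8 ^ j * (X : ℝ) ^ (D * j + K))
        ≤ (2 * (q ^ a : ℕ) : ℝ) ^ j * (2 * 8 ^ j * (X : ℝ) ^ (D * j + K)) :=
          mul_le_mul_of_nonneg_right hM (by positivity)
      _ = 1 / 2 * (4 * (16 * (q ^ a : ℕ)) ^ j * (X : ℝ) ^ (D * j + K)) := by
          rw [show (16 * ((q ^ a : ℕ) : ℝ)) = 8 * (2 * (q ^ a : ℕ)) by ring, mul_pow 8]
          ring
      _ < 1 / 2 * (X : ℝ) ^ (q ^ a * K) := by
          apply mul_lt_mul_of_pos_left _ (by norm_num)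
          exact_mod_cast c1
  have c2' : (Mk q (q ^ a) j : ℝ) * |(T : ℝ)| ^ j * ((X ^ K : ℕ) : ℝ) *
      (2 * 8 ^ j * |(N : ℝ) / T| ^ (2 * j + 1)) < 1 / 2 := by
    rw [hTabs]
    have hc : 4 * R ^ (2 * j + 1) * (16 * q ^ a) ^ j * X ^ (D * j + K) < X ^ (d2 * (2 * j + 1)) := by
      have e1 : 4 * R ^ (2 * j + 1) * (16 * q ^ a) ^ j * X ^ (D * j + K) =
          (4 * R * (16 * q ^ a * R ^ 2) ^ j * X ^ K) * X ^ (D * j) := by
        rw [mul_pow (16 * q ^ a) (R ^ 2), ← pow_mul, pow_add, pow_add]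
        ring
      have e2 : X ^ (d2 * (2 * j + 1)) = X ^ (s0 * j + d2) * X ^ (D * j) := by
        rw [← pow_add]
        congr 1
        have : (D + s0) * j = 2 * d2 * j := by rw [hs0]
        linarith
      rw [e1, e2]
      exact Nat.mul_lt_mul_of_pos_right c2 (by positivity)
    have hzp : |(N : ℝ) / T| ^ (2 * j + 1) ≤ (R : ℝ) ^ (2 * j + 1) / (X : ℝ) ^ (d2 * (2 * j + 1)) := by
      rw [pow_mul, ← div_pow]
      exact pow_le_pow_left₀ (abs_nonneg _) hz _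
    calc (Mk q (q ^ a) j : ℝ) * ((X : ℝ) ^ D) ^ j * ((X ^ K : ℕ) : ℝ) *
        (2 * 8 ^ j * |(N : ℝ) / T| ^ (2 * j + 1))
        ≤ (2 * (q ^ a : ℕ) : ℝ) ^ j * ((X : ℝ) ^ D) ^ j * ((X ^ K : ℕ) : ℝ) *
          (2 * 8 ^ j * ((R : ℝ) ^ (2 * j + 1) / (X : ℝ) ^ (d2 * (2 * j + 1)))) := by
          apply mul_le_mul _ (mul_le_mul_of_nonneg_left hzp (by positivity)) (by positivity)
            (by positivity)
          apply mul_le_mul_of_nonneg_right _ (by positivity)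
          exact mul_le_mul_of_nonneg_right hM (by positivity)
      _ = (4 * (R : ℝ) ^ (2 * j + 1) * (16 * (q ^ a : ℕ)) ^ j * (X : ℝ) ^ (D * j + K)) /
          (X : ℝ) ^ (d2 * (2 * j + 1)) * (1 / 2) := by
          rw [show (16 * ((q ^ a : ℕ) : ℝ)) = 8 * (2 * (q ^ a : ℕ)) by ring, mul_pow 8, pow_add _ (D * j),
            pow_mul _ D]
          push_cast
          ring
      _ < 1 * (1 / 2) := by
          apply mul_lt_mul_of_pos_right _ (by norm_num)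
          rw [div_lt_one (by positivity)]
          exact_mod_cast hc
      _ = 1 / 2 := one_mul _
  rw [mul_add]
  linarith

end

end Pool.Agent.Shorey
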