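import Pool.Agent.Shorey.Sol
import Pool.Agent.Shorey.Kill

/-!
No solutions with a large prime power.
-/

namespace Pool.Agent.Shorey

variable {q a : ℕ} {x Y ε r : ℤ} {K D e d2 s0 n R : ℕ}

lemma Sol.d2_pos (h : Sol q a x Y ε r K D e d2 s0 n R) : 1 ≤ d2 := by
  have := h.hs
  have := h.hs1
  omega

lemma Sol.d2_le (h : Sol q a x Y ε r K D e d2 s0 n R) (hX : R + 1 < x.natAbs) : d2 ≤ K := by
  by_contra hcon
  push Not at hcon
  have h1 := h.crude
  have h2 : x.natAbs ^ (K + 1) ≤ x.natAbs ^ d2 := Nat.pow_le_pow_right (by omega) hcon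
  have h3 : (R + 1) * x.natAbs ^ K < x.natAbs * x.natAbs ^ K :=
    Nat.mul_lt_mul_of_pos_right hX (pow_pos (by omega) K)
  rw [← pow_succ'] at h3
  omega

lemma natAbs_real (z : ℤ) : |(z : ℝ)| = (z.natAbs : ℝ) := by
  rw [← Int.cast_abs, Int.abs_eq_natAbs]; simp

/-- the real equation -/
lemma Sol.real_eq (h : Sol q a x Y ε r K D e d2 s0 n R) (hX : 4 * R < x.natAbs) :
    ∃ δ : ℝ, |δ| ≤ 1 ∧ (Y.natAbs : ℝ) ^ (q ^ a) =
      ((x.natAbs ^ K : ℕ) : ℝ) ^ (q ^ a) * (1 + ((ε * r : ℤ) : ℝ) / ((x ^ D : ℤ) : ℝ)) + δ := by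
  have hx2 := h.hx
  have hx0 : (x : ℝ) ≠ 0 := by
    have : x ≠ 0 := by
      rintro rfl
      simp at hx2
    exact_mod_cast this
  have hεR : (ε : ℝ) * ε = 1 := by
    rcases h.hε with h | h <;> rw [h] <;> norm_num
  have hXR : (0 : ℝ) < x.natAbs := by
    have : 0 < x.natAbs := by omega
    exact_mod_cast this
  have hxabs : |(x : ℝ)| = x.natAbs := natAbs_real x
  set z := ((ε * r : ℤ) : ℝ) / ((x ^ D : ℤ) : ℝ) with hz
  set U := ((x.natAbs ^ K : ℕ) : ℝ) with hU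
  -- bound for z
  have hzb : |z| ≤ 1 / 4 := by
    rw [hz, abs_div]
    push_cast
    rw [abs_mul, abs_pow, hxabs]
    have e1 : |(ε : ℝ)| = 1 := by
      rcases h.hε with h | h <;> rw [h] <;> simp
    have e2 : |(r : ℝ)| ≤ R * (x.natAbs : ℝ) ^ e := by
      rw [natAbs_real]
      calc (r.natAbs : ℝ) ≤ ((R * x.natAbs ^ e : ℕ) : ℝ) := Nat.cast_le.mpr h.hr
        _ = R * (x.natAbs : ℝ) ^ e := by rw [Nat.cast_mul, Nat.cast_pow]
    rw [e1, one_mul, div_le_div_iff₀ (by positivity) (by norm_num), one_mul]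
    have e3 : (x.natAbs : ℝ) ^ D = (x.natAbs : ℝ) ^ e * (x.natAbs : ℝ) ^ d2 := by
      rw [h.hD, pow_add]
    have e4 : (R : ℝ) * 4 ≤ (x.natAbs : ℝ) ^ d2 := by
      have h1 : x.natAbs ≤ x.natAbs ^ d2 := Nat.le_self_pow (by have := h.d2_pos; omega) _
      have h2 : R * 4 ≤ x.natAbs ^ d2 := by omega
      exact_mod_cast h2
    rw [e3]
    calc |(r : ℝ)| * 4 ≤ (R * (x.natAbs : ℝ) ^ e) * 4 := by linarith
      _ = (x.natAbs : ℝ) ^ e * (R * 4) := by ring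
      _ ≤ (x.natAbs : ℝ) ^ e * (x.natAbs : ℝ) ^ d2 :=
          mul_le_mul_of_nonneg_left e4 (by positivity)
  have hz1 : 1 / 2 ≤ 1 + z := by
    have := (abs_le.mp hzb).1
    linarith
  -- the signed equation
  have hY : (Y : ℝ) ^ (q ^ a) = ε * (x : ℝ) ^ (n + D) * (1 + z) + 1 := by
    have h1 : ((Y ^ (q ^ a) : ℤ) : ℝ) = ((x ^ n * (ε * x ^ D + r) + 1 : ℤ) : ℝ) := by rw [h.heq]
    push_cast at h1
    rw [h1, hz, pow_add]
    push_cast
    field_simp
    linear_combination (-(x : ℝ) ^ n * r) * hεR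
  have hmain : |(ε : ℝ) * (x : ℝ) ^ (n + D)| = U ^ (q ^ a) := by
    have h1 := h.main_abs
    have h2 : ((|ε * x ^ (n + D)| : ℤ) : ℝ) = (((x.natAbs ^ K : ℕ) : ℤ) ^ (q ^ a) : ℤ) := by rw [h1]
    rw [Int.cast_abs] at h2
    push_cast at h2
    rw [h2, hU, Nat.cast_pow, hxabs]
  have hU2 : (2 : ℝ) ≤ U ^ (q ^ a) := by
    have h1 : 2 ≤ (x.natAbs ^ K) ^ (q ^ a) := by
      calc 2 ≤ x.natAbs := hx2
        _ ≤ x.natAbs ^ K := Nat.le_self_pow (by have := h.K_pos; omega) _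
        _ ≤ (x.natAbs ^ K) ^ (q ^ a) := Nat.le_self_pow (by have := h.g_pos; omega) _
    rw [hU]
    exact_mod_cast h1
  have hVabs : (Y.natAbs : ℝ) ^ (q ^ a) = |(Y : ℝ) ^ (q ^ a)| := by
    rw [abs_pow, ← Int.cast_abs, Int.abs_eq_natAbs]; simp
  have h1z : 1 ≤ U ^ (q ^ a) * (1 + z) := by nlinarith
  rcases abs_choice ((ε : ℝ) * (x : ℝ) ^ (n + D)) with hc | hc
  · refine ⟨1, by simp, ?_⟩
    rw [hVabs, hY, ← hmain, hc, abs_of_nonneg]
    rw [hmain] at hc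
    rw [← hc]
    linarith
  · refine ⟨-1, by simp, ?_⟩
    have h2 : (ε : ℝ) * (x : ℝ) ^ (n + D) = -U ^ (q ^ a) := by linarith
    rw [hVabs, hY, h2]
    have h3 : -U ^ (q ^ a) * (1 + z) + 1 = -(U ^ (q ^ a) * (1 + z) - 1) := by ring
    rw [h3, abs_neg, abs_of_nonneg (by linarith)]
    ring

/-- the approximation argument for a solution -/
lemma Sol.kill (h : Sol q a x Y ε r K D e d2 s0 n R) (κ s : ℕ) (hX : 4 * R < x.natAbs)
    (hX4 : 4 < x.natAbs) (hκ : D ≤ κ * s0) (hgX : 16 * q ^ a ≤ x.natAbs ^ 2)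
    (hL : (16 * q ^ a * R ^ 2) ^ (s + 1) ≤ x.natAbs ^ (s0 * s))
    (hg : 2 * s + 6 + κ * (s + 3) ≤ q ^ a) : False := by
  have hd2K : d2 ≤ K := h.d2_le (by omega)
  by_cases hr : r = 0
  · have h1 := nat_gap (x.natAbs ^ K) Y.natAbs (q ^ a) (by have := h.g_pos; omega)
    have h2 : |((Y.natAbs : ℤ)) ^ (q ^ a) - ((x.natAbs ^ K : ℕ) : ℤ) ^ (q ^ a)| ≤ 1 := by
      have e1 : ((Y.natAbs : ℤ)) ^ (q ^ a) = |Y ^ (q ^ a)| := by
        rw [abs_pow, Int.abs_eq_natAbs]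
      rw [e1, ← h.main_abs]
      refine (abs_abs_sub_abs_le_abs_sub _ _).trans ?_
      rw [h.eq', add_sub_cancel_left, hr, mul_zero, zero_add, abs_one]
    have h3 : (1 : ℤ) ≤ |(Y.natAbs : ℤ) - (x.natAbs ^ K : ℕ)| := by
      apply Int.one_le_abs
      intro h3
      apply h.ne
      have : (Y.natAbs : ℤ) = (x.natAbs ^ K : ℕ) := by linarith
      exact_mod_cast this
    have h4 : (2 : ℤ) ≤ ((x.natAbs ^ K : ℕ) : ℤ) ^ (q ^ a - 1) := by
      have : 2 ≤ (x.natAbs ^ K) ^ (q ^ a - 1) := by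
        calc 2 ≤ x.natAbs := h.hx
          _ ≤ x.natAbs ^ K := Nat.le_self_pow (by have := h.K_pos; omega) _
          _ ≤ _ := Nat.le_self_pow (by have := h.g_pos; omega) _
      exact_mod_cast this
    nlinarith
  · obtain ⟨δ, hδ, heq⟩ := h.real_eq hX
    have hN : ε * r ≠ 0 := by
      rcases h.hε with h | h <;> rw [h] <;> simpa using hr
    refine pade_main q a h.hq h.ha (ε * r) (x ^ D) hN x.natAbs K D e d2 s0 s κ R Y.natAbs δ hX
      hX4 (Int.natAbs_pow _ _) ?_ h.hD h.hs h.hs1 hd2K hκ hgX hL hg hδ heq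
    rw [Int.natAbs_mul]
    have : ε.natAbs = 1 := by
      rcases h.hε with h | h <;> rw [h] <;> rfl
    rw [this, one_mul]
    exact h.hr

/-- `n` is large -/
lemma Sol.n_large (h : Sol q a x Y ε r K D e d2 s0 n R) (hX : R + 1 < x.natAbs) :
    q ^ a * K < n + 2 * K := by
  have h1 := h.d2_le hX
  have h2 := h.hs
  have h3 := h.hs1
  have h4 := h.hn
  omega

lemma geom_abs (W : ℤ) (hW : 1 ≤ W.natAbs) (q : ℕ) (hq : 1 ≤ q) :
    (∑ i ∈ Finset.range q, W ^ i).natAbs ≤ q * W.natAbs ^ (q - 1) := by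
  calc (∑ i ∈ Finset.range q, W ^ i).natAbs ≤ ∑ i ∈ Finset.range q, (W ^ i).natAbs :=
        Int.natAbs_sum_le _ _
    _ ≤ ∑ i ∈ Finset.range q, W.natAbs ^ (q - 1) := by
        apply Finset.sum_le_sum
        intro i hi
        rw [Finset.mem_range] at hi
        rw [Int.natAbs_pow]
        exact Nat.pow_le_pow_right hW (by omega)
    _ = q * W.natAbs ^ (q - 1) := by simp

lemma pow_aux2 (A X g a b c m : ℕ) :
    (A ^ a * X ^ b * g ^ c) ^ m = A ^ (m * a) * (X ^ m) ^ b * g ^ (m * c) := by ring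

/-- lower bound for `x` when `a ≥ 2` -/
lemma Sol.large_pow (h : Sol q a x Y ε r K D e d2 s0 n R) (ha : 2 ≤ a) (hR : 1 ≤ R)
    (hbig : 16 * (2 * q ^ a * (R + 2) ^ 3) ^ 2 < 2 ^ (q ^ a)) (hgR : 4 * R + 16 ≤ q ^ a)
    (h6 : 6 * q ^ 2 < q ^ a) (hqR : q * (R + 2) ≤ q ^ a) (hl : (16 * R ^ 2) ^ (2 * q) ≤ q ^ a) :
    (16 * q ^ a * R ^ 2) ^ (2 * q + 1) ≤ x.natAbs ^ (2 * q) := by
  by_contra hcon
  push Not at hcon
  obtain ⟨p, hp, hpx, hpW⟩ := h.exists_prime (fun _ => ha) hbig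
  have hpl := h.prime_large p hp hpx hpW
  have hXg : q ^ a + 1 ≤ x.natAbs := h.X_large (fun _ => ha) hbig
  have hfac := h.factor
  have hWp := h.W_pow
  have hW2 := h.W_abs
  set W := Y ^ (q ^ (a - 1)) with hW
  have hpI : Prime (p : ℤ) := Nat.prime_iff_prime_int.mp hp
  have hpS : (p : ℤ) ^ n ∣ ∑ i ∈ Finset.range q, W ^ i := by
    have hcop : IsCoprime ((p : ℤ) ^ n) (W - 1) :=
      ((Prime.coprime_iff_not_dvd hpI).mpr hpW).pow_left
    apply hcop.dvd_of_dvd_mul_left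
    rw [hfac]
    exact (pow_dvd_pow_of_dvd hpx n).mul_right _
  have hS0 : ∑ i ∈ Finset.range q, W ^ i ≠ 0 := by
    intro h0
    rw [h0, mul_zero] at hfac
    have h1 := h.heq
    rw [← hfac, zero_add] at h1
    have h2 : (Y ^ (q ^ a)).natAbs = 1 := by rw [h1]; rfl
    rw [Int.natAbs_pow] at h2
    have h3 : 2 ≤ Y.natAbs ^ (q ^ a) := by
      calc 2 ≤ Y.natAbs := h.hY
        _ ≤ _ := Nat.le_self_pow (by have := h.g_pos; omega) _
    omega
  have hpn : p ^ n ≤ q * W.natAbs ^ (q - 1) := by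
    have h1 : p ^ n ∣ (∑ i ∈ Finset.range q, W ^ i).natAbs := by
      rw [← Int.natCast_dvd]
      exact_mod_cast hpS
    exact (Nat.le_of_dvd (Int.natAbs_pos.mpr hS0) h1).trans
      (geom_abs W (by omega) q h.hq.one_le)
  have hWq : W.natAbs ^ q ≤ (R + 2) * x.natAbs ^ (q ^ a * K) := by
    rw [← Int.natAbs_pow, hWp, Int.natAbs_pow]
    exact h.V_le
  have hnl := h.n_large (by omega)
  have hK := h.K_pos
  have hq2 := h.hq.two_le
  generalize hgdef : q ^ a = g at *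
  generalize x.natAbs = X at *
  generalize W.natAbs = w at *
  obtain ⟨q', hq'⟩ : ∃ q', q = q' + 1 := ⟨q - 1, by omega⟩
  have hqq : q - 1 = q' := by omega
  rw [hqq] at hpn
  have hgn : g ^ n ≤ q * w ^ q' := (Nat.pow_le_pow_left (by omega) n).trans hpn
  have h1 : (g ^ n) ^ q ≤ q ^ q * ((R + 2) * X ^ (g * K)) ^ q' := by
    calc (g ^ n) ^ q ≤ (q * w ^ q') ^ q := Nat.pow_le_pow_left hgn q
      _ = q ^ q * (w ^ q) ^ q' := by rw [mul_pow, ← pow_mul, ← pow_mul, mul_comm q' q]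
      _ ≤ q ^ q * ((R + 2) * X ^ (g * K)) ^ q' :=
          Nat.mul_le_mul_left _ (Nat.pow_le_pow_left hWq q')
  have h2 : g ^ (g * K * q) ≤ (q * (R + 2)) ^ q * X ^ (g * K * q') * g ^ (2 * K * q) := by
    calc g ^ (g * K * q) ≤ g ^ ((n + 2 * K) * q) := by
          apply Nat.pow_le_pow_right (by omega)
          exact Nat.mul_le_mul_right _ hnl.le
      _ = (g ^ n) ^ q * g ^ (2 * K * q) := by rw [← pow_mul, ← pow_add]; congr 1; ring
      _ ≤ (q ^ q * ((R + 2) * X ^ (g * K)) ^ q') * g ^ (2 * K * q) := Nat.mul_le_mul_right _ h1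
      _ = q ^ q * (R + 2) ^ q' * X ^ (g * K * q') * g ^ (2 * K * q) := by
          rw [mul_pow, ← pow_mul X]; ring
      _ ≤ q ^ q * (R + 2) ^ q * X ^ (g * K * q') * g ^ (2 * K * q) := by
          apply Nat.mul_le_mul_right
          apply Nat.mul_le_mul_right
          apply Nat.mul_le_mul_left
          exact Nat.pow_le_pow_right (by omega) (by omega)
      _ = (q * (R + 2)) ^ q * X ^ (g * K * q') * g ^ (2 * K * q) := by rw [mul_pow q]
  -- raise to the power 2 q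
  have h3 : g ^ (2 * q * (g * K * q)) ≤
      g ^ (2 * q * q) * (16 * g * R ^ 2) ^ ((2 * q + 1) * (g * K * q')) *
        g ^ (2 * q * (2 * K * q)) := by
    calc g ^ (2 * q * (g * K * q)) = (g ^ (g * K * q)) ^ (2 * q) := by
          rw [← pow_mul]; congr 1; ring
      _ ≤ ((q * (R + 2)) ^ q * X ^ (g * K * q') * g ^ (2 * K * q)) ^ (2 * q) :=
          Nat.pow_le_pow_left h2 _
      _ = (q * (R + 2)) ^ (2 * q * q) * (X ^ (2 * q)) ^ (g * K * q') *
          g ^ (2 * q * (2 * K * q)) := by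
          exact pow_aux2 _ _ _ _ _ _ _
      _ ≤ g ^ (2 * q * q) * ((16 * g * R ^ 2) ^ (2 * q + 1)) ^ (g * K * q') *
          g ^ (2 * q * (2 * K * q)) := by
          apply Nat.mul_le_mul_right
          apply Nat.mul_le_mul
          · exact Nat.pow_le_pow_left hqR _
          · exact Nat.pow_le_pow_left hcon.le _
      _ = _ := by rw [← pow_mul]
  have h4 : (16 * g * R ^ 2) ^ ((2 * q + 1) * (g * K * q')) =
      g ^ ((2 * q + 1) * (g * K * q')) * (16 * R ^ 2) ^ ((2 * q + 1) * (g * K * q')) := by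
    rw [← mul_pow]; congr 1; ring
  have h5 : (16 * R ^ 2) ^ ((2 * q + 1) * (g * K * q')) ≤ g ^ (q * (g * K)) := by
    have hl1 : 1 ≤ 16 * R ^ 2 := by
      have : 1 ≤ R ^ 2 := Nat.one_le_pow _ _ hR
      omega
    calc (16 * R ^ 2) ^ ((2 * q + 1) * (g * K * q')) ≤ (16 * R ^ 2) ^ (2 * q * (q * (g * K))) := by
          apply Nat.pow_le_pow_right hl1
          have : (2 * q + 1) * q' ≤ 2 * q * q := by
            rw [hq']; nlinarith
          calc (2 * q + 1) * (g * K * q') = (2 * q + 1) * q' * (g * K) := by ring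
            _ ≤ 2 * q * q * (g * K) := Nat.mul_le_mul_right _ this
            _ = 2 * q * (q * (g * K)) := by ring
      _ = ((16 * R ^ 2) ^ (2 * q)) ^ (q * (g * K)) := pow_mul _ _ _
      _ ≤ g ^ (q * (g * K)) := Nat.pow_le_pow_left hl _
  have h7 : g ^ (2 * q * (g * K * q)) ≤
      g ^ (2 * q * q + ((2 * q + 1) * (g * K * q') + q * (g * K)) + 2 * q * (2 * K * q)) := by
    rw [pow_add, pow_add, pow_add]
    refine h3.trans ?_
    rw [h4]
    apply Nat.mul_le_mul_right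
    apply Nat.mul_le_mul_left
    exact Nat.mul_le_mul_left _ h5
  have h8 := (Nat.pow_le_pow_iff_right (show 1 < g by omega)).mp h7
  -- 2 q² u ≤ 2q² + (2q²-q-1) u + q u + 4 q² K
  have h9 : 6 * q ^ 2 * K < g * K := Nat.mul_lt_mul_of_pos_right h6 hK
  have h10 : 2 * q * q ≤ 2 * q ^ 2 * K := by nlinarith [Nat.zero_le (q ^ 2)]
  subst hq'
  nlinarith

end Pool.Agent.Shorey
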