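import Pool.Agent.Shorey.Pade

/-!
Evaluation and arithmetic of the Pade approximants.
-/

namespace Pool.Agent.Shorey

open PowerSeries

noncomputable section

lemma hasSum_binom (ν z : ℝ) (hz : |z| < 1) :
    HasSum (fun n => Ring.choose ν n * z ^ n) ((1 + z) ^ ν) := by
  have h := (Real.one_add_rpow_hasFPowerSeriesOnBall_zero (a := ν)).hasSum
    (y := z) (by simpa [enorm_eq_nnnorm, ← NNReal.coe_lt_coe] using hz)
  rw [zero_add] at h
  have h2 : (fun n => Ring.choose ν n * z ^ n) =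
      fun n => (_root_.binomialSeries ℝ ν) n fun _ => z := by
    ext n
    rw [_root_.binomialSeries_apply]
    simp
  rw [h2]
  exact h

lemma hasSum_QB (ν z : ℝ) (hz : |z| < 1) (k : ℕ) :
    HasSum (fun n => coeff n ((Qp ν k : PowerSeries ℝ) * Bs ν) * z ^ n)
      ((Qp ν k).eval z * (1 + z) ^ ν) := by
  have h1 : ∀ i ∈ Finset.range (k + 1), HasSum
      (fun n => if i ≤ n then qc ν k i * Ring.choose ν (n - i) * z ^ n else 0)
      (qc ν k i * z ^ i * (1 + z) ^ ν) := by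
    intro i _
    have h2 := (hasSum_binom ν z hz).mul_left (qc ν k i * z ^ i)
    rw [← hasSum_nat_add_iff' i]
    have h3 : ∑ n ∈ Finset.range i,
        (if i ≤ n then qc ν k i * Ring.choose ν (n - i) * z ^ n else 0) = 0 := by
      apply Finset.sum_eq_zero
      intro n hn
      rw [Finset.mem_range] at hn
      rw [if_neg (by omega)]
    rw [h3, sub_zero]
    have h4 : (fun n => if i ≤ n + i then qc ν k i * Ring.choose ν (n + i - i) * z ^ (n + i)
        else 0) = fun n => qc ν k i * z ^ i * (Ring.choose ν n * z ^ n) := by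
      ext n
      rw [if_pos (by omega), show n + i - i = n by omega, pow_add]
      ring
    rw [h4]
    exact h2
  have h2 := hasSum_sum h1
  have h3 : (Qp ν k).eval z * (1 + z) ^ ν =
      ∑ i ∈ Finset.range (k + 1), qc ν k i * z ^ i * (1 + z) ^ ν := by
    rw [← Finset.sum_mul, Qp, Polynomial.eval_finsetSum]
    simp
  rw [h3]
  convert h2 using 2 with n
  rw [coeff_mul, Finset.Nat.sum_antidiagonal_eq_sum_range_succ_mk, Finset.sum_mul]
  simp only [Polynomial.coeff_coe, Qp_coeff, Bs_coeff]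
  have e1 : ∑ i ∈ Finset.range (n + 1), (if i ≤ k then qc ν k i else 0) *
      Ring.choose ν (n - i) * z ^ n = ∑ i ∈ Finset.range (n + 1) ∩ Finset.range (k + 1),
        qc ν k i * Ring.choose ν (n - i) * z ^ n := by
    rw [← Finset.sum_ite_mem]
    apply Finset.sum_congr rfl
    intro i _
    by_cases hi : i ≤ k
    · rw [if_pos hi, if_pos (Finset.mem_range.mpr (by omega))]
    · rw [if_neg hi, if_neg (by rw [Finset.mem_range]; omega)]
      ring
  have e2 : ∑ i ∈ Finset.range (k + 1),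
      (if i ≤ n then qc ν k i * Ring.choose ν (n - i) * z ^ n else 0) =
      ∑ i ∈ Finset.range (n + 1) ∩ Finset.range (k + 1),
        qc ν k i * Ring.choose ν (n - i) * z ^ n := by
    rw [Finset.inter_comm, ← Finset.sum_ite_mem]
    apply Finset.sum_congr rfl
    intro i _
    by_cases hi : i ≤ n
    · rw [if_pos hi, if_pos (Finset.mem_range.mpr (by omega))]
    · rw [if_neg hi, if_neg (by rw [Finset.mem_range]; omega)]
  rw [e1, e2]

/-- the size of the coefficients of the remainder -/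
lemma QB_coeff_abs (ν : ℝ) (h0 : 0 ≤ ν) (h1 : ν ≤ 1) (k n : ℕ) :
    |coeff n ((Qp ν k : PowerSeries ℝ) * Bs ν)| ≤ 8 ^ k := by
  rw [coeff_mul, Finset.Nat.sum_antidiagonal_eq_sum_range_succ_mk]
  simp only [Polynomial.coeff_coe, Qp_coeff, Bs_coeff]
  calc |∑ i ∈ Finset.range (n + 1), (if i ≤ k then qc ν k i else 0) * Ring.choose ν (n - i)|
      ≤ ∑ i ∈ Finset.range (n + 1), |(if i ≤ k then qc ν k i else 0) * Ring.choose ν (n - i)| :=
        Finset.abs_sum_le_sum_abs _ _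
    _ ≤ ∑ i ∈ Finset.range (n + 1), (if i ∈ Finset.range (k + 1) then |qc ν k i| else 0) := by
        apply Finset.sum_le_sum
        intro i _
        rw [abs_mul]
        by_cases hi : i ≤ k
        · rw [if_pos hi, if_pos (Finset.mem_range.mpr (by omega))]
          exact mul_le_of_le_one_right (abs_nonneg _) (choose_abs_le_one ν h0 h1 _)
        · rw [if_neg hi, if_neg (by rw [Finset.mem_range]; omega)]
          simp
    _ = ∑ i ∈ Finset.range (n + 1) ∩ Finset.range (k + 1), |qc ν k i| := by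
        rw [Finset.sum_ite_mem]
    _ ≤ ∑ i ∈ Finset.range (k + 1), |qc ν k i| :=
        Finset.sum_le_sum_of_subset_of_nonneg Finset.inter_subset_right
          fun _ _ _ => abs_nonneg _
    _ ≤ 8 ^ k := qc_sum ν h0 h1 k

/-- the remainder is small -/
lemma pade_bound (ν : ℝ) (h0 : 0 ≤ ν) (h1 : ν ≤ 1) (z : ℝ) (hz : |z| ≤ 1 / 2) (k : ℕ) :
    |(Qp ν k).eval z * (1 + z) ^ ν - (Pp ν k).eval z| ≤ 2 * 8 ^ k * |z| ^ (2 * k + 1) := by
  have hP : HasSum (fun n => (Pp ν k).coeff n * z ^ n) ((Pp ν k).eval z) := by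
    rw [Polynomial.eval_eq_sum_range' (show (Pp ν k).natDegree < k + 1 from
      Nat.lt_succ_of_le (Pp_natDegree ν k))]
    apply hasSum_sum_of_ne_finset_zero
    intro n hn
    rw [Finset.mem_range] at hn
    rw [Polynomial.coeff_eq_zero_of_natDegree_lt
      (lt_of_le_of_lt (Pp_natDegree ν k) (by omega)), zero_mul]
  have h2 := (hasSum_QB ν z (by linarith) k).sub hP
  have h3 : ∀ n < 2 * k + 1, coeff n ((Qp ν k : PowerSeries ℝ) * Bs ν) * z ^ n -
      (Pp ν k).coeff n * z ^ n = 0 := by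
    intro n hn
    have := (X_pow_dvd_iff.mp (pade ν k)) n hn
    rw [map_sub, Polynomial.coeff_coe] at this
    rw [← sub_mul, this, zero_mul]
  rw [← hasSum_nat_add_iff' (2 * k + 1), Finset.sum_eq_zero (fun n hn =>
    h3 n (Finset.mem_range.mp hn)), sub_zero] at h2
  have hz0 : 0 ≤ |z| := abs_nonneg z
  have h4 : HasSum (fun n : ℕ => 8 ^ k * |z| ^ (2 * k + 1) * |z| ^ n)
      (8 ^ k * |z| ^ (2 * k + 1) * (1 - |z|)⁻¹) :=
    (hasSum_geometric_of_lt_one hz0 (by linarith)).mul_left _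
  have h5 := h2.norm_le_of_bounded h4 (fun n => by
    rw [Polynomial.coeff_eq_zero_of_natDegree_lt
      (lt_of_le_of_lt (Pp_natDegree ν k) (show k < n + (2 * k + 1) by omega)), zero_mul, sub_zero,
      norm_mul, norm_pow, Real.norm_eq_abs, Real.norm_eq_abs, pow_add, mul_comm (|z| ^ n),
      ← mul_assoc]
    apply mul_le_mul_of_nonneg_right _ (pow_nonneg hz0 n)
    exact mul_le_mul_of_nonneg_right (QB_coeff_abs ν h0 h1 k _) (pow_nonneg hz0 _))
  rw [Real.norm_eq_abs] at h5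
  apply h5.trans
  have h6 : (1 - |z|)⁻¹ ≤ 2 := by
    rw [inv_le_comm₀ (by linarith) (by norm_num)]
    linarith
  calc 8 ^ k * |z| ^ (2 * k + 1) * (1 - |z|)⁻¹ ≤ 8 ^ k * |z| ^ (2 * k + 1) * 2 :=
        mul_le_mul_of_nonneg_left h6 (by positivity)
    _ = 2 * 8 ^ k * |z| ^ (2 * k + 1) := by ring

lemma Qp_eval_abs (ν : ℝ) (h0 : 0 ≤ ν) (h1 : ν ≤ 1) (z : ℝ) (hz : |z| ≤ 1) (k : ℕ) :
    |(Qp ν k).eval z| ≤ 8 ^ k := by
  rw [Qp, Polynomial.eval_finsetSum]
  simp only [Polynomial.eval_mul, Polynomial.eval_C, Polynomial.eval_pow, Polynomial.eval_X]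
  calc |∑ i ∈ Finset.range (k + 1), qc ν k i * z ^ i|
      ≤ ∑ i ∈ Finset.range (k + 1), |qc ν k i * z ^ i| := Finset.abs_sum_le_sum_abs _ _
    _ ≤ ∑ i ∈ Finset.range (k + 1), |qc ν k i| := by
        apply Finset.sum_le_sum
        intro i _
        rw [abs_mul, abs_pow]
        exact mul_le_of_le_one_right (abs_nonneg _) (pow_le_one₀ (abs_nonneg _) hz)
    _ ≤ 8 ^ k := qc_sum ν h0 h1 k

/-! ### Integrality -/

/-- products of consecutive integers -/
lemma fact_dvd_prod (i : ℕ) (A : ℤ) : (i.factorial : ℤ) ∣ ∏ l ∈ Finset.range i, (A - l) := by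
  have h4 := Ring.descPochhammer_eq_factorial_smul_choose A i
  rw [← Polynomial.eval_eq_smeval, descPochhammer_eval_eq_prod_range] at h4
  rw [h4]
  exact ⟨_, nsmul_eq_mul _ _⟩

/-- products of terms of an arithmetic progression -/
lemma dvd_prod_ap (d i : ℕ) (g A : ℤ) (hcop : IsCoprime g (d : ℤ)) (hd : d ∣ i.factorial) :
    (d : ℤ) ∣ ∏ l ∈ Finset.range i, (A - l * g) := by
  obtain ⟨u, w, huw⟩ := hcop
  have h1 : (d : ℤ) ∣ ∏ l ∈ Finset.range i, (u * A - l) :=
    (Int.natCast_dvd_natCast.mpr hd).trans (fact_dvd_prod i (u * A))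
  have h2 : ∏ l ∈ Finset.range i, (u * (A - l * g)) ≡ ∏ l ∈ Finset.range i, (u * A - l)
      [ZMOD (d : ℤ)] := by
    apply Int.ModEq.prod
    intro l _
    rw [Int.modEq_iff_dvd]
    refine ⟨-(l * w), ?_⟩
    linear_combination (l : ℤ) * huw
  have h3 : (d : ℤ) ∣ u ^ i * ∏ l ∈ Finset.range i, (A - l * g) := by
    rw [Finset.prod_mul_distrib, Finset.prod_const, Finset.card_range] at h2
    exact (Int.ModEq.dvd_iff h2).mpr h1
  have hcop2 : IsCoprime (d : ℤ) (u ^ i) := by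
    apply IsCoprime.pow_right
    exact ⟨w, g, by linear_combination huw⟩
  exact hcop2.dvd_of_dvd_mul_left h3

/-- the common denominator -/
def Mk (q g k : ℕ) : ℕ := g ^ k * q ^ (padicValNat q k.factorial)

lemma Mk_le (q g k : ℕ) (hq : q.Prime) : Mk q g k ≤ (2 * g) ^ k := by
  have := Fact.mk hq
  have h1 := sub_one_mul_padicValNat_factorial (p := q) k
  have h2 : q ≤ 2 ^ (q - 1) := by
    have h3 : q - 1 < 2 ^ (q - 1) := Nat.lt_two_pow_self
    have := hq.two_le
    omega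
  have h3 : q ^ (padicValNat q k.factorial) ≤ 2 ^ k := by
    calc q ^ (padicValNat q k.factorial) ≤ (2 ^ (q - 1)) ^ (padicValNat q k.factorial) :=
          Nat.pow_le_pow_left h2 _
      _ = 2 ^ ((q - 1) * padicValNat q k.factorial) := by rw [← pow_mul]
      _ ≤ 2 ^ k := Nat.pow_le_pow_right (by norm_num) (by omega)
  rw [Mk, mul_pow, mul_comm]
  exact Nat.mul_le_mul_right _ h3

lemma choose_prod (a : ℝ) (i : ℕ) :
    (i.factorial : ℝ) * Ring.choose a i = ∏ l ∈ Finset.range i, (a - l) := by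
  induction i with
  | zero => simp
  | succ i ih =>
    rw [Finset.prod_range_succ, ← ih, Nat.factorial_succ, Nat.cast_mul]
    push_cast
    linear_combination (i.factorial : ℝ) * choose_succ_mul a i

lemma choose_int (q a k i : ℕ) (hq : q.Prime) (hi : i ≤ k) :
    ∃ z : ℤ, (Mk q (q ^ a) k : ℝ) * Ring.choose ((k : ℝ) - 1 / ((q ^ a : ℕ) : ℝ)) i = z := by
  have := Fact.mk hq
  set g := q ^ a with hg
  have hg0 : 0 < g := pow_pos hq.pos a
  have hgR : (g : ℝ) ≠ 0 := by exact_mod_cast hg0.ne'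
  obtain ⟨v, d, hd, hfac⟩ := Nat.exists_eq_pow_mul_and_not_dvd (Nat.factorial_ne_zero i) q hq.ne_one
  have hd0 : d ≠ 0 := by
    rintro rfl
    exact hd (dvd_zero _)
  have hcop : IsCoprime (g : ℤ) (d : ℤ) := by
    rw [Nat.isCoprime_iff_coprime, hg]
    exact ((Nat.Prime.coprime_iff_not_dvd hq).mpr hd).pow_left a
  obtain ⟨z, hz⟩ := dvd_prod_ap d i g (k * g - 1) hcop ⟨q ^ v, by rw [hfac]; ring⟩
  have hM : g ^ i * q ^ v ∣ Mk q g k := by
    apply mul_dvd_mul (pow_dvd_pow _ hi)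
    apply pow_dvd_pow
    rw [← padicValNat_dvd_iff_le (Nat.factorial_ne_zero k)]
    exact (Dvd.intro _ hfac.symm).trans (Nat.factorial_dvd_factorial hi)
  obtain ⟨M', hM'⟩ := hM
  have h1 : ((g : ℝ) ^ i * (q : ℝ) ^ v) * Ring.choose ((k : ℝ) - 1 / (g : ℝ)) i = z := by
    have h2 := choose_prod ((k : ℝ) - 1 / (g : ℝ)) i
    have h3 : (g : ℝ) ^ i * ∏ l ∈ Finset.range i, ((k : ℝ) - 1 / (g : ℝ) - l) =
        ((∏ l ∈ Finset.range i, ((k : ℤ) * g - 1 - l * g) : ℤ) : ℝ) := by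
      rw [← Finset.card_range i, ← Finset.prod_const, Finset.card_range, ← Finset.prod_mul_distrib]
      push_cast
      apply Finset.prod_congr rfl
      intro l _
      field_simp
    rw [hz] at h3
    have hdR : (d : ℝ) ≠ 0 := by exact_mod_cast hd0
    have h4 : (i.factorial : ℝ) = (q : ℝ) ^ v * d := by
      rw [hfac]; push_cast; ring
    rw [← h2, h4] at h3
    push_cast at h3
    apply mul_left_cancel₀ hdR
    linear_combination h3
  refine ⟨M' * z, ?_⟩
  rw [hM']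
  push_cast
  rw [← h1]
  ring

/-- the values of the approximants at a rational number are rational with known denominators -/
lemma Qp_int (q a k : ℕ) (hq : q.Prime) (N T : ℤ) (hT : T ≠ 0) :
    ∃ z : ℤ, (Mk q (q ^ a) k : ℝ) * (T : ℝ) ^ k *
      (Qp (1 / ((q ^ a : ℕ) : ℝ)) k).eval ((N : ℝ) / T) = z := by
  have h1 : ∀ i : ℕ, i ≤ k → ∃ z : ℤ,
      (Mk q (q ^ a) k : ℝ) * qc (1 / ((q ^ a : ℕ) : ℝ)) k i = z := by
    intro i hi
    obtain ⟨z, hz⟩ := choose_int q a k i hq hi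
    refine ⟨(2 * k - i).choose k * z, ?_⟩
    rw [qc]
    push_cast
    rw [← hz]
    push_cast
    ring
  choose! w hw using h1
  generalize (1 / ((q ^ a : ℕ) : ℝ)) = ν at hw ⊢
  refine ⟨∑ i ∈ Finset.range (k + 1), w i * N ^ i * T ^ (k - i), ?_⟩
  have hTR : (T : ℝ) ≠ 0 := by exact_mod_cast hT
  rw [Qp, Polynomial.eval_finsetSum, Finset.mul_sum]
  push_cast
  apply Finset.sum_congr rfl
  intro i hi
  rw [Finset.mem_range] at hi
  rw [← hw i (by omega)]
  simp only [Polynomial.eval_mul, Polynomial.eval_C, Polynomial.eval_pow, Polynomial.eval_X]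
  have h2 : (T : ℝ) ^ k = T ^ i * T ^ (k - i) := by
    rw [← pow_add]; congr 1; omega
  rw [h2, div_pow]
  field_simp

lemma Pp_int (q a k : ℕ) (hq : q.Prime) (N T : ℤ) (hT : T ≠ 0) :
    ∃ z : ℤ, (Mk q (q ^ a) k : ℝ) * (T : ℝ) ^ k *
      (Pp (1 / ((q ^ a : ℕ) : ℝ)) k).eval ((N : ℝ) / T) = z := by
  have h1 : ∀ i : ℕ, i ≤ k → ∃ z : ℤ,
      (Mk q (q ^ a) k : ℝ) * qc (1 / ((q ^ a : ℕ) : ℝ)) k i = z := by
    intro i hi
    obtain ⟨z, hz⟩ := choose_int q a k i hq hi
    refine ⟨(2 * k - i).choose k * z, ?_⟩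
    rw [qc]
    push_cast
    rw [← hz]
    push_cast
    ring
  choose! w hw using h1
  generalize (1 / ((q ^ a : ℕ) : ℝ)) = ν at hw ⊢
  refine ⟨∑ i ∈ Finset.range (k + 1), (-1) ^ i * w i * N ^ i * (T + N) ^ (k - i), ?_⟩
  have hTR : (T : ℝ) ≠ 0 := by exact_mod_cast hT
  rw [Pp, Polynomial.eval_finsetSum, Finset.mul_sum]
  push_cast
  apply Finset.sum_congr rfl
  intro i hi
  rw [Finset.mem_range] at hi
  rw [← hw i (by omega)]
  simp only [Polynomial.eval_mul, Polynomial.eval_C, Polynomial.eval_pow, Polynomial.eval_X,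
    Polynomial.eval_add, Polynomial.eval_one]
  have h2 : (T : ℝ) ^ k = T ^ i * T ^ (k - i) := by
    rw [← pow_add]; congr 1; omega
  have h3 : (1 + (N : ℝ) / T) = (T + N) / T := by field_simp
  rw [h2, div_pow, h3, div_pow]
  field_simp

end

end Pool.Agent.Shorey
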