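import Mathlib

/-!
Pade approximants to `(1 + z) ^ ν` for the power values of clustered polynomials.
-/

namespace Pool.Agent.Shorey

open PowerSeries

noncomputable section

/-- alternating sums of binomial coefficients -/
lemma alt_sum (m : ℕ) : ∀ N k : ℕ, m ≤ N →
    ∑ r ∈ Finset.range (m + 1), (-1 : ℤ) ^ r * (m.choose r) * ((N - r).choose k) =
      if m ≤ k then ((N - m).choose (k - m) : ℤ) else 0 := by
  induction m with
  | zero => intro N k _; simp
  | succ m ih =>
    intro N k hN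
    have h1 : ∑ r ∈ Finset.range (m + 1 + 1), (-1 : ℤ) ^ r * ((m + 1).choose r) *
        ((N - r).choose k) =
        ∑ r ∈ Finset.range (m + 1), (-1 : ℤ) ^ r * (m.choose r) * ((N - r).choose k) -
        ∑ r ∈ Finset.range (m + 1), (-1 : ℤ) ^ r * (m.choose r) * ((N - 1 - r).choose k) := by
      rw [Finset.sum_range_succ']
      have e1 : ∀ r ∈ Finset.range (m + 1), (-1 : ℤ) ^ (r + 1) * ((m + 1).choose (r + 1)) *
          ((N - (r + 1)).choose k) =
          (-1 : ℤ) ^ (r + 1) * (m.choose (r + 1)) * ((N - (r + 1)).choose k) -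
          (-1 : ℤ) ^ r * (m.choose r) * ((N - 1 - r).choose k) := by
        intro r _
        rw [Nat.choose_succ_succ, show N - 1 - r = N - (r + 1) by omega]
        push_cast
        ring
      rw [Finset.sum_congr rfl e1, Finset.sum_sub_distrib]
      have e2 : ∑ r ∈ Finset.range (m + 1), (-1 : ℤ) ^ r * (m.choose r) * ((N - r).choose k) =
          ∑ r ∈ Finset.range (m + 1), (-1 : ℤ) ^ (r + 1) * (m.choose (r + 1)) *
            ((N - (r + 1)).choose k) + (-1 : ℤ) ^ 0 * (m.choose 0) * ((N - 0).choose k) := by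
        rw [← Finset.sum_range_succ' (fun r => (-1 : ℤ) ^ r * (m.choose r) * ((N - r).choose k)),
          Finset.sum_range_succ (fun r => (-1 : ℤ) ^ r * (m.choose r) * ((N - r).choose k)) (m + 1),
          Nat.choose_eq_zero_of_lt (show m < m + 1 by omega)]
        simp
      rw [e2]
      simp
      ring
    rw [h1, ih N k (by omega), ih (N - 1) k (by omega)]
    by_cases h2 : m + 1 ≤ k
    · rw [if_pos (by omega), if_pos (by omega), if_pos h2]
      have e3 : N - m = (N - (m + 1)) + 1 := by omega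
      have e4 : k - m = (k - (m + 1)) + 1 := by omega
      have e5 : N - 1 - m = N - (m + 1) := by omega
      rw [e3, e4, e5, Nat.choose_succ_succ]
      push_cast
      ring
    · rw [if_neg h2]
      by_cases h3 : m ≤ k
      · rw [if_pos h3, if_pos h3]
        have : k - m = 0 := by omega
        rw [this]
        simp
      · rw [if_neg h3, if_neg h3, sub_zero]

lemma alt_sum_k (m k : ℕ) (hm : m ≤ 2 * k) :
    ∑ r ∈ Finset.range (k + 1), (-1 : ℤ) ^ r * (m.choose r) * ((2 * k - r).choose k) =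
      if m ≤ k then ((2 * k - m).choose k : ℤ) else 0 := by
  have h := alt_sum m (2 * k) k hm
  by_cases hmk : m ≤ k
  · rw [if_pos hmk] at h ⊢
    have h2 : ((2 * k - m).choose k : ℤ) = ((2 * k - m).choose (k - m) : ℤ) := by
      congr 1
      rw [← Nat.choose_symm (show k ≤ 2 * k - m by omega)]
      congr 1
      omega
    rw [h2, ← h]
    symm
    apply Finset.sum_subset
    · intro r hr
      rw [Finset.mem_range] at hr ⊢
      omega
    · intro r _ hr
      rw [Finset.mem_range] at hr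
      rw [Nat.choose_eq_zero_of_lt (show m < r by omega)]
      simp
  · rw [if_neg hmk] at h ⊢
    rw [← h]
    apply Finset.sum_subset
    · intro r hr
      rw [Finset.mem_range] at hr ⊢
      omega
    · intro r hr1 hr
      rw [Finset.mem_range] at hr hr1
      rw [Nat.choose_eq_zero_of_lt (show 2 * k - r < k by omega)]
      simp

/-- coefficients of the denominators -/
def qc (ν : ℝ) (k i : ℕ) : ℝ := ((2 * k - i).choose k : ℝ) * Ring.choose ((k : ℝ) - ν) i

/-- the denominators -/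
def Qp (ν : ℝ) (k : ℕ) : Polynomial ℝ :=
  ∑ i ∈ Finset.range (k + 1), Polynomial.C (qc ν k i) * Polynomial.X ^ i

/-- the numerators -/
def Pp (ν : ℝ) (k : ℕ) : Polynomial ℝ :=
  ∑ r ∈ Finset.range (k + 1), Polynomial.C ((-1) ^ r * qc ν k r) * Polynomial.X ^ r *
    (1 + Polynomial.X) ^ (k - r)

/-- the binomial series -/
abbrev Bs (ν : ℝ) : PowerSeries ℝ := binomialSeries ℝ ν

lemma Bs_coeff (ν : ℝ) (n : ℕ) : coeff n (Bs ν) = Ring.choose ν n := by
  rw [Bs, binomialSeries_coeff]; simp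

/-- auxiliary series -/
def Gs (ν : ℝ) (k : ℕ) : PowerSeries ℝ :=
  ∑ r ∈ Finset.range (k + 1), C ((-1) ^ r * qc ν k r) * X ^ r * Bs ((k : ℝ) - ν - r)

lemma Qp_coeff (ν : ℝ) (k m : ℕ) : (Qp ν k).coeff m = if m ≤ k then qc ν k m else 0 := by
  rw [Qp, Polynomial.finsetSum_coeff]
  simp only [Polynomial.coeff_C_mul, Polynomial.coeff_X_pow]
  by_cases h : m ≤ k
  · rw [if_pos h, Finset.sum_eq_single m]
    · simp
    · intro i _ hi
      rw [if_neg (Ne.symm hi), mul_zero]
    · intro hm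
      exact absurd (Finset.mem_range.mpr (by omega)) hm
  · rw [if_neg h]
    apply Finset.sum_eq_zero
    intro i hi
    rw [Finset.mem_range] at hi
    rw [if_neg (by omega), mul_zero]

lemma Gs_coeff (ν : ℝ) (k m : ℕ) (hm : m ≤ 2 * k) :
    coeff m (Gs ν k) = if m ≤ k then qc ν k m else 0 := by
  have h1 : coeff m (Gs ν k) = Ring.choose ((k : ℝ) - ν) m *
      ((∑ r ∈ Finset.range (k + 1), (-1 : ℤ) ^ r * (m.choose r) * ((2 * k - r).choose k) : ℤ) :
        ℝ) := by
    rw [Gs, map_sum]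
    push_cast
    rw [Finset.mul_sum]
    apply Finset.sum_congr rfl
    intro r hr
    rw [mul_assoc, coeff_C_mul, coeff_X_pow_mul']
    split_ifs with h
    · rw [Bs_coeff]
      have h2 := Ring.choose_smul_choose ((k : ℝ) - ν) h
      rw [nsmul_eq_mul] at h2
      rw [qc]
      linear_combination (-((-1 : ℝ) ^ r * ((2 * k - r).choose k : ℝ))) * h2
    · rw [Nat.choose_eq_zero_of_lt (show m < r by omega)]
      simp
  rw [h1, alt_sum_k m k hm]
  split_ifs with h
  · rw [qc]; push_cast; ring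
  · simp

/-- the approximation property -/
lemma pade (ν : ℝ) (k : ℕ) :
    (X : PowerSeries ℝ) ^ (2 * k + 1) ∣ (Qp ν k : PowerSeries ℝ) * Bs ν - (Pp ν k : PowerSeries ℝ) := by
  have h1 : (X : PowerSeries ℝ) ^ (2 * k + 1) ∣ (Qp ν k : PowerSeries ℝ) - Gs ν k := by
    rw [X_pow_dvd_iff]
    intro m hm
    rw [map_sub, Polynomial.coeff_coe, Qp_coeff, Gs_coeff ν k m (by omega), sub_self]
  have h2 : Gs ν k * Bs ν = (Pp ν k : PowerSeries ℝ) := by
    rw [Gs, Pp, Finset.sum_mul, ← Polynomial.coeToPowerSeries.ringHom_apply, map_sum]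
    apply Finset.sum_congr rfl
    intro r hr
    rw [Finset.mem_range] at hr
    have h3 : Bs ((k : ℝ) - ν - r) * Bs ν = (1 + X) ^ (k - r) := by
      rw [Bs, Bs, ← binomialSeries_add, ← binomialSeries_nat (R := ℝ) (A := ℝ) (k - r)]
      congr 1
      rw [Nat.cast_sub (by omega)]
      ring
    rw [mul_assoc, h3]
    simp
  have h3 := h1.mul_right (Bs ν)
  rw [sub_mul, h2] at h3
  exact h3

lemma choose_succ_mul (r : ℝ) (n : ℕ) :
    ((n : ℝ) + 1) * Ring.choose r (n + 1) = Ring.choose r n * (r - n) := by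
  have h := Ring.choose_smul_choose r (show n ≤ n + 1 by omega)
  rw [nsmul_eq_mul, Nat.choose_succ_self_right, show n + 1 - n = 1 by omega,
    Ring.choose_one_right] at h
  push_cast at h
  exact h

lemma choose_succ_mul' (r : ℝ) (n : ℕ) :
    ((n : ℝ) + 1) * Ring.choose r (n + 1) = r * Ring.choose (r - 1) n := by
  have h := Ring.choose_smul_choose r (show 1 ≤ n + 1 by omega)
  rw [nsmul_eq_mul, Nat.choose_one_right, show n + 1 - 1 = n by omega,
    Ring.choose_one_right] at h
  push_cast at h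
  exact h

lemma choose_ne_zero' (r : ℝ) (n : ℕ) (h : ∀ l : ℕ, l < n → r ≠ l) : Ring.choose r n ≠ 0 := by
  induction n with
  | zero => simp
  | succ n ih =>
    intro h0
    have h1 := choose_succ_mul r n
    rw [h0, mul_zero] at h1
    rcases mul_eq_zero.mp h1.symm with h2 | h2
    · exact ih (fun l hl => h l (by omega)) h2
    · exact h n (by omega) (by linarith)

lemma choose_abs_le_one (ν : ℝ) (h0 : 0 ≤ ν) (h1 : ν ≤ 1) (n : ℕ) : |Ring.choose ν n| ≤ 1 := by
  induction n with
  | zero => simp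
  | succ n ih =>
    have h2 := choose_succ_mul ν n
    have h3 : ((n : ℝ) + 1) * |Ring.choose ν (n + 1)| = |Ring.choose ν n| * |ν - n| := by
      rw [← abs_mul, ← h2, abs_mul, abs_of_nonneg (show (0 : ℝ) ≤ (n : ℝ) + 1 by positivity)]
    have h4 : |ν - n| ≤ n + 1 := by
      rw [abs_le]
      have : (0 : ℝ) ≤ n := Nat.cast_nonneg n
      constructor <;> linarith
    have h5 : ((n : ℝ) + 1) * |Ring.choose ν (n + 1)| ≤ ((n : ℝ) + 1) * 1 := by
      rw [h3, mul_one]
      calc |Ring.choose ν n| * |ν - n| ≤ 1 * ((n : ℝ) + 1) :=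
            mul_le_mul ih h4 (abs_nonneg _) zero_le_one
        _ = (n : ℝ) + 1 := one_mul _
    exact le_of_mul_le_mul_left h5 (by positivity)

lemma choose_bounds (ν : ℝ) (h0 : 0 ≤ ν) (h1 : ν ≤ 1) (k i : ℕ) (hi : i ≤ k) :
    0 ≤ Ring.choose ((k : ℝ) - ν) i ∧ Ring.choose ((k : ℝ) - ν) i ≤ (k.choose i : ℝ) := by
  induction i with
  | zero => simp
  | succ i ih =>
    obtain ⟨ih1, ih2⟩ := ih (by omega)
    have h2 := choose_succ_mul ((k : ℝ) - ν) i
    have h3 : ((i : ℝ) + 1) * (k.choose (i + 1) : ℝ) = (k.choose i : ℝ) * ((k : ℝ) - i) := by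
      have := Nat.choose_succ_right_eq k i
      have h4 : ((k.choose (i + 1) * (i + 1) : ℕ) : ℝ) = ((k.choose i * (k - i) : ℕ) : ℝ) := by
        rw [this]
      push_cast [Nat.cast_sub (show i ≤ k by omega)] at h4
      linarith
    have h5 : (i : ℝ) + 1 ≤ k := by exact_mod_cast hi
    have h6 : (0 : ℝ) < (i : ℝ) + 1 := by positivity
    constructor
    · by_contra hcon
      push Not at hcon
      have : ((i : ℝ) + 1) * Ring.choose ((k : ℝ) - ν) (i + 1) < 0 :=
        mul_neg_of_pos_of_neg h6 hcon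
      rw [h2] at this
      have h7 : 0 ≤ Ring.choose ((k : ℝ) - ν) i * ((k : ℝ) - ν - i) :=
        mul_nonneg ih1 (by linarith)
      linarith
    · apply le_of_mul_le_mul_left _ h6
      rw [h2, h3]
      apply mul_le_mul ih2 (by linarith) (by linarith) (Nat.cast_nonneg _)

lemma qc_abs (ν : ℝ) (h0 : 0 ≤ ν) (h1 : ν ≤ 1) (k i : ℕ) (hi : i ≤ k) :
    |qc ν k i| ≤ 4 ^ k * (k.choose i : ℝ) := by
  obtain ⟨h2, h3⟩ := choose_bounds ν h0 h1 k i hi
  rw [qc, abs_mul, abs_of_nonneg h2, abs_of_nonneg (Nat.cast_nonneg _)]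
  apply mul_le_mul _ h3 h2 (by positivity)
  have h4 : (2 * k - i).choose k ≤ 2 ^ (2 * k - i) := Nat.choose_le_two_pow _ _
  have h5 : 2 ^ (2 * k - i) ≤ 4 ^ k := by
    rw [show (4 : ℕ) = 2 ^ 2 by norm_num, ← pow_mul]
    exact Nat.pow_le_pow_right (by norm_num) (by omega)
  exact_mod_cast h4.trans h5

lemma qc_sum (ν : ℝ) (h0 : 0 ≤ ν) (h1 : ν ≤ 1) (k : ℕ) :
    ∑ i ∈ Finset.range (k + 1), |qc ν k i| ≤ 8 ^ k := by
  calc ∑ i ∈ Finset.range (k + 1), |qc ν k i| ≤
      ∑ i ∈ Finset.range (k + 1), 4 ^ k * (k.choose i : ℝ) := by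
        apply Finset.sum_le_sum
        intro i hi
        rw [Finset.mem_range] at hi
        exact qc_abs ν h0 h1 k i (by omega)
    _ = 4 ^ k * 2 ^ k := by
        rw [← Finset.mul_sum]
        congr 1
        exact_mod_cast Nat.sum_range_choose k
    _ = 8 ^ k := by
        rw [← mul_pow]; norm_num

lemma Pp_natDegree (ν : ℝ) (k : ℕ) : (Pp ν k).natDegree ≤ k := by
  rw [Pp]
  apply Polynomial.natDegree_sum_le_of_forall_le
  intro r hr
  rw [Finset.mem_range] at hr
  have h1 : ((1 : Polynomial ℝ) + Polynomial.X).natDegree ≤ 1 := by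
    compute_degree
  calc (Polynomial.C ((-1) ^ r * qc ν k r) * Polynomial.X ^ r *
      (1 + Polynomial.X) ^ (k - r)).natDegree ≤ r + (k - r) := by
        apply Polynomial.natDegree_mul_le_of_le
        · exact Polynomial.natDegree_C_mul_X_pow_le _ _
        · calc ((1 + Polynomial.X : Polynomial ℝ) ^ (k - r)).natDegree ≤
              (k - r) * (1 + Polynomial.X : Polynomial ℝ).natDegree :=
                Polynomial.natDegree_pow_le
            _ ≤ (k - r) * 1 := Nat.mul_le_mul_left _ h1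
            _ = k - r := mul_one _
    _ = k := by omega

lemma Qp_natDegree (ν : ℝ) (k : ℕ) : (Qp ν k).natDegree ≤ k := by
  rw [Polynomial.natDegree_le_iff_coeff_eq_zero]
  intro n hn
  rw [Qp_coeff, if_neg (by omega)]

lemma Pp_lead (ν : ℝ) (k : ℕ) : (Pp ν k).coeff k = (-1) ^ k * Ring.choose (-ν - 1) k := by
  have h1 : (Pp ν k).coeff k = ∑ r ∈ Finset.range (k + 1), (-1) ^ r * qc ν k r := by
    rw [Pp, Polynomial.finsetSum_coeff]
    apply Finset.sum_congr rfl
    intro r hr
    rw [Finset.mem_range] at hr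
    rw [mul_assoc, Polynomial.coeff_C_mul, Polynomial.coeff_X_pow_mul', if_pos (by omega),
      Polynomial.coeff_one_add_X_pow, Nat.choose_self]
    simp
  have h2 := Ring.add_choose_eq k (Commute.all ((k : ℝ) - ν) (-((k : ℝ) + 1)))
  rw [show ((k : ℝ) - ν) + (-((k : ℝ) + 1)) = -ν - 1 by ring] at h2
  rw [h1, h2, Finset.Nat.sum_antidiagonal_eq_sum_range_succ_mk, Finset.mul_sum]
  apply Finset.sum_congr rfl
  intro r hr
  rw [Finset.mem_range] at hr
  have h3 : Ring.choose (-((k : ℝ) + 1)) (k - r) =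
      (-1) ^ (k - r) * ((2 * k - r).choose k : ℝ) := by
    rw [Ring.choose_neg]
    have h4 : ((k : ℝ) + 1 + ((k - r : ℕ) : ℝ) - 1) = ((2 * k - r : ℕ) : ℝ) := by
      rw [Nat.cast_sub (by omega), Nat.cast_sub (by omega)]
      push_cast
      ring
    rw [h4, Ring.choose_natCast]
    have h5 : (2 * k - r).choose (k - r) = (2 * k - r).choose k := by
      rw [← Nat.choose_symm (show k ≤ 2 * k - r by omega)]
      congr 1
      omega
    rw [h5, Int.negOnePow_def]
    simp [Units.smul_def]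
  simp only
  rw [h3, qc]
  have h6 : (-1 : ℝ) ^ k = (-1) ^ r * (-1) ^ (k - r) := by
    rw [← pow_add]; congr 1; omega
  have h7 : (-1 : ℝ) ^ (k - r) * (-1) ^ (k - r) = 1 := by
    rw [← mul_pow]; simp
  rw [h6]
  linear_combination (-((-1 : ℝ) ^ r * ((2 * k - r).choose k : ℝ) *
    Ring.choose ((k : ℝ) - ν) r)) * h7

/-- two consecutive approximants are different -/
lemma pade_det (ν : ℝ) (h0 : 0 < ν) (h1 : ν < 1) (k : ℕ) :
    ∃ c : ℝ, c ≠ 0 ∧ Pp ν k * Qp ν (k + 1) - Pp ν (k + 1) * Qp ν k =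
      Polynomial.C c * Polynomial.X ^ (2 * k + 1) := by
  set dd := Pp ν k * Qp ν (k + 1) - Pp ν (k + 1) * Qp ν k with hdd
  have hdeg : dd.natDegree ≤ 2 * k + 1 := by
    apply (Polynomial.natDegree_sub_le _ _).trans
    apply max_le
    · exact (Polynomial.natDegree_mul_le_of_le (Pp_natDegree ν k)
        (Qp_natDegree ν (k + 1))).trans (by omega)
    · exact (Polynomial.natDegree_mul_le_of_le (Pp_natDegree ν (k + 1))
        (Qp_natDegree ν k)).trans (by omega)
  have hdvd : (X : PowerSeries ℝ) ^ (2 * k + 1) ∣ (dd : PowerSeries ℝ) := by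
    have e1 := pade ν k
    have e2 : (X : PowerSeries ℝ) ^ (2 * k + 1) ∣
        (Qp ν (k + 1) : PowerSeries ℝ) * Bs ν - (Pp ν (k + 1) : PowerSeries ℝ) :=
      (pow_dvd_pow _ (by omega)).trans (pade ν (k + 1))
    have e3 : (dd : PowerSeries ℝ) =
        ((Qp ν (k + 1) : PowerSeries ℝ) * Bs ν - (Pp ν (k + 1) : PowerSeries ℝ)) *
          (Qp ν k : PowerSeries ℝ) -
        ((Qp ν k : PowerSeries ℝ) * Bs ν - (Pp ν k : PowerSeries ℝ)) *
          (Qp ν (k + 1) : PowerSeries ℝ) := by
      rw [hdd]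
      push_cast
      ring
    rw [e3]
    exact (e2.mul_right _).sub (e1.mul_right _)
  refine ⟨dd.coeff (2 * k + 1), ?_, ?_⟩
  · have e1 : dd.coeff (2 * k + 1) = (Pp ν k).coeff k * (Qp ν (k + 1)).coeff (k + 1) -
        (Pp ν (k + 1)).coeff (k + 1) * (Qp ν k).coeff k := by
      rw [hdd, Polynomial.coeff_sub]
      congr 1
      · rw [show 2 * k + 1 = k + (k + 1) by omega]
        exact Polynomial.coeff_mul_add_eq_of_natDegree_le (Pp_natDegree ν k) (Qp_natDegree ν (k + 1))
      · rw [show 2 * k + 1 = (k + 1) + k by omega]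
        exact Polynomial.coeff_mul_add_eq_of_natDegree_le (Pp_natDegree ν (k + 1)) (Qp_natDegree ν k)
    have e2 := choose_succ_mul (-ν - 1) k
    have e3 := choose_succ_mul' (((k + 1 : ℕ) : ℝ) - ν) k
    have e4 : ((k + 1 : ℕ) : ℝ) - ν - 1 = (k : ℝ) - ν := by push_cast; ring
    rw [e4] at e3
    have e5 : ((k : ℝ) + 1) * dd.coeff (2 * k + 1) =
        (-1) ^ k * (-2 * ν) * Ring.choose (-ν - 1) k * Ring.choose ((k : ℝ) - ν) k := by
      rw [e1, Pp_lead, Pp_lead, Qp_coeff, Qp_coeff, if_pos le_rfl, if_pos le_rfl, qc, qc,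
        show 2 * (k + 1) - (k + 1) = k + 1 by omega, show 2 * k - k = k by omega,
        Nat.choose_self, Nat.choose_self]
      push_cast at e3 ⊢
      rw [pow_succ]
      linear_combination ((-1 : ℝ) ^ k * Ring.choose (-ν - 1) k) * e3 +
        ((-1 : ℝ) ^ k * Ring.choose ((k : ℝ) - ν) k) * e2
    intro h
    rw [h, mul_zero] at e5
    have n1 : Ring.choose (-ν - 1) k ≠ 0 := by
      apply choose_ne_zero'
      intro l _ hl
      have : (0 : ℝ) ≤ l := Nat.cast_nonneg l
      linarith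
    have n2 : Ring.choose ((k : ℝ) - ν) k ≠ 0 := by
      apply choose_ne_zero'
      intro l hlk hl
      have : (l : ℝ) + 1 ≤ k := by exact_mod_cast hlk
      linarith
    have n3 : (-1 : ℝ) ^ k ≠ 0 := pow_ne_zero _ (by norm_num)
    exact (mul_ne_zero (mul_ne_zero (mul_ne_zero n3 (by linarith)) n1) n2) e5.symm
  · ext n
    rw [Polynomial.coeff_C_mul, Polynomial.coeff_X_pow]
    rcases lt_trichotomy n (2 * k + 1) with h | h | h
    · rw [if_neg (by omega), mul_zero]
      have := (X_pow_dvd_iff.mp hdvd) n h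
      rwa [Polynomial.coeff_coe] at this
    · rw [if_pos h, mul_one, h]
    · rw [if_neg (by omega), mul_zero]
      exact Polynomial.coeff_eq_zero_of_natDegree_lt (lt_of_le_of_lt hdeg h)

end

end Pool.Agent.Shorey
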