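import Pool.Agent.Shorey.Bound

/-!
From polynomials to the normalised equation.
-/

namespace Pool.Agent.Shorey

open Polynomial

lemma geom_le (X e : ℕ) (hX : 2 ≤ X) : ∑ j ∈ Finset.range (e + 1), X ^ j ≤ 2 * X ^ e := by
  induction e with
  | zero => simp
  | succ e ih =>
    rw [Finset.sum_range_succ]
    have h1 : 2 * X ^ e ≤ X ^ (e + 1) := by
      rw [pow_succ', ]
      exact Nat.mul_le_mul_right _ hX
    omega

/-- the shape of the polynomial -/
lemma poly_split (f : ℤ[X]) (u l : ℕ) (hl : 1 ≤ l) (hlu : l ≤ u) (hu : u < f.natDegree)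
    (hsupp : ∀ i, f.coeff i ≠ 0 → i = 0 ∨ i = f.natDegree ∨ (l ≤ i ∧ i ≤ u)) :
    f = C f.leadingCoeff * X ^ f.natDegree +
      X ^ l * (∑ j ∈ Finset.range (u - l + 1), C (f.coeff (l + j)) * X ^ j) + C (f.coeff 0) := by
  ext i
  rw [coeff_add, coeff_add, coeff_C_mul, coeff_X_pow, coeff_X_pow_mul', finsetSum_coeff, coeff_C]
  simp only [coeff_C_mul, coeff_X_pow]
  by_cases h0 : i = 0
  · rw [if_neg (by omega), if_neg (by omega), if_pos h0, h0]; ring
  by_cases hN : i = f.natDegree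
  · rw [if_pos hN, if_neg h0]
    have h1 : (if l ≤ i then ∑ j ∈ Finset.range (u - l + 1),
        f.coeff (l + j) * (if i - l = j then (1 : ℤ) else 0) else 0) = 0 := by
      rw [if_pos (by omega)]
      apply Finset.sum_eq_zero
      intro j hj
      rw [Finset.mem_range] at hj
      rw [if_neg (by omega), mul_zero]
    rw [h1, hN, leadingCoeff]; ring
  · rw [if_neg hN, if_neg h0, mul_zero, zero_add, add_zero]
    by_cases hw : l ≤ i ∧ i ≤ u
    · rw [if_pos hw.1, Finset.sum_eq_single (i - l)]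
      · rw [if_pos rfl, mul_one]; congr 1; omega
      · intro j _ hj
        rw [if_neg (Ne.symm hj), mul_zero]
      · intro hj
        exact absurd (Finset.mem_range.mpr (by omega)) hj
    · have h1 : f.coeff i = 0 := by
        by_contra hne
        rcases hsupp i hne with h | h | h
        · exact h0 h
        · exact hN h
        · exact hw h
      rw [h1]
      split_ifs with h2
      · symm
        apply Finset.sum_eq_zero
        intro j hj
        rw [Finset.mem_range] at hj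
        rw [if_neg (by omega), mul_zero]
      · rfl

lemma poly_eval (f : ℤ[X]) (u l : ℕ) (hl : 1 ≤ l) (hlu : l ≤ u) (hu : u < f.natDegree)
    (hsupp : ∀ i, f.coeff i ≠ 0 → i = 0 ∨ i = f.natDegree ∨ (l ≤ i ∧ i ≤ u)) (x : ℤ) :
    f.eval x = f.leadingCoeff * x ^ f.natDegree +
      x ^ l * (∑ j ∈ Finset.range (u - l + 1), f.coeff (l + j) * x ^ j) + f.coeff 0 := by
  conv_lhs => rw [poly_split f u l hl hlu hu hsupp]
  simp [eval_finsetSum]

lemma r_bound (H e : ℕ) (c : ℕ → ℤ) (hc : ∀ i, |c i| ≤ H) (x : ℤ) (hx : 2 ≤ x.natAbs) :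
    (∑ j ∈ Finset.range (e + 1), c j * x ^ j).natAbs ≤ 2 * H * x.natAbs ^ e := by
  calc (∑ j ∈ Finset.range (e + 1), c j * x ^ j).natAbs
      ≤ ∑ j ∈ Finset.range (e + 1), (c j * x ^ j).natAbs := Int.natAbs_sum_le _ _
    _ ≤ ∑ j ∈ Finset.range (e + 1), H * x.natAbs ^ j := by
        apply Finset.sum_le_sum
        intro j _
        rw [Int.natAbs_mul, Int.natAbs_pow]
        apply Nat.mul_le_mul_right
        have := hc j
        rw [Int.abs_eq_natAbs] at this
        exact_mod_cast this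
    _ = H * ∑ j ∈ Finset.range (e + 1), x.natAbs ^ j := by rw [Finset.mul_sum]
    _ ≤ H * (2 * x.natAbs ^ e) := Nat.mul_le_mul_left _ (geom_le _ _ hx)
    _ = 2 * H * x.natAbs ^ e := by ring

/-- the general theorem -/
theorem general_big (H κ : ℕ) : ∃ C : ℕ, ∀ (f : ℤ[X]) (u l : ℕ),
    (∀ i, |f.coeff i| ≤ H) → (f.leadingCoeff = 1 ∨ f.leadingCoeff = -1) →
    (f.coeff 0 = 1 ∨ f.coeff 0 = -1) → 1 ≤ l → l ≤ u → u < f.natDegree →
    (∀ i, f.coeff i ≠ 0 → i = 0 ∨ i = f.natDegree ∨ (l ≤ i ∧ i ≤ u)) →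
    (κ + 1) * (f.natDegree - l) ≤ 2 * κ * (f.natDegree - u) →
    ∀ (m g : ℕ) (x y : ℤ), 1 ≤ m → 2 ≤ x.natAbs → 1 < |y| → y ^ m = f.eval x → g ∣ m →
      g ∣ f.natDegree → (Odd g ∨ f.coeff 0 = 1) → g ≤ C := by
  rcases Nat.eq_zero_or_pos H with hH | hH
  · refine ⟨0, ?_⟩
    intro f u l hc hlc
    exfalso
    have h1 := hc f.natDegree
    rw [hH, coeff_natDegree] at h1
    rcases hlc with h | h <;> rw [h] at h1 <;> norm_num at h1
  obtain ⟨B, hB⟩ := exists_bound (2 * H) κ (by omega)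
  refine ⟨B, ?_⟩
  intro f u l hc hlc hc0 hl hlu hu hsupp hκ m g x y hm hx hy heq hgm hgN hodd
  have hy2 : 2 ≤ y.natAbs := by
    rw [Int.abs_eq_natAbs] at hy
    exact_mod_cast hy
  apply hB
  intro q a hq ha hqa
  set N := f.natDegree with hN
  set c0 := f.coeff 0 with hc0def
  have hqm : q ^ a ∣ m := hqa.trans hgm
  have hqN : q ^ a ∣ N := hqa.trans hgN
  have hc2 : c0 * c0 = 1 := by
    rcases hc0 with h | h <;> rw [h] <;> norm_num
  have hcpow : c0 ^ (q ^ a) = c0 := by
    rcases hc0 with h | h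
    · rw [h, one_pow]
    · have ho : Odd (q ^ a) := by
        rcases hodd with h2 | h2
        · exact h2.of_dvd_nat hqa
        · rw [h] at h2; norm_num at h2
      rw [h, ho.neg_one_pow]
  have hD2 : N - l < 2 * (N - u) := by
    by_contra hcon
    push Not at hcon
    have h1 : 2 * κ * (N - u) ≤ κ * (N - l) := by
      calc 2 * κ * (N - u) = κ * (2 * (N - u)) := by ring
        _ ≤ κ * (N - l) := Nat.mul_le_mul_left _ hcon
    have h2 : (κ + 1) * (N - l) = κ * (N - l) + (N - l) := by ring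
    omega
  refine ⟨x, c0 * y ^ (m / q ^ a), c0 * f.leadingCoeff,
    c0 * ∑ j ∈ Finset.range (u - l + 1), f.coeff (l + j) * x ^ j, N / q ^ a, N - l, u - l,
    N - u, 2 * (N - u) - (N - l), l, ?_, ?_⟩
  · refine ⟨hq, ha, ?_, hx, ?_, ?_, hl, ?_, by omega, by omega, by omega, ?_⟩
    · rcases hc0 with h | h <;> rcases hlc with h2 | h2 <;> rw [h, h2] <;> norm_num
    · rw [Int.natAbs_mul, Int.natAbs_pow]
      have h1 : c0.natAbs = 1 := by
        rcases hc0 with h | h <;> rw [h] <;> rfl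
      rw [h1, one_mul]
      have h2 : 0 < m / q ^ a := Nat.div_pos (Nat.le_of_dvd hm hqm) (pow_pos hq.pos a)
      exact hy2.trans (Nat.le_self_pow h2.ne' _)
    · rw [Nat.mul_div_cancel' hqN]; omega
    · rw [Int.natAbs_mul]
      have h1 : c0.natAbs = 1 := by
        rcases hc0 with h | h <;> rw [h] <;> rfl
      rw [h1, one_mul]
      exact r_bound H (u - l) (fun j => f.coeff (l + j)) (fun i => hc _) x hx
    · have h1 := poly_eval f u l hl hlu hu hsupp x
      rw [← hN] at h1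
      have h2 : x ^ N = x ^ l * x ^ (N - l) := by rw [← pow_add]; congr 1; omega
      rw [mul_pow, ← pow_mul, Nat.div_mul_cancel hqm, heq, h1, hcpow, h2]
      linear_combination hc2
  · have h1 : κ * (2 * (N - u) - (N - l)) + κ * (N - l) = 2 * κ * (N - u) := by
      rw [← mul_add, Nat.sub_add_cancel hD2.le]; ring
    have h2 : (κ + 1) * (N - l) = κ * (N - l) + (N - l) := by ring
    omega

end Pool.Agent.Shorey
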