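import Pool.Agent.Shorey.Sol2

/-!
Polynomials with a top cluster and arbitrary lower terms.
-/

namespace Pool.Agent.Shorey

open Polynomial

/-- the shape of the polynomial -/
lemma poly_split2 (f : ℤ[X]) (u l v : ℕ) (hvl : v < l) (hlu : l ≤ u) (hu : u < f.natDegree)
    (hsupp : ∀ i, f.coeff i ≠ 0 → i = f.natDegree ∨ (l ≤ i ∧ i ≤ u) ∨ i ≤ v) :
    f = C f.leadingCoeff * X ^ f.natDegree +
      X ^ l * (∑ j ∈ Finset.range (u - l + 1), C (f.coeff (l + j)) * X ^ j) +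
      ∑ i ∈ Finset.range (v + 1), C (f.coeff i) * X ^ i := by
  ext i
  rw [coeff_add, coeff_add, coeff_C_mul, coeff_X_pow, coeff_X_pow_mul', finsetSum_coeff,
    finsetSum_coeff]
  simp only [coeff_C_mul, coeff_X_pow]
  have hlow : ∀ i, v < i → ∑ j ∈ Finset.range (v + 1),
      f.coeff j * (if i = j then (1 : ℤ) else 0) = 0 := by
    intro i hi
    apply Finset.sum_eq_zero
    intro j hj
    rw [Finset.mem_range] at hj
    rw [if_neg (by omega), mul_zero]
  by_cases h0 : i ≤ v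
  · rw [if_neg (by omega), if_neg (by omega), Finset.sum_eq_single i]
    · rw [if_pos rfl]; ring
    · intro j _ hj
      rw [if_neg (Ne.symm hj), mul_zero]
    · intro hj
      exact absurd (Finset.mem_range.mpr (by omega)) hj
  rw [hlow i (by omega)]
  by_cases hN : i = f.natDegree
  · rw [if_pos hN]
    have h1 : (if l ≤ i then ∑ j ∈ Finset.range (u - l + 1),
        f.coeff (l + j) * (if i - l = j then (1 : ℤ) else 0) else 0) = 0 := by
      rw [if_pos (by omega)]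
      apply Finset.sum_eq_zero
      intro j hj
      rw [Finset.mem_range] at hj
      rw [if_neg (by omega), mul_zero]
    rw [h1, hN, leadingCoeff]; ring
  · rw [if_neg hN, mul_zero, zero_add, add_zero]
    by_cases hw : l ≤ i ∧ i ≤ u
    · rw [if_pos hw.1, Finset.sum_eq_single (i - l)]
      · rw [if_pos rfl, mul_one]; congr 1; omega
      · intro j _ hj
        rw [if_neg (Ne.symm hj), mul_zero]
      · intro hj
        exact absurd (Finset.mem_range.mpr (by omega)) hj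
    · have h1 : f.coeff i = 0 := by
        by_contra hne
        rcases hsupp i hne with h | h | h
        · exact hN h
        · exact hw h
        · exact h0 h
      rw [h1]
      split_ifs with h2
      · symm
        apply Finset.sum_eq_zero
        intro j hj
        rw [Finset.mem_range] at hj
        rw [if_neg (by omega), mul_zero]
      · rfl

lemma poly_eval2 (f : ℤ[X]) (u l v : ℕ) (hvl : v < l) (hlu : l ≤ u) (hu : u < f.natDegree)
    (hsupp : ∀ i, f.coeff i ≠ 0 → i = f.natDegree ∨ (l ≤ i ∧ i ≤ u) ∨ i ≤ v) (x : ℤ) :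
    f.eval x = f.leadingCoeff * x ^ f.natDegree +
      x ^ l * (∑ j ∈ Finset.range (u - l + 1), f.coeff (l + j) * x ^ j) +
      ∑ i ∈ Finset.range (v + 1), f.coeff i * x ^ i := by
  conv_lhs => rw [poly_split2 f u l v hvl hlu hu hsupp]
  simp [eval_finsetSum]

/-- the two conditions on the window -/
lemma window (κ N u l : ℕ) (hu : u < N) (hlu : l ≤ u)
    (hκ : (κ + 1) * (N - l) ≤ 2 * κ * (N - u)) :
    N - l < 2 * (N - u) ∧ N - l ≤ κ * (2 * (N - u) - (N - l)) := by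
  have hD2 : N - l < 2 * (N - u) := by
    by_contra hcon
    push Not at hcon
    have h1 : 2 * κ * (N - u) ≤ κ * (N - l) := by
      calc 2 * κ * (N - u) = κ * (2 * (N - u)) := by ring
        _ ≤ κ * (N - l) := Nat.mul_le_mul_left _ hcon
    have h2 : (κ + 1) * (N - l) = κ * (N - l) + (N - l) := by ring
    omega
  refine ⟨hD2, ?_⟩
  have h1 : κ * (2 * (N - u) - (N - l)) + κ * (N - l) = 2 * κ * (N - u) := by
    rw [← mul_add, Nat.sub_add_cancel hD2.le]; ring
  have h2 : (κ + 1) * (N - l) = κ * (N - l) + (N - l) := by ring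
  omega

/-- the constant -/
def EE (H κ s : ℕ) : ℕ := (64 * H + 1) + (s + 1 + 2 * (64 * H + 1)) * (1 + κ) + 1

/-- building a solution from a value -/
lemma mk_sol2 (H κ s : ℕ) (f : ℤ[X]) (u l v : ℕ) (hc : ∀ i, |f.coeff i| ≤ H)
    (hlc : f.leadingCoeff = 1 ∨ f.leadingCoeff = -1) (hvl : v < l) (hlu : l ≤ u)
    (hu : u < f.natDegree)
    (hsupp : ∀ i, f.coeff i ≠ 0 → i = f.natDegree ∨ (l ≤ i ∧ i ≤ u) ∨ i ≤ v)
    (hκ : (κ + 1) * (f.natDegree - l) ≤ 2 * κ * (f.natDegree - u)) (hs : 1 ≤ s)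
    (m q a : ℕ) (x y : ℤ) (hq : q.Prime) (ha : 1 ≤ a) (hm : q ^ a ∣ m) (hN : q ^ a ∣ f.natDegree)
    (hv : EE H κ s * f.natDegree ≤ q ^ a * (f.natDegree - v)) (hx : 2 ≤ x.natAbs)
    (heq : y ^ m = f.eval x) (hne : y ^ m ≠ f.leadingCoeff * x ^ f.natDegree)
    (hX : 16 * (2 * H) ≤ x.natAbs ^ (f.natDegree - u)) :
    Sol2 q a x (y ^ (m / q ^ a)) f.leadingCoeff
      (∑ j ∈ Finset.range (u - l + 1), f.coeff (l + j) * x ^ j)
      (∑ i ∈ Finset.range (v + 1), f.coeff i * x ^ i) (f.natDegree / q ^ a) (f.natDegree - l)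
      (u - l) (f.natDegree - u) (2 * (f.natDegree - u) - (f.natDegree - l)) l v (2 * H) (2 * H)
      (64 * H) ∧
    EE H κ s * (f.natDegree / q ^ a) + v ≤ q ^ a * (f.natDegree / q ^ a) := by
  obtain ⟨hw1, hw2⟩ := window κ f.natDegree u l hu hlu hκ
  have hH : 1 ≤ H := by
    by_contra hcon
    have h0 : H = 0 := by omega
    have h1 := hc f.natDegree
    rw [h0, coeff_natDegree] at h1
    rcases hlc with h | h <;> rw [h] at h1 <;> norm_num at h1
  set N := f.natDegree with hNdef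
  have hg0 : 0 < q ^ a := pow_pos hq.pos a
  have hgK : q ^ a * (N / q ^ a) = N := Nat.mul_div_cancel' hN
  have hK : 1 ≤ N / q ^ a := by
    rcases Nat.eq_zero_or_pos (N / q ^ a) with h | h
    · rw [h, mul_zero] at hgK; omega
    · exact h
  have hEK : EE H κ s * (N / q ^ a) ≤ N - v := by
    have h1 : q ^ a * (EE H κ s * (N / q ^ a)) ≤ q ^ a * (N - v) := by
      calc q ^ a * (EE H κ s * (N / q ^ a)) = EE H κ s * (q ^ a * (N / q ^ a)) := by ring
        _ = EE H κ s * N := by rw [hgK]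
        _ ≤ q ^ a * (N - v) := hv
    exact Nat.le_of_mul_le_mul_left h1 hg0
  have hEv : EE H κ s * (N / q ^ a) + v ≤ q ^ a * (N / q ^ a) := by
    rw [hgK]; omega
  refine ⟨?_, hEv⟩
  refine ⟨hq, ha, hlc, hx, hK, by omega, ?_, ?_, ?_, by omega, by omega, by omega, ?_, ?_, ?_, ?_,
    hX⟩
  · rw [hgK]; omega
  · exact r_bound H (u - l) (fun j => f.coeff (l + j)) (fun i => hc _) x hx
  · exact r_bound H v (fun j => f.coeff j) hc x hx
  · have : 64 * H < 2 ^ (64 * H) := Nat.lt_two_pow_self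
    omega
  · refine le_trans ?_ hEv
    have h1 : 64 * H + 2 ≤ EE H κ s := by
      rw [EE]; omega
    have := Nat.mul_le_mul_right (N / q ^ a) h1
    omega
  · have h1 := poly_eval2 f u l v hvl hlu hu hsupp x
    rw [← hNdef] at h1
    have h2 : x ^ N = x ^ l * x ^ (N - l) := by rw [← pow_add]; congr 1; omega
    rw [← pow_mul, Nat.div_mul_cancel hm, heq, h1, h2]
    ring
  · rw [← pow_mul, Nat.div_mul_cancel hm]
    have : l + (N - l) = N := by omega
    rw [this]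
    exact hne

/-- when the main terms cancel, the rest is too small -/
lemma Sol2.r_ne {q a : ℕ} {x Y ε r ρ : ℤ} {K D e d2 s0 n v R Hc c : ℕ}
    (h : Sol2 q a x Y ε r ρ K D e d2 s0 n v R Hc c) : r ≠ 0 := by
  intro hr
  have hX0 := h.X_pos
  have hg1 : 1 ≤ q ^ a := Nat.one_le_pow _ _ h.hq.pos
  have h1 := nat_gap (x.natAbs ^ K) Y.natAbs (q ^ a) hg1
  have h2 : |((Y.natAbs : ℤ)) ^ (q ^ a) - ((x.natAbs ^ K : ℕ) : ℤ) ^ (q ^ a)| ≤
      ((Hc * x.natAbs ^ v : ℕ) : ℤ) := by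
    have e1 : ((Y.natAbs : ℤ)) ^ (q ^ a) = |Y ^ (q ^ a)| := by
      rw [abs_pow, Int.abs_eq_natAbs]
    have e2 : ((x.natAbs ^ K : ℕ) : ℤ) ^ (q ^ a) = |ε * x ^ (n + D)| := by
      rw [h.main_abs]; push_cast; rw [← pow_mul, mul_comm]
    rw [e1, e2]
    refine (abs_abs_sub_abs_le_abs_sub _ _).trans ?_
    rw [h.eq', add_sub_cancel_left, hr, mul_zero, zero_add, Int.abs_eq_natAbs]
    exact_mod_cast h.hρ
  have h3 : (1 : ℤ) ≤ |(Y.natAbs : ℤ) - (x.natAbs ^ K : ℕ)| := by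
    apply Int.one_le_abs
    intro h3
    apply h.ne
    have : (Y.natAbs : ℤ) = (x.natAbs ^ K : ℕ) := by linarith
    exact_mod_cast this
  have h4 : ((x.natAbs ^ K : ℕ) : ℤ) ^ (q ^ a - 1) ≤ ((Hc * x.natAbs ^ v : ℕ) : ℤ) := by
    have h5 : (0 : ℤ) ≤ ((x.natAbs ^ K : ℕ) : ℤ) ^ (q ^ a - 1) := by positivity
    nlinarith [h1.trans h2]
  have h5 : (x.natAbs ^ K) ^ (q ^ a - 1) ≤ Hc * x.natAbs ^ v := by exact_mod_cast h4
  have h6 : x.natAbs ^ (q ^ a * K) ≤ (Hc * x.natAbs ^ v) * x.natAbs ^ K := by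
    have e1 : x.natAbs ^ (q ^ a * K) = (x.natAbs ^ K) ^ (q ^ a - 1) * x.natAbs ^ K := by
      rw [← pow_succ, ← pow_mul, mul_comm]
      congr 2
      omega
    rw [e1]
    exact Nat.mul_le_mul_right _ h5
  have h7 := h.rho_small
  have h8 : x.natAbs ^ K ≤ x.natAbs ^ (2 * K) := Nat.pow_le_pow_right hX0 (by omega)
  have h9 : 0 < x.natAbs ^ (q ^ a * K) := pow_pos hX0 _
  have h10 : (Hc * x.natAbs ^ v) * x.natAbs ^ K ≤ (Hc * x.natAbs ^ v) * x.natAbs ^ (2 * K) :=
    Nat.mul_le_mul_left _ h8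
  have h11 : 16 * (Hc * x.natAbs ^ v) * x.natAbs ^ (2 * K) =
      16 * ((Hc * x.natAbs ^ v) * x.natAbs ^ (2 * K)) := by ring
  omega

/-- arbitrary lower terms, prime powers -/
theorem general2 (H κ s : ℕ) (hs : 1 ≤ s) : ∃ C : ℕ, 1 ≤ C ∧ ∀ (f : ℤ[X]) (u l v : ℕ),
    (∀ i, |f.coeff i| ≤ H) → (f.leadingCoeff = 1 ∨ f.leadingCoeff = -1) →
    v < l → l ≤ u → u < f.natDegree →
    (∀ i, f.coeff i ≠ 0 → i = f.natDegree ∨ (l ≤ i ∧ i ≤ u) ∨ i ≤ v) →
    (κ + 1) * (f.natDegree - l) ≤ 2 * κ * (f.natDegree - u) →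
    ∀ (m q a : ℕ) (x y : ℤ), q.Prime → 1 ≤ a → q ^ a ∣ m → q ^ a ∣ f.natDegree →
      C * f.natDegree ≤ q ^ a * (f.natDegree - v) → y ^ m = f.eval x →
      q ^ a ≤ C ∨ x.natAbs ^ (s * (2 * (f.natDegree - u) - (f.natDegree - l))) <
        (C * q ^ a) ^ (s + 1) ∨ y ^ m = f.leadingCoeff * x ^ f.natDegree := by
  refine ⟨EE H κ s + 64 * H ^ 2 + 2 * H + 1, by omega, ?_⟩
  intro f u l v hc hlc hvl hlu hu hsupp hκ m q a x y hq ha hm hN hv heq
  by_contra hcon
  push Not at hcon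
  obtain ⟨hgC, hXC, hne⟩ := hcon
  obtain ⟨hw1, hw2⟩ := window κ f.natDegree u l hu hlu hκ
  have hH : 1 ≤ H := by
    by_contra hcon
    have h0 : H = 0 := by omega
    have h1 := hc f.natDegree
    rw [h0, coeff_natDegree] at h1
    rcases hlc with h | h <;> rw [h] at h1 <;> norm_num at h1
  set N := f.natDegree with hNdef
  set C := EE H κ s + 64 * H ^ 2 + 2 * H + 1 with hC
  have hx : 2 ≤ x.natAbs := by
    by_contra hx
    have h1 : x.natAbs ^ (s * (2 * (N - u) - (N - l))) ≤ 1 := pow_le_one₀ (Nat.zero_le _) (by omega)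
    have h2 : 2 ≤ (C * q ^ a) ^ (s + 1) := by
      calc 2 ≤ C * q ^ a := by
            have : 1 * q ^ a ≤ C * q ^ a := Nat.mul_le_mul_right _ (by omega)
            omega
        _ ≤ (C * q ^ a) ^ (s + 1) := Nat.le_self_pow (by omega) _
    omega
  have hL : (16 * q ^ a * (2 * H) ^ 2) ^ (s + 1) ≤
      x.natAbs ^ ((2 * (N - u) - (N - l)) * s) := by
    rw [mul_comm (2 * (N - u) - (N - l)) s]
    refine le_trans (Nat.pow_le_pow_left ?_ _) hXC
    calc 16 * q ^ a * (2 * H) ^ 2 = 64 * H ^ 2 * q ^ a := by ring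
      _ ≤ C * q ^ a := Nat.mul_le_mul_right _ (by omega)
  have hXs : 16 * q ^ a * (2 * H) ^ 2 ≤ x.natAbs ^ (2 * (N - u) - (N - l)) := by
    have h1 : (16 * q ^ a * (2 * H) ^ 2) ^ s ≤ (x.natAbs ^ (2 * (N - u) - (N - l))) ^ s := by
      rw [← pow_mul]
      refine le_trans (Nat.pow_le_pow_right ?_ (by omega)) hL
      have : 0 < q ^ a := by omega
      exact Nat.one_le_iff_ne_zero.mpr (by positivity)
    exact (Nat.pow_le_pow_iff_left (by omega)).mp h1
  have hX : 16 * (2 * H) ≤ x.natAbs ^ (N - u) := by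
    calc 16 * (2 * H) = 16 * 1 * (2 * H * 1) := by ring
      _ ≤ 16 * q ^ a * (2 * H * (2 * H)) := by
          apply Nat.mul_le_mul
          · exact Nat.mul_le_mul_left _ (by omega)
          · exact Nat.mul_le_mul_left _ (by omega)
      _ = 16 * q ^ a * (2 * H) ^ 2 := by ring
      _ ≤ x.natAbs ^ (2 * (N - u) - (N - l)) := hXs
      _ ≤ x.natAbs ^ (N - u) := Nat.pow_le_pow_right (by omega) (by omega)
  have hv' : EE H κ s * N ≤ q ^ a * (N - v) := by
    refine le_trans (Nat.mul_le_mul_right _ ?_) hv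
    omega
  obtain ⟨hsol, hE⟩ := mk_sol2 H κ s f u l v hc hlc hvl hlu hu hsupp hκ hs m q a x y hq ha hm hN hv'
    hx heq hne hX
  exact hsol.kill κ s hw2 hs hsol.r_ne hL hE (by omega)

end Pool.Agent.Shorey
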