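import Pool.Agent.Shorey.Poly2

/-!
Consequences of the theorem with lower terms.
-/

namespace Pool.Agent.Shorey

open Polynomial

/-- the order argument -/
lemma order_large (q a p : ℕ) (Y : ℤ) (hq : q.Prime) (ha : 1 ≤ a) (hp : p.Prime)
    (h1 : (p : ℤ) ∣ Y ^ (q ^ a) - 1) (h2 : ¬ (p : ℤ) ∣ Y ^ (q ^ (a - 1)) - 1) : q ^ a + 1 ≤ p := by
  have := Fact.mk hp
  have := Fact.mk hq
  have ha' : a - 1 + 1 = a := by omega
  have e1 : ((Y : ZMod p)) ^ (q ^ (a - 1 + 1)) = 1 := by
    rw [← ZMod.intCast_zmod_eq_zero_iff_dvd] at h1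
    push_cast at h1
    rw [ha']
    exact sub_eq_zero.mp h1
  have e2 : ¬ ((Y : ZMod p)) ^ (q ^ (a - 1)) = 1 := by
    intro h3
    apply h2
    rw [← ZMod.intCast_zmod_eq_zero_iff_dvd]
    push_cast
    rw [h3, sub_self]
  have e3 := orderOf_eq_prime_pow e2 e1
  have hY0 : (Y : ZMod p) ≠ 0 := by
    intro h0
    rw [h0, zero_pow (pow_pos hq.pos _).ne'] at e1
    exact zero_ne_one e1
  have e4 := ZMod.orderOf_dvd_card_sub_one hY0
  rw [e3, ha'] at e4
  have hp2 := hp.two_le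
  have h5 := Nat.le_of_dvd (by omega) e4
  omega

lemma pow_aux3 (Q B X N q : ℕ) :
    (Q ^ q * (B * X ^ N)) ^ 6 = (Q ^ 6) ^ q * B ^ 6 * X ^ (6 * N) := by ring

/-- the size of `x`, constant term one -/
lemma arith_one (q a w N B : ℕ) (x Y G : ℤ) (hq : q.Prime) (ha : 1 ≤ a) (h2 : q = 2 → 2 ≤ a)
    (hx : 2 ≤ x.natAbs) (hY : 2 ≤ Y.natAbs) (hw : 1 ≤ w) (hwN : 2 * N ≤ 3 * w) (hgN : q ^ a ≤ N)
    (heq : Y ^ (q ^ a) = x ^ w * G + 1) (hB : Y.natAbs ^ (q ^ a) ≤ B * x.natAbs ^ N)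
    (hbig : (2 * q ^ a * B) ^ 6 < 2 ^ (q ^ a)) : q ^ a + 1 ≤ x.natAbs := by
  have ha' : a - 1 + 1 = a := by omega
  have hfac : (Y ^ (q ^ (a - 1)) - 1) * ∑ i ∈ Finset.range q, (Y ^ (q ^ (a - 1))) ^ i =
      x ^ w * G := by
    rw [mul_geom_sum, ← pow_mul, ← pow_succ, ha', heq]; ring
  obtain ⟨p, hp, hpx, hpW⟩ : ∃ p : ℕ, p.Prime ∧ (p : ℤ) ∣ x ∧
      ¬ (p : ℤ) ∣ Y ^ (q ^ (a - 1)) - 1 := by
    by_contra hcon
    push Not at hcon
    set W := Y ^ (q ^ (a - 1)) with hW
    have hdvd : x.natAbs ^ w ∣ (q * (W - 1)).natAbs := by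
      rw [Nat.dvd_iff_prime_pow_dvd_dvd]
      intro p k hp hpk
      rcases Nat.eq_zero_or_pos k with hk | hk
      · rw [hk, pow_zero]; exact one_dvd _
      · have hpx : (p : ℤ) ∣ x := by
          rw [Int.natCast_dvd]
          exact hp.dvd_of_dvd_pow ((dvd_pow_self p (by omega)).trans hpk)
        have h3 := part_dvd q a hq h2 Y p k hp (hcon p hp hpx) (by
          rw [hfac]
          apply Dvd.dvd.mul_right
          have h4 : ((p ^ k : ℕ) : ℤ) ∣ x ^ w := by
            rw [Int.natCast_dvd, Int.natAbs_pow]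
            exact hpk
          exact_mod_cast h4)
        have h5 : ((p ^ k : ℕ) : ℤ) ∣ q * (W - 1) := by exact_mod_cast h3
        rwa [Int.natCast_dvd] at h5
    have hW2 : 2 ≤ W.natAbs := by
      rw [hW, Int.natAbs_pow]
      exact hY.trans (Nat.le_self_pow (pow_pos hq.pos _).ne' _)
    have hW1 : W - 1 ≠ 0 := by
      intro h0
      have : W = 1 := by linarith
      rw [this] at hW2
      simp at hW2
    have hqpos := hq.pos
    have hne : (q * (W - 1)).natAbs ≠ 0 := by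
      rw [Int.natAbs_ne_zero]
      exact mul_ne_zero (by exact_mod_cast hqpos.ne') hW1
    have hle := Nat.le_of_dvd (Nat.pos_of_ne_zero hne) hdvd
    have hle2 : x.natAbs ^ w ≤ 2 * q * W.natAbs := by
      refine hle.trans ?_
      rw [Int.natAbs_mul, Int.natAbs_natCast]
      have h3 : (W - 1).natAbs ≤ W.natAbs + 1 := by
        have := Int.natAbs_sub_le W 1
        simpa using this
      calc q * (W - 1).natAbs ≤ q * (2 * W.natAbs) := Nat.mul_le_mul_left _ (by omega)
        _ = 2 * q * W.natAbs := by ring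
    have hWq : W.natAbs ^ q ≤ B * x.natAbs ^ N := by
      rw [hW, Int.natAbs_pow, ← pow_mul, ← pow_succ, ha']
      exact hB
    set X := x.natAbs with hXdef
    have hX1 : 1 ≤ X := by omega
    have h3 : X ^ (w * q) ≤ (2 * q) ^ q * (B * X ^ N) := by
      calc X ^ (w * q) = (X ^ w) ^ q := pow_mul _ _ _
        _ ≤ (2 * q * W.natAbs) ^ q := Nat.pow_le_pow_left hle2 q
        _ = (2 * q) ^ q * W.natAbs ^ q := mul_pow _ _ _
        _ ≤ (2 * q) ^ q * (B * X ^ N) := Nat.mul_le_mul_left _ hWq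
    have h4 : X ^ (4 * N * q) ≤ ((2 * q) ^ 6) ^ q * B ^ 6 * X ^ (6 * N) := by
      calc X ^ (4 * N * q) ≤ X ^ (6 * (w * q)) := by
            apply Nat.pow_le_pow_right hX1
            calc 4 * N * q = 2 * (2 * N) * q := by ring
              _ ≤ 2 * (3 * w) * q := Nat.mul_le_mul_right _ (Nat.mul_le_mul_left _ hwN)
              _ = 6 * (w * q) := by ring
        _ = (X ^ (w * q)) ^ 6 := by rw [← pow_mul, mul_comm]
        _ ≤ ((2 * q) ^ q * (B * X ^ N)) ^ 6 := Nat.pow_le_pow_left h3 6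
        _ = ((2 * q) ^ 6) ^ q * B ^ 6 * X ^ (6 * N) := pow_aux3 _ _ _ _ _
    have h5 : X ^ (3 * N * q) * X ^ (N * q) ≤
        X ^ (3 * N * q) * ((2 * q * B) ^ 6) ^ q := by
      calc X ^ (3 * N * q) * X ^ (N * q) = X ^ (4 * N * q) := by
            rw [← pow_add]; congr 1; ring
        _ ≤ ((2 * q) ^ 6) ^ q * B ^ 6 * X ^ (6 * N) := h4
        _ ≤ ((2 * q) ^ 6) ^ q * (B ^ 6) ^ q * X ^ (3 * N * q) := by
            apply Nat.mul_le_mul
            · apply Nat.mul_le_mul_left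
              exact Nat.le_self_pow (by omega) _
            · apply Nat.pow_le_pow_right hX1
              calc 6 * N = 3 * N * 2 := by ring
                _ ≤ 3 * N * q := Nat.mul_le_mul_left _ hq.two_le
        _ = X ^ (3 * N * q) * ((2 * q * B) ^ 6) ^ q := by
            rw [mul_pow (2 * q) B, mul_pow ((2 * q) ^ 6)]; ring
    have h6 := Nat.le_of_mul_le_mul_left h5 (by positivity)
    rw [pow_mul] at h6
    have h7 := (Nat.pow_le_pow_iff_left (by omega)).mp h6
    have h8 : 2 ^ (q ^ a) ≤ X ^ N := by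
      calc 2 ^ (q ^ a) ≤ 2 ^ N := Nat.pow_le_pow_right (by norm_num) hgN
        _ ≤ X ^ N := Nat.pow_le_pow_left hx N
    have h9 : (2 * q * B) ^ 6 ≤ (2 * q ^ a * B) ^ 6 := by
      apply Nat.pow_le_pow_left
      apply Nat.mul_le_mul_right
      apply Nat.mul_le_mul_left
      exact Nat.le_self_pow (by omega) q
    omega
  have h1 : (p : ℤ) ∣ Y ^ (q ^ a) - 1 := by
    rw [heq, add_sub_cancel_right]
    exact (hpx.trans (dvd_pow_self x (by omega))).mul_right _
  refine (order_large q a p Y hq ha hp h1 hpW).trans ?_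
  rw [Int.natCast_dvd] at hpx
  exact Nat.le_of_dvd (by omega) hpx

/-- the size of `x`, constant term minus one, powers of two -/
lemma arith_neg (a w : ℕ) (x Y G : ℤ) (ha : 1 ≤ a) (hx : 2 ≤ x.natAbs) (hw : 2 ≤ w)
    (heq : Y ^ (2 ^ a) = x ^ w * G - 1) : 2 ^ a + 1 ≤ x.natAbs := by
  obtain ⟨p, hp, hpd⟩ := Nat.exists_prime_and_dvd (show x.natAbs ≠ 1 by omega)
  have hpx : (p : ℤ) ∣ x := by rwa [Int.natCast_dvd]
  have hpY : (p : ℤ) ∣ Y ^ (2 ^ a) + 1 := by
    rw [heq, sub_add_cancel]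
    exact (hpx.trans (dvd_pow_self x (by omega))).mul_right _
  have hp2 : p ≠ 2 := by
    rintro rfl
    have h1 : (4 : ℤ) ∣ Y ^ (2 ^ a) + 1 := by
      rw [heq, sub_add_cancel]
      have h2 : (2 : ℤ) ^ 2 ∣ x ^ w := by
        exact (pow_dvd_pow_of_dvd (by exact_mod_cast hpx) 2).trans (pow_dvd_pow x hw)
      exact Dvd.dvd.mul_right (by simpa using h2) _
    have e1 : Y ^ (2 ^ a) = (Y ^ (2 ^ (a - 1))) ^ 2 := by
      rw [← pow_mul, ← pow_succ]; congr 2; omega
    rw [e1] at h1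
    set Z := Y ^ (2 ^ (a - 1))
    have h4 : (Z ^ 2 + 1) % 4 = 0 := by omega
    have h3 : Z % 4 = 0 ∨ Z % 4 = 1 ∨ Z % 4 = 2 ∨ Z % 4 = 3 := by omega
    rcases h3 with h3 | h3 | h3 | h3 <;> (rw [sq, Int.add_emod, Int.mul_emod, h3] at h4; omega)
  have h1 : (p : ℤ) ∣ Y ^ (2 ^ (a + 1)) - 1 := by
    have : Y ^ (2 ^ (a + 1)) - 1 = (Y ^ (2 ^ a) + 1) * (Y ^ (2 ^ a) - 1) := by
      rw [pow_succ 2 a, pow_mul]; ring
    rw [this]
    exact hpY.mul_right _
  have h2 : ¬ (p : ℤ) ∣ Y ^ (2 ^ (a + 1 - 1)) - 1 := by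
    rw [Nat.add_sub_cancel]
    intro h3
    have h4 := dvd_sub hpY h3
    have h5 : Y ^ (2 ^ a) + 1 - (Y ^ (2 ^ a) - 1) = 2 := by ring
    rw [h5] at h4
    have h6 : p ∣ 2 := by exact_mod_cast h4
    exact hp2 ((Nat.prime_dvd_prime_iff_eq hp Nat.prime_two).mp h6)
  have h3 := order_large 2 (a + 1) p Y Nat.prime_two (by omega) hp h1 h2
  have h4 : 2 ^ (a + 1) = 2 * 2 ^ a := by rw [pow_succ]; ring
  have h5 := Nat.le_of_dvd (by omega) hpd
  omega

/-- the lower part of a polynomial -/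
lemma low_part (f : ℤ[X]) (w : ℕ) (h : ∀ i, f.coeff i ≠ 0 → i = 0 ∨ w ≤ i) (x : ℤ) :
    ∃ G : ℤ, f.eval x = x ^ w * G + f.coeff 0 := by
  have h1 : X ^ w ∣ f - C (f.coeff 0) := by
    rw [X_pow_dvd_iff]
    intro d hd
    rw [coeff_sub, coeff_C]
    by_cases h0 : d = 0
    · rw [if_pos h0, h0, sub_self]
    · rw [if_neg h0, sub_zero]
      by_contra hne
      rcases h d hne with h2 | h2 <;> omega
  obtain ⟨g, hg⟩ := h1
  refine ⟨g.eval x, ?_⟩
  have h2 := congrArg (eval x) hg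
  simp only [eval_sub, eval_C, eval_mul, eval_pow, eval_X] at h2
  linarith

/-- the values at small arguments -/
lemma small_arg (H : ℕ) (f : ℤ[X]) (hc : ∀ i, |f.coeff i| ≤ H) (m : ℕ) (x y : ℤ)
    (hx : x.natAbs < 2) (hy : 1 < |y|) (heq : y ^ m = f.eval x) :
    m ≤ Nat.log 2 (H * f.support.card) := by
  have hy2 : 2 ≤ y.natAbs := by
    rw [Int.abs_eq_natAbs] at hy
    exact_mod_cast hy
  apply Nat.le_log_of_pow_le (by norm_num)
  have h1 : (y ^ m).natAbs ≤ H * f.support.card := by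
    rw [heq, eval_eq_sum, sum_def]
    calc (∑ i ∈ f.support, f.coeff i * x ^ i).natAbs
        ≤ ∑ i ∈ f.support, (f.coeff i * x ^ i).natAbs := Int.natAbs_sum_le _ _
      _ ≤ ∑ i ∈ f.support, H := by
          apply Finset.sum_le_sum
          intro i _
          rw [Int.natAbs_mul, Int.natAbs_pow]
          have h2 : (f.coeff i).natAbs ≤ H := by
            have := hc i
            rw [Int.abs_eq_natAbs] at this
            exact_mod_cast this
          have h3 : x.natAbs ^ i ≤ 1 := pow_le_one₀ (Nat.zero_le _) (by omega)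
          calc (f.coeff i).natAbs * x.natAbs ^ i ≤ H * 1 := Nat.mul_le_mul h2 h3
            _ = H := mul_one _
      _ = H * f.support.card := by rw [Finset.sum_const, smul_eq_mul, mul_comm]
  calc 2 ^ m ≤ y.natAbs ^ m := Nat.pow_le_pow_left hy2 m
    _ = (y ^ m).natAbs := (Int.natAbs_pow _ _).symm
    _ ≤ _ := h1

/-- constant term `± 1` and lower terms -/
theorem general3_big (H κ : ℕ) : ∃ C : ℕ, ∀ (f : ℤ[X]) (u l v w : ℕ),
    (∀ i, |f.coeff i| ≤ H) → (f.leadingCoeff = 1 ∨ f.leadingCoeff = -1) →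
    (f.coeff 0 = 1 ∨ f.coeff 0 = -1) → v < l → l ≤ u → u < f.natDegree →
    (∀ i, f.coeff i ≠ 0 → i = f.natDegree ∨ (l ≤ i ∧ i ≤ u) ∨ i ≤ v) →
    (∀ i, f.coeff i ≠ 0 → i = 0 ∨ w ≤ i) → 2 * f.natDegree ≤ 3 * w →
    (κ + 1) * (f.natDegree - l) ≤ 2 * κ * (f.natDegree - u) →
    2 + (f.natDegree - l) ≤ 2 * (f.natDegree - u) →
    ∀ (m q a : ℕ) (x y : ℤ), q.Prime → 1 ≤ a → 1 ≤ m → q ^ a ∣ m → q ^ a ∣ f.natDegree →
      C * f.natDegree ≤ q ^ a * (f.natDegree - v) → 2 ≤ x.natAbs → 1 < |y| →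
      y ^ m = f.eval x → q ^ a ≤ C := by
  obtain ⟨C2, hC2, h2⟩ := general2 H κ 2 (by norm_num)
  have e1 := evt_pow ((2 * (2 * H)) ^ 6) 6
  obtain ⟨B, hB⟩ := Filter.eventually_atTop.mp e1
  refine ⟨C2 + C2 ^ 3 + B + 3, ?_⟩
  intro f u l v w hc hlc hc0 hvl hlu hu hsupp hsupp2 hwN hκ hs0 m q a x y hq ha hm hqm hqN hv hx
    hy heq
  by_contra hgC
  rw [not_le] at hgC
  have hgm := Nat.le_of_dvd hm hqm
  have hy2 : 2 ≤ y.natAbs := by
    rw [Int.abs_eq_natAbs] at hy
    exact_mod_cast hy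
  set N := f.natDegree with hN
  have hNpos : 0 < N := by omega
  have hgN := Nat.le_of_dvd hNpos hqN
  set Y := y ^ (m / q ^ a) with hYdef
  have hYg : Y ^ (q ^ a) = f.eval x := by
    rw [hYdef, ← pow_mul, Nat.div_mul_cancel hqm, heq]
  have hY2 : 2 ≤ Y.natAbs := by
    rw [hYdef, Int.natAbs_pow]
    exact hy2.trans (Nat.le_self_pow (Nat.div_pos hgm (pow_pos hq.pos a)).ne' _)
  obtain ⟨G, hG⟩ := low_part f w hsupp2 x
  have hbound : Y.natAbs ^ (q ^ a) ≤ (2 * H) * x.natAbs ^ N := by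
    rw [← Int.natAbs_pow, hYg, eval_eq_sum_range]
    exact r_bound H N (fun i => f.coeff i) hc x hx
  have hbig : (2 * q ^ a * (2 * H)) ^ 6 < 2 ^ (q ^ a) := by
    calc (2 * q ^ a * (2 * H)) ^ 6 = (2 * (2 * H)) ^ 6 * (q ^ a) ^ 6 := by ring
      _ < 2 ^ (q ^ a) := hB (q ^ a) (by omega)
  have hXg : q ^ a + 1 ≤ x.natAbs := by
    rcases hc0 with h0 | h0
    · apply arith_one q a w N (2 * H) x Y G hq ha _ hx hY2 (by omega) hwN hgN _ hbound hbig
      · intro hq2
        by_contra ha2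
        have : a = 1 := by omega
        rw [this, pow_one] at hgC
        omega
      · rw [hYg, hG, h0]
    · rcases hq.eq_two_or_odd' with hq2 | hodd
      · subst hq2
        apply arith_neg a w x Y G ha hx (by omega)
        rw [hYg, hG, h0]; ring
      · apply arith_one q a w N (2 * H) x (-Y) (-G) hq ha _ hx _ (by omega) hwN hgN _ _ hbig
        · intro hq2
          rw [hq2] at hodd
          exact absurd hodd (by decide)
        · rw [Int.natAbs_neg]; exact hY2
        · rw [(hodd.pow).neg_pow, hYg, hG, h0]; ring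
        · rw [Int.natAbs_neg]; exact hbound
  have hv' : C2 * N ≤ q ^ a * (N - v) :=
    le_trans (Nat.mul_le_mul_right _ (by omega)) hv
  rcases h2 f u l v hc hlc hvl hlu hu hsupp hκ m q a x y hq ha hqm hqN hv' heq with h3 | h3 | h3
  · omega
  · have h4 : (C2 * q ^ a) ^ 3 ≤ x.natAbs ^ (2 * (2 * (N - u) - (N - l))) := by
      calc (C2 * q ^ a) ^ 3 = C2 ^ 3 * (q ^ a) ^ 3 := mul_pow _ _ _
        _ ≤ q ^ a * (q ^ a) ^ 3 := Nat.mul_le_mul_right _ (by omega)
        _ = (q ^ a) ^ 4 := by ring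
        _ ≤ x.natAbs ^ 4 := Nat.pow_le_pow_left (by omega) 4
        _ ≤ x.natAbs ^ (2 * (2 * (N - u) - (N - l))) :=
            Nat.pow_le_pow_right (by omega) (by omega)
    exact absurd h4 (not_le.mpr h3)
  · have h4 : x ∣ f.coeff 0 := by
      have h5 : x ∣ f.eval x - f.coeff 0 := by
        rw [hG, add_sub_cancel_right]
        exact (dvd_pow_self x (by omega)).mul_right _
      have h6 : x ∣ f.eval x := by
        rw [← heq, h3]
        exact (dvd_pow_self x (by omega)).mul_left _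
      have := dvd_sub h6 h5
      rwa [sub_sub_cancel] at this
    have h5 : x.natAbs ∣ (f.coeff 0).natAbs := Int.natAbs_dvd_natAbs.mpr h4
    have h6 : (f.coeff 0).natAbs = 1 := by
      rcases hc0 with h | h <;> rw [h] <;> rfl
    rw [h6] at h5
    have := Nat.le_of_dvd (by norm_num) h5
    omega

/-- arbitrary constant term, general divisor -/
theorem general2' (H κ s : ℕ) (hs : 1 ≤ s) : ∃ C : ℕ, ∀ (f : ℤ[X]) (u l : ℕ),
    (∀ i, |f.coeff i| ≤ H) → (f.leadingCoeff = 1 ∨ f.leadingCoeff = -1) →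
    1 ≤ l → l ≤ u → u < f.natDegree →
    (∀ i, f.coeff i ≠ 0 → i = 0 ∨ i = f.natDegree ∨ (l ≤ i ∧ i ≤ u)) →
    (κ + 1) * (f.natDegree - l) ≤ 2 * κ * (f.natDegree - u) →
    ∀ (m g : ℕ) (x y : ℤ), g ∣ m → g ∣ f.natDegree → y ^ m = f.eval x →
      g ≤ C ∨ x.natAbs ^ (s * (2 * (f.natDegree - u) - (f.natDegree - l))) < (C * g) ^ (s + 1) ∨
        y ^ m = f.leadingCoeff * x ^ f.natDegree := by
  obtain ⟨C2, hC2, h2⟩ := general2 H κ s hs
  refine ⟨C2.factorial, ?_⟩
  intro f u l hc hlc hl hlu hu hsupp hκ m g x y hgm hgN heq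
  by_contra hcon
  push Not at hcon
  obtain ⟨hgC, hX, hne⟩ := hcon
  have hg0 : 0 < g := by omega
  have hfac : C2 ≤ C2.factorial := Nat.self_le_factorial C2
  apply absurd hgC
  rw [not_lt]
  apply Nat.le_of_dvd (Nat.factorial_pos _)
  rw [Nat.dvd_iff_prime_pow_dvd_dvd]
  intro q a hq hqa
  rcases Nat.eq_zero_or_pos a with ha | ha
  · rw [ha, pow_zero]; exact one_dvd _
  · apply Nat.dvd_factorial (pow_pos hq.pos a)
    by_contra hcon
    push Not at hcon
    have hqg : q ^ a ≤ g := Nat.le_of_dvd hg0 hqa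
    rcases h2 f u l 0 hc hlc (by omega) hlu hu (by
      intro i hi
      rcases hsupp i hi with h | h | h
      · exact Or.inr (Or.inr (by omega))
      · exact Or.inl h
      · exact Or.inr (Or.inl h)) hκ m q a x y hq ha (hqa.trans hgm) (hqa.trans hgN) (by
        rw [Nat.sub_zero]
        exact Nat.mul_le_mul_right _ hcon.le) heq with h3 | h3 | h3
    · omega
    · have h4 : (C2 * q ^ a) ^ (s + 1) ≤ (C2.factorial * g) ^ (s + 1) :=
        Nat.pow_le_pow_left (Nat.mul_le_mul hfac hqg) _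
      omega
    · exact hne h3

/-- a bound for prime powers gives a bound -/
lemma le_factorial_of_prime_pow (g C : ℕ) (hg : 0 < g)
    (h : ∀ q a : ℕ, q.Prime → 1 ≤ a → q ^ a ∣ g → q ^ a ≤ C) : g ≤ C.factorial := by
  apply Nat.le_of_dvd (Nat.factorial_pos _)
  rw [Nat.dvd_iff_prime_pow_dvd_dvd]
  intro q a hq hqa
  rcases Nat.eq_zero_or_pos a with ha | ha
  · rw [ha, pow_zero]; exact one_dvd _
  · exact Nat.dvd_factorial (pow_pos hq.pos a) (h q a hq ha hqa)

/-- the theorem for a window and constant term `± 1` -/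
theorem generalA (H κ : ℕ) : ∃ C : ℕ, ∀ (f : ℤ[X]) (u l : ℕ),
    (∀ i, |f.coeff i| ≤ H) → (f.leadingCoeff = 1 ∨ f.leadingCoeff = -1) →
    (f.coeff 0 = 1 ∨ f.coeff 0 = -1) → 1 ≤ l → l ≤ u → u < f.natDegree →
    (∀ i, f.coeff i ≠ 0 → i = 0 ∨ i = f.natDegree ∨ (l ≤ i ∧ i ≤ u)) →
    (κ + 1) * (f.natDegree - l) ≤ 2 * κ * (f.natDegree - u) →
    ∀ (m g : ℕ) (x y : ℤ), 1 ≤ m → 1 < |y| → y ^ m = f.eval x → g ∣ m → g ∣ f.natDegree →
      (Odd g ∨ f.coeff 0 = 1 ∨ 2 + (f.natDegree - l) ≤ 2 * (f.natDegree - u)) →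
      g ≤ max C (Nat.log 2 (H * f.support.card)) := by
  obtain ⟨C1, h1⟩ := general_big H κ
  obtain ⟨C2, hC2, h2⟩ := general2 H κ 1 le_rfl
  obtain ⟨C3, h3⟩ := general3_big H κ
  have e1 := evt_pow (C2 ^ (6 * κ)) (12 * κ + 1)
  obtain ⟨B, hB⟩ := Filter.eventually_atTop.mp e1
  set C := C1 + C2 + C3 + B + (C2 + 2) ^ (6 * κ) with hC
  refine ⟨C.factorial, ?_⟩
  intro f u l hc hlc hc0 hl hlu hu hsupp hκ m g x y hm hy heq hgm hgN hodd
  have hgpos : 0 < g := Nat.pos_of_dvd_of_pos hgm hm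
  rcases Nat.lt_or_ge x.natAbs 2 with hx | hx
  · apply le_max_of_le_right
    exact (Nat.le_of_dvd hm hgm).trans (small_arg H f hc m x y hx hy heq)
  apply le_max_of_le_left
  apply le_factorial_of_prime_pow g C hgpos
  intro q a hq ha hqa
  have hqm := hqa.trans hgm
  have hqN := hqa.trans hgN
  have hfirst : (Odd (q ^ a) ∨ f.coeff 0 = 1) → q ^ a ≤ C := by
    intro h
    have := h1 f u l hc hlc hc0 hl hlu hu hsupp hκ m (q ^ a) x y hm hx hy heq hqm hqN h
    omega
  rcases hodd with h | h | h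
  · exact hfirst (Or.inl (h.of_dvd_nat hqa))
  · exact hfirst (Or.inr h)
  · have hsupp0 : ∀ i, f.coeff i ≠ 0 → i = f.natDegree ∨ (l ≤ i ∧ i ≤ u) ∨ i ≤ 0 := by
      intro i hi
      rcases hsupp i hi with h | h | h
      · exact Or.inr (Or.inr (by omega))
      · exact Or.inl h
      · exact Or.inr (Or.inl h)
    rcases Nat.lt_or_ge (3 * l) (2 * f.natDegree) with h4 | h4
    · -- the middle exponents are low: the power of `x` is huge
      by_contra hcon
      rw [not_le] at hcon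
      obtain ⟨hw1, hw2⟩ := window κ f.natDegree u l hu hlu hκ
      have hNpos : 0 < f.natDegree := by omega
      have hgN' := Nat.le_of_dvd hNpos hqN
      set s0 := 2 * (f.natDegree - u) - (f.natDegree - l) with hs0
      have hNs : f.natDegree ≤ 3 * κ * s0 := by
        calc f.natDegree ≤ 3 * (f.natDegree - l) := by omega
          _ ≤ 3 * (κ * s0) := Nat.mul_le_mul_left _ hw2
          _ = 3 * κ * s0 := by ring
      have hκ1 : 1 ≤ κ := by
        by_contra h0
        have : κ = 0 := by omega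
        rw [this] at hNs
        omega
      have hbig : (C2 * q ^ a) ^ 2 ≤ x.natAbs ^ (1 * s0) := by
        have h5 : (C2 * q ^ a) ^ (2 * (3 * κ)) ≤ (x.natAbs ^ (1 * s0)) ^ (3 * κ) := by
          calc (C2 * q ^ a) ^ (2 * (3 * κ)) = C2 ^ (6 * κ) * (q ^ a) ^ (6 * κ) := by
                rw [mul_pow]; congr 2 <;> ring
            _ ≤ C2 ^ (6 * κ) * (q ^ a) ^ (12 * κ + 1) := by
                apply Nat.mul_le_mul_left
                exact Nat.pow_le_pow_right (by omega) (by omega)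
            _ ≤ 2 ^ (q ^ a) := (hB (q ^ a) (by omega)).le
            _ ≤ 2 ^ (3 * κ * s0) := Nat.pow_le_pow_right (by norm_num) (by omega)
            _ ≤ x.natAbs ^ (3 * κ * s0) := Nat.pow_le_pow_left hx _
            _ = (x.natAbs ^ (1 * s0)) ^ (3 * κ) := by rw [← pow_mul]; congr 1; ring
        rw [pow_mul] at h5
        exact (Nat.pow_le_pow_iff_left (by omega)).mp h5
      rcases h2 f u l 0 hc hlc (by omega) hlu hu hsupp0 hκ m q a x y hq ha hqm hqN (by
          rw [Nat.sub_zero]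
          exact Nat.mul_le_mul_right _ (by omega)) heq with h5 | h5 | h5
      · omega
      · exact absurd hbig (not_le.mpr h5)
      · have h6 : x ∣ f.coeff 0 := by
          have h7 : x ∣ f.eval x - f.coeff 0 := by
            obtain ⟨G, hG⟩ := low_part f l (by
              intro i hi
              rcases hsupp i hi with h | h | h
              · exact Or.inl h
              · exact Or.inr (by omega)
              · exact Or.inr h.1) x
            rw [hG, add_sub_cancel_right]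
            exact (dvd_pow_self x (by omega)).mul_right _
          have h8 : x ∣ f.eval x := by
            rw [← heq, h5]
            exact (dvd_pow_self x (by omega)).mul_left _
          have := dvd_sub h8 h7
          rwa [sub_sub_cancel] at this
        have h7 : x.natAbs ∣ (f.coeff 0).natAbs := Int.natAbs_dvd_natAbs.mpr h6
        have h8 : (f.coeff 0).natAbs = 1 := by
          rcases hc0 with h | h <;> rw [h] <;> rfl
        rw [h8] at h7
        have := Nat.le_of_dvd (by norm_num) h7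
        omega
    · rcases Nat.lt_or_ge (q ^ a) C3 with h5 | h5
      · omega
      · have := h3 f u l 0 l hc hlc hc0 (by omega) hlu hu hsupp0 (by
          intro i hi
          rcases hsupp i hi with h | h | h
          · exact Or.inl h
          · exact Or.inr (by omega)
          · exact Or.inr h.1) h4 hκ h m q a x y hq ha hm hqm hqN (by
            rw [Nat.sub_zero]
            exact Nat.mul_le_mul_right _ h5) hx hy heq
        omega

/-- the coefficients of a trinomial -/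
lemma tri_props (n k : ℕ) (e b c : ℤ) (hk : 1 ≤ k) (hkn : k < n) (he : e = 1 ∨ e = -1) (B : ℕ)
    (hb : |b| ≤ B) (hc : |c| ≤ B + 1) :
    (∀ i, |(C e * X ^ n + C b * X ^ k + C c : ℤ[X]).coeff i| ≤ (B + 1 : ℕ)) ∧
    (C e * X ^ n + C b * X ^ k + C c : ℤ[X]).natDegree = n ∧
    (C e * X ^ n + C b * X ^ k + C c : ℤ[X]).leadingCoeff = e ∧
    (C e * X ^ n + C b * X ^ k + C c : ℤ[X]).coeff 0 = c ∧
    (∀ i, (C e * X ^ n + C b * X ^ k + C c : ℤ[X]).coeff i ≠ 0 → i = 0 ∨ i = n ∨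
      (k ≤ i ∧ i ≤ k)) ∧
    (C e * X ^ n + C b * X ^ k + C c : ℤ[X]).support.card ≤ 3 := by
  set f : ℤ[X] := C e * X ^ n + C b * X ^ k + C c with hf
  have hcoeff : ∀ i, f.coeff i = (if i = n then e else 0) + (if i = k then b else 0) +
      (if i = 0 then c else 0) := by
    intro i
    rw [hf, coeff_add, coeff_add, coeff_C_mul_X_pow, coeff_C_mul_X_pow, coeff_C]
  have hn : f.coeff n = e := by
    rw [hcoeff, if_pos rfl, if_neg (by omega), if_neg (by omega)]; ring
  have h0 : f.coeff 0 = c := by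
    rw [hcoeff, if_pos rfl, if_neg (by omega), if_neg (by omega)]; ring
  have hε₁ : e ≠ 0 := by
    rcases he with h | h <;> rw [h] <;> norm_num
  have hdeg : f.natDegree = n := by
    apply natDegree_eq_of_le_of_coeff_ne_zero
    · rw [natDegree_le_iff_coeff_eq_zero]
      intro i hi
      rw [hcoeff, if_neg (by omega), if_neg (by omega), if_neg (by omega)]; ring
    · rw [hn]; exact hε₁
  have hlc : f.leadingCoeff = e := by rw [leadingCoeff, hdeg, hn]
  have hsub : f.support ⊆ {n, k, 0} := by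
    intro i hi
    rw [mem_support_iff, hcoeff] at hi
    simp only [Finset.mem_insert, Finset.mem_singleton]
    by_contra hcon
    push Not at hcon
    rw [if_neg hcon.1, if_neg hcon.2.1, if_neg hcon.2.2] at hi
    exact hi (by ring)
  have hcard : f.support.card ≤ 3 := (Finset.card_le_card hsub).trans Finset.card_le_three
  refine ⟨?_, hdeg, hlc, h0, ?_, hcard⟩
  · intro i
    rw [hcoeff]
    push_cast
    have hB0 : (0 : ℤ) ≤ B := Nat.cast_nonneg B
    have e1 : |e| = 1 := by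
      rcases he with h | h <;> rw [h] <;> norm_num
    by_cases c1 : i = n
    · rw [if_pos c1, if_neg (by omega), if_neg (by omega), add_zero, add_zero, e1]; linarith
    · by_cases c2 : i = k
      · rw [if_neg c1, if_pos c2, if_neg (by omega), zero_add, add_zero]; linarith
      · by_cases c3 : i = 0
        · rw [if_neg c1, if_neg c2, if_pos c3, add_zero, zero_add]; exact hc
        · rw [if_neg c1, if_neg c2, if_neg c3]; simp; linarith
  · intro i hi
    have := hsub (mem_support_iff.mpr hi)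
    simp only [Finset.mem_insert, Finset.mem_singleton] at this
    rcases this with h | h | h
    · exact Or.inr (Or.inl h)
    · exact Or.inr (Or.inr (by omega))
    · exact Or.inl h

/-- trinomials with constant term `± 1` -/
theorem trinomialA (B : ℕ) : ∃ M : ℕ, ∀ (n k m : ℕ) (e b c x y : ℤ), 1 ≤ k → k < n →
    |b| ≤ B → (e = 1 ∨ e = -1) → (c = 1 ∨ c = -1) → (Odd m ∨ c = 1 ∨ k + 2 ≤ n) → 1 ≤ m →
    m ∣ n → 1 < |y| → y ^ m = e * x ^ n + b * x ^ k + c → m ≤ M := by
  obtain ⟨M, hM⟩ := generalA (B + 1) 1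
  refine ⟨max M (Nat.log 2 ((B + 1) * 3)), ?_⟩
  intro n k m e b c x y hk hkn hb he hc hodd hm hmn hy heq
  have hcabs : |c| ≤ (B : ℤ) + 1 := by
    have hB0 : (0 : ℤ) ≤ B := Nat.cast_nonneg B
    rcases hc with h | h <;> rw [h] <;> norm_num
  obtain ⟨t1, t2, t3, t4, t5, t6⟩ := tri_props n k e b c hk hkn he B hb hcabs
  have hmain := hM _ k k t1 (by rw [t3]; exact he) (by rw [t4]; exact hc) hk le_rfl
    (by rw [t2]; exact hkn) (by rw [t2]; exact t5) (by rw [t2]) m m x y hm hy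
    (by rw [heq]; simp) dvd_rfl (by rw [t2]; exact hmn) (by
      rw [t2, t4]
      rcases hodd with h | h | h
      · exact Or.inl h
      · exact Or.inr (Or.inl h)
      · exact Or.inr (Or.inr (by omega)))
  refine hmain.trans (max_le_max le_rfl ?_)
  exact Nat.log_mono_right (Nat.mul_le_mul_left _ t6)

/-- trinomials with arbitrary constant term -/
theorem trinomialB (B s : ℕ) (hs : 1 ≤ s) : ∃ M : ℕ, ∀ (n k m : ℕ) (e b c x y : ℤ), 1 ≤ k →
    k < n → |b| ≤ B → |c| ≤ B → (e = 1 ∨ e = -1) → m ∣ n → y ^ m = e * x ^ n + b * x ^ k + c →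
    m ≤ M ∨ x.natAbs ^ (s * (n - k)) < (M * m) ^ (s + 1) ∨ y ^ m = e * x ^ n := by
  obtain ⟨M, hM⟩ := general2' (B + 1) 1 s hs
  refine ⟨M, ?_⟩
  intro n k m e b c x y hk hkn hb hc he hmn heq
  obtain ⟨t1, t2, t3, t4, t5, t6⟩ := tri_props n k e b c hk hkn he B hb (by linarith)
  have hmain := hM _ k k t1 (by rw [t3]; exact he) hk le_rfl
    (by rw [t2]; exact hkn) (by rw [t2]; exact t5) (by rw [t2]) m m x y dvd_rfl
    (by rw [t2]; exact hmn) (by rw [heq]; simp)
  rw [t2, t3] at hmain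
  have : 2 * (n - k) - (n - k) = n - k := by omega
  rwa [this] at hmain

end Pool.Agent.Shorey
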