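import Pool.Agent.Shorey.Core

/-!
The prime case.
-/

namespace Pool.Agent.Shorey

variable {q a : ℕ} {x Y ε r : ℤ} {K D e d2 s0 n R : ℕ}

/-- gap one -/
lemma nat_gap_one (u v g : ℕ) (hg : 1 ≤ g) (hgu : g ≤ u) (hne : v ≠ u) :
    (g : ℤ) * (u : ℤ) ^ (g - 1) ≤ 2 * |(v : ℤ) ^ g - (u : ℤ) ^ g| := by
  rcases Nat.lt_or_gt_of_ne hne with h | h
  · have h1 := nat_gap_two u (u - 1) g hg (fun _ => by
      have : u - (u - 1) = 1 := by omega
      rw [this, mul_one]; exact hgu)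
    have h2 : |((u - 1 : ℕ) : ℤ) - u| = 1 := by
      rw [Nat.cast_sub (by omega)]; push_cast
      rw [show (u : ℤ) - 1 - u = -1 by ring]; rfl
    rw [h2, mul_one] at h1
    refine h1.trans ?_
    have h3 : ((v : ℤ)) ^ g ≤ ((u - 1 : ℕ) : ℤ) ^ g := by
      exact_mod_cast Nat.pow_le_pow_left (show v ≤ u - 1 by omega) g
    have h4 : ((u - 1 : ℕ) : ℤ) ^ g ≤ (u : ℤ) ^ g := by
      exact_mod_cast Nat.pow_le_pow_left (show u - 1 ≤ u by omega) g
    rw [abs_of_nonpos (by linarith), abs_of_nonpos (by linarith)]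
    linarith
  · have h1 := nat_gap_two u (u + 1) g hg (fun h => by omega)
    have h2 : |((u + 1 : ℕ) : ℤ) - u| = 1 := by
      push_cast
      rw [show (u : ℤ) + 1 - u = 1 by ring]; rfl
    rw [h2, mul_one] at h1
    refine h1.trans ?_
    have h3 : ((u + 1 : ℕ) : ℤ) ^ g ≤ (v : ℤ) ^ g := by
      exact_mod_cast Nat.pow_le_pow_left (show u + 1 ≤ v by omega) g
    have h4 : (u : ℤ) ^ g ≤ ((u + 1 : ℕ) : ℤ) ^ g := by
      exact_mod_cast Nat.pow_le_pow_left (show u ≤ u + 1 by omega) g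
    rw [abs_of_nonneg (by linarith), abs_of_nonneg (by linarith)]
    linarith

/-- from an upper bound for the difference of powers -/
lemma Sol.from_diff (h : Sol q a x Y ε r K D e d2 s0 n R) (c C : ℤ)
    (hc : c * ((x.natAbs ^ K : ℕ) : ℤ) ^ (q ^ a - 1) ≤
      C * |((Y.natAbs : ℤ)) ^ (q ^ a) - ((x.natAbs ^ K : ℕ) : ℤ) ^ (q ^ a)|) (hC : 0 ≤ C) :
    c * (x.natAbs : ℤ) ^ d2 ≤ C * ((R + 1) * (x.natAbs : ℤ) ^ K) := by
  have h2 := hc.trans (mul_le_mul_of_nonneg_left h.diff_le' hC)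
  have hX : 0 < x.natAbs := by have := h.hx; omega
  have hg := h.g_pos
  have hXZ : (0 : ℤ) < x.natAbs := by exact_mod_cast hX
  have h3 : (0 : ℤ) < (x.natAbs : ℤ) ^ (K * (q ^ a - 1)) := by positivity
  have e1 : (((x.natAbs ^ K : ℕ) : ℤ)) ^ (q ^ a - 1) = (x.natAbs : ℤ) ^ (K * (q ^ a - 1)) := by
    push_cast
    rw [← pow_mul]
  rw [e1] at h2
  have e2 : (x.natAbs : ℤ) ^ (n + e) * (x.natAbs : ℤ) ^ d2 =
      (x.natAbs : ℤ) ^ (K * (q ^ a - 1)) * (x.natAbs : ℤ) ^ K := by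
    rw [← pow_add, ← pow_add]
    congr 1
    have e3 : K * (q ^ a - 1) + K = q ^ a * K := by
      obtain ⟨g', hg'⟩ : ∃ g', q ^ a = g' + 1 := ⟨q ^ a - 1, by omega⟩
      rw [hg', Nat.add_sub_cancel]; ring
    rw [e3, ← h.hn, h.hD]; ring
  apply le_of_mul_le_mul_left _ h3
  calc (x.natAbs : ℤ) ^ (K * (q ^ a - 1)) * (c * (x.natAbs : ℤ) ^ d2)
      = (c * (x.natAbs : ℤ) ^ (K * (q ^ a - 1))) * (x.natAbs : ℤ) ^ d2 := by ring
    _ ≤ (C * ((R + 1) * (x.natAbs : ℤ) ^ (n + e))) * (x.natAbs : ℤ) ^ d2 :=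
        mul_le_mul_of_nonneg_right h2 (by positivity)
    _ = C * ((R + 1) * ((x.natAbs : ℤ) ^ (n + e) * (x.natAbs : ℤ) ^ d2)) := by ring
    _ = (x.natAbs : ℤ) ^ (K * (q ^ a - 1)) * (C * ((R + 1) * (x.natAbs : ℤ) ^ K)) := by
        rw [e2]; ring

/-- `d2 < K` -/
lemma Sol.d2_lt (h : Sol q a x Y ε r K D e d2 s0 n R) (hX : q ^ a ≤ x.natAbs)
    (hg : 2 * (R + 1) < q ^ a) : d2 < K := by
  by_contra hcon
  push Not at hcon
  have hgu : q ^ a ≤ x.natAbs ^ K := hX.trans (Nat.le_self_pow (by have := h.K_pos; omega) _)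
  have h1 := nat_gap_one (x.natAbs ^ K) Y.natAbs (q ^ a) (by have := h.g_pos; omega) hgu h.ne
  have h2 := h.from_diff (q ^ a : ℕ) 2 h1 (by norm_num)
  have h3 : (x.natAbs : ℤ) ^ K ≤ (x.natAbs : ℤ) ^ d2 := by
    exact_mod_cast Nat.pow_le_pow_right (by have := h.hx; omega) hcon
  have h4 : (0 : ℤ) < (x.natAbs : ℤ) ^ K := by
    have : 0 < x.natAbs := by have := h.hx; omega
    positivity
  have h5 : (2 * ((R : ℤ) + 1)) < (q ^ a : ℕ) := by exact_mod_cast hg
  nlinarith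

/-- the sign of `Y` -/
lemma Sol.same_sign (h : Sol q a x Y ε r K D e d2 s0 n R) (hodd : Odd (q ^ a))
    (hX : R + 1 < x.natAbs) :
    (ε * x ^ K = (x.natAbs ^ K : ℕ) ∧ Y = Y.natAbs) ∨
      (ε * x ^ K = -(x.natAbs ^ K : ℕ) ∧ Y = -Y.natAbs) := by
  have hA : (ε * x ^ K).natAbs = x.natAbs ^ K := by
    rw [Int.natAbs_mul, Int.natAbs_pow]
    have : ε.natAbs = 1 := by
      rcases h.hε with h | h <;> rw [h] <;> rfl
    rw [this, one_mul]
  have hAg : (ε * x ^ K) ^ (q ^ a) = ε * x ^ (n + D) := by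
    rw [mul_pow, ← pow_mul, h.hn, mul_comm K]
    congr 1
    rcases h.hε with h | h
    · rw [h, one_pow]
    · rw [h]; exact hodd.neg_one_pow
  have heq := h.eq'
  rw [← hAg] at heq
  have hc : |x ^ n * r + 1| < ((x.natAbs ^ K : ℕ) : ℤ) ^ (q ^ a) := by
    have h1 : |x ^ n * r + 1| ≤ (R + 1) * (x.natAbs : ℤ) ^ (n + e) := by
      refine (abs_add_le _ _).trans ?_
      rw [abs_one, abs_mul, abs_pow, Int.abs_eq_natAbs x, Int.abs_eq_natAbs r]
      have h2 : (r.natAbs : ℤ) ≤ R * (x.natAbs : ℤ) ^ e := by exact_mod_cast h.hr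
      have h3 : (0 : ℤ) ≤ (x.natAbs : ℤ) ^ n := by positivity
      have h4 : (1 : ℤ) ≤ (x.natAbs : ℤ) ^ (n + e) := by
        exact_mod_cast Nat.one_le_pow _ _ (by have := h.hx; omega)
      calc (x.natAbs : ℤ) ^ n * r.natAbs + 1
          ≤ (x.natAbs : ℤ) ^ n * (R * (x.natAbs : ℤ) ^ e) + (x.natAbs : ℤ) ^ (n + e) := by
            linarith [mul_le_mul_of_nonneg_left h2 h3]
        _ = (R + 1) * (x.natAbs : ℤ) ^ (n + e) := by rw [pow_add]; ring
    refine lt_of_le_of_lt h1 ?_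
    have h2 : (R + 1) * x.natAbs ^ (n + e) < (x.natAbs ^ K) ^ (q ^ a) := by
      calc (R + 1) * x.natAbs ^ (n + e) < x.natAbs * x.natAbs ^ (n + e) :=
            Nat.mul_lt_mul_of_pos_right hX (pow_pos (by omega) _)
        _ = x.natAbs ^ (n + e + 1) := by rw [pow_succ']
        _ ≤ (x.natAbs ^ K) ^ (q ^ a) := by
            rw [← pow_mul, mul_comm K, ← h.hn, h.hD]
            exact Nat.pow_le_pow_right (by omega) (by have := h.d2_pos; omega)
    exact_mod_cast h2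
  have hc2 := abs_lt.mp hc
  have hUpos : (0 : ℤ) < ((x.natAbs ^ K : ℕ) : ℤ) := by
    have : 0 < x.natAbs ^ K := pow_pos (by omega) K
    exact_mod_cast this
  rcases Int.natAbs_eq (ε * x ^ K) with h1 | h1
  · left
    rw [hA] at h1
    refine ⟨h1, ?_⟩
    rw [h1] at heq
    have h2 : 0 < Y ^ (q ^ a) := by rw [heq]; linarith [hc2.1]
    have h3 : 0 < Y := hodd.pow_pos_iff.mp h2
    exact (Int.natAbs_of_nonneg h3.le).symm
  · right
    rw [hA] at h1
    refine ⟨h1, ?_⟩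
    rw [h1, hodd.neg_pow] at heq
    have h2 : Y ^ (q ^ a) < 0 := by rw [heq]; linarith [hc2.2]
    have h3 : Y < 0 := hodd.pow_neg_iff.mp h2
    omega

/-- some prime divides `x` and `Y - 1` -/
lemma Sol.exists_common (h : Sol q 1 x Y ε r K D e d2 s0 n R) (hodd : Odd q)
    (hX : q + 1 ≤ x.natAbs) (hqR : 4 * R + 16 ≤ q) :
    ∃ p : ℕ, p.Prime ∧ (p : ℤ) ∣ x ∧ (p : ℤ) ∣ Y - 1 := by
  by_contra hcon
  push Not at hcon
  have hK := h.K_pos
  have hd2 := h.d2_lt (by rw [pow_one]; omega) (by rw [pow_one]; omega)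
  have hd2p := h.d2_pos
  have hs := h.hs
  have hs1 := h.hs1
  have hDe := h.hD
  have hgap := h.gap
  have hX0 : 0 < x.natAbs := by omega
  have hXZ : (0 : ℤ) < x.natAbs := by exact_mod_cast hX0
  set F := ε * x ^ D + r with hF
  have hF0 : F ≠ 0 := by
    intro h0
    have h1 := h.heq
    rw [← hF, h0, mul_zero, zero_add, pow_one] at h1
    have h2 : (Y ^ q).natAbs = 1 := by rw [h1]; rfl
    rw [Int.natAbs_pow] at h2
    have h3 : 2 ≤ Y.natAbs ^ q := by
      calc 2 ≤ Y.natAbs := h.hY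
        _ ≤ _ := Nat.le_self_pow (by omega) _
    omega
  have hdvd : (Y - 1) ∣ F := by
    have hcop : IsCoprime (x ^ n) (Y - 1) := by
      apply IsCoprime.pow_left
      rw [Int.isCoprime_iff_gcd_eq_one]
      by_contra hg
      obtain ⟨p, hp, hpd⟩ := Nat.exists_prime_and_dvd hg
      have h1 : (p : ℤ) ∣ (Int.gcd x (Y - 1) : ℤ) := by exact_mod_cast hpd
      exact hcon p hp (h1.trans (Int.gcd_dvd_left _ _)) (h1.trans (Int.gcd_dvd_right _ _))
    have h1 := h.factor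
    simp only [Nat.sub_self, pow_zero, pow_one] at h1
    apply hcop.symm.dvd_of_dvd_mul_left
    rw [hF, ← h1]
    exact Dvd.intro _ rfl
  -- lower bound for |Y - 1|
  have hUK : (x.natAbs : ℤ) ^ K = x.natAbs * (x.natAbs : ℤ) ^ (K - 1) := by
    rw [← pow_succ']; congr 1; omega
  have hlow : (2 * (R : ℤ) + 2) * (x.natAbs : ℤ) ^ (K - 1) < |Y - 1| := by
    have h1 : |(Y.natAbs : ℤ) - (x.natAbs ^ K : ℕ)| ≤ (R + 1) * (x.natAbs : ℤ) ^ (K - 1) := by
      have h2 : (x.natAbs : ℤ) ≤ (x.natAbs : ℤ) ^ d2 := by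
        exact_mod_cast Nat.le_self_pow (by omega) x.natAbs
      have h3 : |(Y.natAbs : ℤ) - (x.natAbs ^ K : ℕ)| * x.natAbs ≤
          ((R + 1) * (x.natAbs : ℤ) ^ (K - 1)) * x.natAbs := by
        calc |(Y.natAbs : ℤ) - (x.natAbs ^ K : ℕ)| * x.natAbs
            ≤ |(Y.natAbs : ℤ) - (x.natAbs ^ K : ℕ)| * (x.natAbs : ℤ) ^ d2 :=
              mul_le_mul_of_nonneg_left h2 (abs_nonneg _)
          _ ≤ (R + 1) * (x.natAbs : ℤ) ^ K := hgap
          _ = ((R + 1) * (x.natAbs : ℤ) ^ (K - 1)) * x.natAbs := by rw [hUK]; ring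
      exact le_of_mul_le_mul_right h3 hXZ
    have h2 := (abs_le.mp h1).1
    have h3 : (1 : ℤ) ≤ (x.natAbs : ℤ) ^ (K - 1) := by
      exact_mod_cast Nat.one_le_pow _ _ hX0
    have h4 : |Y| ≤ |Y - 1| + 1 := by
      calc |Y| = |(Y - 1) + 1| := by ring_nf
        _ ≤ |Y - 1| + |(1 : ℤ)| := abs_add_le _ _
        _ = |Y - 1| + 1 := by simp
    rw [Int.abs_eq_natAbs Y] at h4
    have h5 : ((x.natAbs ^ K : ℕ) : ℤ) = x.natAbs * (x.natAbs : ℤ) ^ (K - 1) := by
      rw [← hUK]; push_cast; rfl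
    rw [h5] at h2
    have h6 : (4 * (R : ℤ) + 16) + 1 ≤ x.natAbs := by exact_mod_cast (show 4 * R + 16 + 1 ≤ x.natAbs by omega)
    have h7 : (4 * (R : ℤ) + 17) * (x.natAbs : ℤ) ^ (K - 1) ≤
        x.natAbs * (x.natAbs : ℤ) ^ (K - 1) :=
      mul_le_mul_of_nonneg_right (by linarith) (by linarith)
    have hR0 : (0 : ℤ) ≤ R := Nat.cast_nonneg R
    have h8 : 0 ≤ (R : ℤ) * (x.natAbs : ℤ) ^ (K - 1) := mul_nonneg hR0 (by linarith)
    nlinarith
  have hsmall : ∀ G : ℤ, (Y - 1) ∣ G →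
      |G| ≤ (2 * (R : ℤ) + 2) * (x.natAbs : ℤ) ^ (K - 1) → G = 0 := by
    intro G h1 h2
    exact Int.eq_zero_of_abs_lt_dvd ((abs_dvd _ _).mpr h1) (lt_of_le_of_lt h2 hlow)
  have hrabs : |r| ≤ R * (x.natAbs : ℤ) ^ e := by
    rw [Int.abs_eq_natAbs]; exact_mod_cast h.hr
  have hεabs : |ε| = 1 := by
    rcases h.hε with h | h <;> rw [h] <;> simp
  have hR0 : (0 : ℤ) ≤ R := Nat.cast_nonneg R
  rcases Nat.lt_or_ge D K with hDK | hDK
  · apply hF0
    apply hsmall F hdvd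
    have h1 : |F| ≤ (x.natAbs : ℤ) ^ D + R * (x.natAbs : ℤ) ^ e := by
      refine (abs_add_le _ _).trans ?_
      rw [abs_mul, hεabs, one_mul, abs_pow, Int.abs_eq_natAbs x]
      linarith
    have h2 : (x.natAbs : ℤ) ^ D ≤ (x.natAbs : ℤ) ^ (K - 1) := by
      exact_mod_cast Nat.pow_le_pow_right hX0 (show D ≤ K - 1 by omega)
    have h3 : (x.natAbs : ℤ) ^ e ≤ (x.natAbs : ℤ) ^ (K - 1) := by
      exact_mod_cast Nat.pow_le_pow_right hX0 (show e ≤ K - 1 by omega)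
    have h4 : (0 : ℤ) ≤ (x.natAbs : ℤ) ^ (K - 1) := by positivity
    nlinarith
  · have hd22 : 2 ≤ d2 := by omega
    set A := ε * x ^ K with hA
    set t := Y - A with ht
    have hsign := h.same_sign (by rw [pow_one]; exact hodd) (by omega)
    rw [← hA] at hsign
    have htabs : |t| = |(Y.natAbs : ℤ) - (x.natAbs ^ K : ℕ)| := by
      rcases hsign with ⟨h1, h2⟩ | ⟨h1, h2⟩
      · rw [ht, h1]
        conv_lhs => rw [h2]
      · rw [ht, h1]
        conv_lhs => rw [h2]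
        rw [← abs_neg]
        congr 1
        ring
    have ht1 : 1 ≤ |t| := by
      rw [htabs]
      apply Int.one_le_abs
      intro h3
      apply h.ne
      have : (Y.natAbs : ℤ) = (x.natAbs ^ K : ℕ) := by linarith
      exact_mod_cast this
    rw [← htabs] at hgap
    set G := x ^ (D - K) * (1 - t) + r with hG
    have hFG : F = x ^ (D - K) * (Y - 1) + G := by
      have h1 : ε * x ^ D = x ^ (D - K) * A := by
        rw [hA]
        have : x ^ D = x ^ (D - K) * x ^ K := by rw [← pow_add]; congr 1; omega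
        rw [this]; ring
      rw [hF, hG, h1, ht]; ring
    have hG0 : G = 0 := by
      apply hsmall
      · have : G = F - x ^ (D - K) * (Y - 1) := by rw [hFG]; ring
        rw [this]
        exact dvd_sub hdvd (Dvd.intro_left _ rfl)
      · have h1 : |G| ≤ (x.natAbs : ℤ) ^ (D - K) * (1 + |t|) + R * (x.natAbs : ℤ) ^ e := by
          refine (abs_add_le _ _).trans ?_
          rw [abs_mul, abs_pow, Int.abs_eq_natAbs x]
          have h2 : |1 - t| ≤ 1 + |t| := by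
            have := abs_sub 1 t
            simpa using this
          have h3 : (0 : ℤ) ≤ (x.natAbs : ℤ) ^ (D - K) := by positivity
          linarith [mul_le_mul_of_nonneg_left h2 h3]
        have h2 : |t| * (x.natAbs : ℤ) ^ (D - K) ≤ (R + 1) * (x.natAbs : ℤ) ^ e := by
          have h3 : (0 : ℤ) < (x.natAbs : ℤ) ^ d2 := by positivity
          apply le_of_mul_le_mul_right _ h3
          calc |t| * (x.natAbs : ℤ) ^ (D - K) * (x.natAbs : ℤ) ^ d2
              = (|t| * (x.natAbs : ℤ) ^ d2) * (x.natAbs : ℤ) ^ (D - K) := by ring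
            _ ≤ ((R + 1) * (x.natAbs : ℤ) ^ K) * (x.natAbs : ℤ) ^ (D - K) :=
                mul_le_mul_of_nonneg_right hgap (by positivity)
            _ = (R + 1) * ((x.natAbs : ℤ) ^ K * (x.natAbs : ℤ) ^ (D - K)) := by ring
            _ = (R + 1) * ((x.natAbs : ℤ) ^ e * (x.natAbs : ℤ) ^ d2) := by
                rw [← pow_add, ← pow_add]
                congr 2
                omega
            _ = (R + 1) * (x.natAbs : ℤ) ^ e * (x.natAbs : ℤ) ^ d2 := by ring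
        have h3 : (x.natAbs : ℤ) ^ (D - K) ≤ (x.natAbs : ℤ) ^ e := by
          exact_mod_cast Nat.pow_le_pow_right hX0 (show D - K ≤ e by omega)
        have h4 : (x.natAbs : ℤ) ^ e ≤ (x.natAbs : ℤ) ^ (K - 1) := by
          exact_mod_cast Nat.pow_le_pow_right hX0 (show e ≤ K - 1 by omega)
        calc |G| ≤ (x.natAbs : ℤ) ^ (D - K) * (1 + |t|) + R * (x.natAbs : ℤ) ^ e := h1
          _ = (x.natAbs : ℤ) ^ (D - K) + |t| * (x.natAbs : ℤ) ^ (D - K) +
              R * (x.natAbs : ℤ) ^ e := by ring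
          _ ≤ (x.natAbs : ℤ) ^ e + (R + 1) * (x.natAbs : ℤ) ^ e + R * (x.natAbs : ℤ) ^ e := by
              linarith
          _ = (2 * (R : ℤ) + 2) * (x.natAbs : ℤ) ^ e := by ring
          _ ≤ (2 * (R : ℤ) + 2) * (x.natAbs : ℤ) ^ (K - 1) :=
              mul_le_mul_of_nonneg_left h4 (by linarith)
    have hr : r = x ^ (D - K) * (t - 1) := by linear_combination hG0 - hG
    -- the exact equation
    have hc : x ^ n * r = x ^ ((q - 1) * K) * (t - 1) := by
      rw [hr, ← mul_assoc, ← pow_add]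
      congr 2
      have h1 := h.hn
      rw [pow_one] at h1
      obtain ⟨q', hq'⟩ : ∃ q', q = q' + 1 := ⟨q - 1, by omega⟩
      rw [hq', Nat.add_sub_cancel]
      rw [hq', add_mul, one_mul] at h1
      omega
    have hdiff : |((Y.natAbs : ℤ)) ^ q - ((x.natAbs ^ K : ℕ) : ℤ) ^ q| ≤
        3 * |t| * ((x.natAbs ^ K : ℕ) : ℤ) ^ (q - 1) := by
      have e1 : ((Y.natAbs : ℤ)) ^ q = |Y ^ q| := by
        rw [abs_pow, Int.abs_eq_natAbs]
      have e2 := h.main_abs
      have e3 := h.eq'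
      rw [pow_one] at e2 e3
      rw [e1, ← e2]
      refine (abs_abs_sub_abs_le_abs_sub _ _).trans ?_
      rw [e3, add_sub_cancel_left, hc]
      refine (abs_add_le _ _).trans ?_
      rw [abs_one, abs_mul, abs_pow, Int.abs_eq_natAbs x]
      have e4 : (x.natAbs : ℤ) ^ ((q - 1) * K) = ((x.natAbs ^ K : ℕ) : ℤ) ^ (q - 1) := by
        push_cast
        rw [← pow_mul, mul_comm]
      rw [e4]
      have e5 : |t - 1| ≤ |t| + 1 := by
        have := abs_sub t 1
        simpa using this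
      have e6 : (1 : ℤ) ≤ ((x.natAbs ^ K : ℕ) : ℤ) ^ (q - 1) := by
        exact_mod_cast Nat.one_le_pow _ _ (Nat.pow_pos hX0)
      nlinarith
    have hgap2 := nat_gap_two (x.natAbs ^ K) Y.natAbs q (by omega) (fun hlt => by
      have h1 : (q : ℤ) * |t| ≤ (x.natAbs : ℤ) ^ K := by
        have h3 : (0 : ℤ) < (x.natAbs : ℤ) ^ d2 := by positivity
        apply le_of_mul_le_mul_right _ h3
        have h4 : (q : ℤ) * (R + 1) ≤ (x.natAbs : ℤ) ^ d2 := by
          have h5 : q * (R + 1) ≤ x.natAbs ^ 2 := by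
            rw [sq]
            exact Nat.mul_le_mul (by omega) (by omega)
          have h6 : x.natAbs ^ 2 ≤ x.natAbs ^ d2 := Nat.pow_le_pow_right hX0 hd22
          exact_mod_cast h5.trans h6
        calc (q : ℤ) * |t| * (x.natAbs : ℤ) ^ d2 = q * (|t| * (x.natAbs : ℤ) ^ d2) := by ring
          _ ≤ q * ((R + 1) * (x.natAbs : ℤ) ^ K) :=
              mul_le_mul_of_nonneg_left hgap (by positivity)
          _ = (q * (R + 1)) * (x.natAbs : ℤ) ^ K := by ring
          _ ≤ (x.natAbs : ℤ) ^ d2 * (x.natAbs : ℤ) ^ K :=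
              mul_le_mul_of_nonneg_right h4 (by positivity)
          _ = (x.natAbs : ℤ) ^ K * (x.natAbs : ℤ) ^ d2 := by ring
      rw [htabs, abs_of_nonpos (by
        have : (Y.natAbs : ℤ) < (x.natAbs ^ K : ℕ) := by exact_mod_cast hlt
        linarith)] at h1
      zify [hlt.le]
      push_cast at h1 ⊢
      linarith)
    rw [← htabs] at hgap2
    have hUpos : (0 : ℤ) < ((x.natAbs ^ K : ℕ) : ℤ) ^ (q - 1) := by
      have : 0 < (x.natAbs ^ K) ^ (q - 1) := Nat.pow_pos (Nat.pow_pos hX0)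
      exact_mod_cast this
    have h1 : (q : ℤ) * (|t| * ((x.natAbs ^ K : ℕ) : ℤ) ^ (q - 1)) ≤
        6 * (|t| * ((x.natAbs ^ K : ℕ) : ℤ) ^ (q - 1)) := by linarith
    have h2 : (0 : ℤ) < |t| * ((x.natAbs ^ K : ℕ) : ℤ) ^ (q - 1) := by positivity
    have h3 := le_of_mul_le_mul_right h1 h2
    have h4 : q ≤ 6 := by exact_mod_cast h3
    omega

end Pool.Agent.Shorey
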