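import Pool.Agent.Shorey.Arith

/-!
Solutions and their first properties.
-/

namespace Pool.Agent.Shorey

/-- a solution of the normalised equation -/
structure Sol (q a : ℕ) (x Y ε r : ℤ) (K D e d2 s0 n R : ℕ) : Prop where
  hq : q.Prime
  ha : 1 ≤ a
  hε : ε = 1 ∨ ε = -1
  hx : 2 ≤ x.natAbs
  hY : 2 ≤ Y.natAbs
  hn : n + D = q ^ a * K
  hn1 : 1 ≤ n
  hr : r.natAbs ≤ R * x.natAbs ^ e
  hD : D = e + d2
  hs : D + s0 = 2 * d2
  hs1 : 1 ≤ s0
  heq : Y ^ (q ^ a) = x ^ n * (ε * x ^ D + r) + 1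

variable {q a : ℕ} {x Y ε r : ℤ} {K D e d2 s0 n R : ℕ}

lemma Sol.K_pos (h : Sol q a x Y ε r K D e d2 s0 n R) : 1 ≤ K := by
  by_contra hK
  have : K = 0 := by omega
  have h1 := h.hn
  have h2 := h.hn1
  rw [this] at h1
  omega

lemma Sol.g_pos (h : Sol q a x Y ε r K D e d2 s0 n R) : 2 ≤ q ^ a := by
  calc 2 ≤ q := h.hq.two_le
    _ ≤ q ^ a := Nat.le_self_pow (by have := h.ha; omega) q

lemma Sol.unit_pow (h : Sol q a x Y ε r K D e d2 s0 n R) (z : ℤ) : ¬ x ^ n * z = 1 := by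
  intro h1
  have h2 : (x ^ n * z).natAbs = 1 := by rw [h1]; rfl
  rw [Int.natAbs_mul, Int.natAbs_pow] at h2
  have h3 := Nat.eq_one_of_mul_eq_one_right h2
  have h4 : 2 ≤ x.natAbs ^ n := by
    calc 2 ≤ x.natAbs := h.hx
      _ ≤ x.natAbs ^ n := Nat.le_self_pow (by have := h.hn1; omega) _
  omega

/-- the main term -/
lemma Sol.main_abs (h : Sol q a x Y ε r K D e d2 s0 n R) :
    |ε * x ^ (n + D)| = ((x.natAbs ^ K : ℕ) : ℤ) ^ (q ^ a) := by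
  rw [abs_mul, abs_pow, h.hn, Int.abs_eq_natAbs x]
  have : |ε| = 1 := by
    rcases h.hε with h | h <;> rw [h] <;> simp
  rw [this, one_mul]
  push_cast
  rw [← pow_mul, mul_comm K]

lemma Sol.eq' (h : Sol q a x Y ε r K D e d2 s0 n R) :
    Y ^ (q ^ a) = ε * x ^ (n + D) + (x ^ n * r + 1) := by
  rw [h.heq, pow_add]; ring

lemma Sol.ne (h : Sol q a x Y ε r K D e d2 s0 n R) : Y.natAbs ≠ x.natAbs ^ K := by
  intro h1
  have h2 : (Y ^ (q ^ a)).natAbs = (x ^ (n + D)).natAbs := by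
    rw [Int.natAbs_pow, Int.natAbs_pow, h1, h.hn, ← pow_mul, mul_comm]
  rcases Int.natAbs_eq_natAbs_iff.mp h2 with h3 | h3
  · apply h.unit_pow (x ^ D - (ε * x ^ D + r))
    rw [mul_sub, ← pow_add, ← h3, h.heq]
    ring
  · apply h.unit_pow (-x ^ D - (ε * x ^ D + r))
    have h4 : x ^ n * (-x ^ D) = -x ^ (n + D) := by rw [pow_add]; ring
    rw [mul_sub, h4, ← h3, h.heq]
    ring

lemma Sol.diff_le (h : Sol q a x Y ε r K D e d2 s0 n R) :
    |((Y.natAbs : ℤ)) ^ (q ^ a) - ((x.natAbs ^ K : ℕ) : ℤ) ^ (q ^ a)| ≤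
      R * (x.natAbs : ℤ) ^ (n + e) + 1 := by
  have h1 : ((Y.natAbs : ℤ)) ^ (q ^ a) = |Y ^ (q ^ a)| := by
    rw [abs_pow, Int.abs_eq_natAbs]
  rw [h1, ← h.main_abs]
  refine (abs_abs_sub_abs_le_abs_sub _ _).trans ?_
  rw [h.eq', add_sub_cancel_left]
  refine (abs_add_le _ _).trans ?_
  rw [abs_one, abs_mul, abs_pow, Int.abs_eq_natAbs x, Int.abs_eq_natAbs r]
  have h2 : (r.natAbs : ℤ) ≤ R * (x.natAbs : ℤ) ^ e := by exact_mod_cast h.hr
  have h3 : (0 : ℤ) ≤ (x.natAbs : ℤ) ^ n := by positivity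
  calc (x.natAbs : ℤ) ^ n * r.natAbs + 1 ≤ (x.natAbs : ℤ) ^ n * (R * (x.natAbs : ℤ) ^ e) + 1 := by
        linarith [mul_le_mul_of_nonneg_left h2 h3]
    _ = R * (x.natAbs : ℤ) ^ (n + e) + 1 := by rw [pow_add]; ring

lemma Sol.diff_le' (h : Sol q a x Y ε r K D e d2 s0 n R) :
    |((Y.natAbs : ℤ)) ^ (q ^ a) - ((x.natAbs ^ K : ℕ) : ℤ) ^ (q ^ a)| ≤
      (R + 1) * (x.natAbs : ℤ) ^ (n + e) := by
  refine h.diff_le.trans ?_
  have h1 : (1 : ℤ) ≤ (x.natAbs : ℤ) ^ (n + e) := by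
    exact_mod_cast Nat.one_le_pow _ _ (by have := h.hx; omega)
  linarith

/-- the gap principle, general form -/
lemma Sol.gap (h : Sol q a x Y ε r K D e d2 s0 n R) :
    |(Y.natAbs : ℤ) - (x.natAbs ^ K : ℕ)| * (x.natAbs : ℤ) ^ d2 ≤
      (R + 1) * (x.natAbs : ℤ) ^ K := by
  have h1 := nat_gap (x.natAbs ^ K) Y.natAbs (q ^ a) (by have := h.g_pos; omega)
  have h2 := h1.trans h.diff_le'
  have hX : 0 < x.natAbs := by have := h.hx; omega
  have hg := h.g_pos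
  have hXZ : (0 : ℤ) < x.natAbs := by exact_mod_cast hX
  have h3 : (0 : ℤ) < (x.natAbs : ℤ) ^ (K * (q ^ a - 1)) := by positivity
  have e1 : (((x.natAbs ^ K : ℕ) : ℤ)) ^ (q ^ a - 1) = (x.natAbs : ℤ) ^ (K * (q ^ a - 1)) := by
    push_cast
    rw [← pow_mul]
  rw [e1] at h2
  have e2 : (x.natAbs : ℤ) ^ (n + e) * (x.natAbs : ℤ) ^ d2 =
      (x.natAbs : ℤ) ^ (K * (q ^ a - 1)) * (x.natAbs : ℤ) ^ K := by
    rw [← pow_add, ← pow_add]
    congr 1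
    have e3 : K * (q ^ a - 1) + K = q ^ a * K := by
      obtain ⟨g', hg'⟩ : ∃ g', q ^ a = g' + 1 := ⟨q ^ a - 1, by omega⟩
      rw [hg', Nat.add_sub_cancel]; ring
    rw [e3, ← h.hn, h.hD]; ring
  apply le_of_mul_le_mul_left _ h3
  calc (x.natAbs : ℤ) ^ (K * (q ^ a - 1)) * (|(Y.natAbs : ℤ) - (x.natAbs ^ K : ℕ)| *
        (x.natAbs : ℤ) ^ d2)
      = (|(Y.natAbs : ℤ) - (x.natAbs ^ K : ℕ)| * (x.natAbs : ℤ) ^ (K * (q ^ a - 1))) *
          (x.natAbs : ℤ) ^ d2 := by ring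
    _ ≤ ((R + 1) * (x.natAbs : ℤ) ^ (n + e)) * (x.natAbs : ℤ) ^ d2 :=
        mul_le_mul_of_nonneg_right h2 (by positivity)
    _ = (R + 1) * ((x.natAbs : ℤ) ^ (n + e) * (x.natAbs : ℤ) ^ d2) := by ring
    _ = (x.natAbs : ℤ) ^ (K * (q ^ a - 1)) * ((R + 1) * (x.natAbs : ℤ) ^ K) := by
        rw [e2]; ring

lemma Sol.crude (h : Sol q a x Y ε r K D e d2 s0 n R) :
    x.natAbs ^ d2 ≤ (R + 1) * x.natAbs ^ K := by
  have h1 := h.gap
  have h2 : (1 : ℤ) ≤ |(Y.natAbs : ℤ) - (x.natAbs ^ K : ℕ)| := by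
    apply Int.one_le_abs
    intro h3
    apply h.ne
    have : (Y.natAbs : ℤ) = (x.natAbs ^ K : ℕ) := by linarith
    exact_mod_cast this
  have h3 : (x.natAbs : ℤ) ^ d2 ≤ (R + 1) * (x.natAbs : ℤ) ^ K := by
    calc (x.natAbs : ℤ) ^ d2 = 1 * (x.natAbs : ℤ) ^ d2 := (one_mul _).symm
      _ ≤ _ := mul_le_mul_of_nonneg_right h2 (by positivity)
      _ ≤ _ := h1
  exact_mod_cast h3

/-- the size of the power -/
lemma Sol.V_le (h : Sol q a x Y ε r K D e d2 s0 n R) :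
    Y.natAbs ^ (q ^ a) ≤ (R + 2) * x.natAbs ^ (q ^ a * K) := by
  have h1 := (le_abs_self _).trans h.diff_le'
  have h2 : (x.natAbs : ℤ) ^ (n + e) ≤ (x.natAbs : ℤ) ^ (q ^ a * K) := by
    have : x.natAbs ^ (n + e) ≤ x.natAbs ^ (q ^ a * K) := by
      apply Nat.pow_le_pow_right (by have := h.hx; omega)
      rw [← h.hn, h.hD]; omega
    exact_mod_cast this
  have e1 : (((x.natAbs ^ K : ℕ) : ℤ)) ^ (q ^ a) = (x.natAbs : ℤ) ^ (q ^ a * K) := by
    push_cast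
    rw [← pow_mul, mul_comm]
  rw [e1] at h1
  have h3 : (0 : ℤ) ≤ R := Nat.cast_nonneg R
  have h4 : ((Y.natAbs : ℤ)) ^ (q ^ a) ≤ (R + 2) * (x.natAbs : ℤ) ^ (q ^ a * K) := by
    nlinarith
  exact_mod_cast h4

lemma Sol.W_pow (h : Sol q a x Y ε r K D e d2 s0 n R) :
    (Y ^ (q ^ (a - 1))) ^ q = Y ^ (q ^ a) := by
  rw [← pow_mul, ← pow_succ]
  congr 2
  have := h.ha
  omega

lemma Sol.factor (h : Sol q a x Y ε r K D e d2 s0 n R) :
    (Y ^ (q ^ (a - 1)) - 1) * ∑ i ∈ Finset.range q, (Y ^ (q ^ (a - 1))) ^ i =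
      x ^ n * (ε * x ^ D + r) := by
  rw [mul_geom_sum, h.W_pow, h.heq]; ring

lemma Sol.W_abs (h : Sol q a x Y ε r K D e d2 s0 n R) : 2 ≤ (Y ^ (q ^ (a - 1))).natAbs := by
  rw [Int.natAbs_pow]
  calc 2 ≤ Y.natAbs := h.hY
    _ ≤ Y.natAbs ^ (q ^ (a - 1)) := Nat.le_self_pow (pow_pos h.hq.pos _).ne' _

lemma pow_aux (C Z g q : ℕ) :
    (C ^ q * Z ^ (g + 2 * q)) ^ 2 = (C ^ 2) ^ q * (Z ^ (2 * g) * (Z ^ 4) ^ q) := by ring

/-- not all primes dividing `x` divide `W - 1` -/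
lemma Sol.exists_prime (h : Sol q a x Y ε r K D e d2 s0 n R) (h2 : q = 2 → 2 ≤ a)
    (hbig : 16 * (2 * q ^ a * (R + 2) ^ 3) ^ 2 < 2 ^ (q ^ a)) :
    ∃ p : ℕ, p.Prime ∧ (p : ℤ) ∣ x ∧ ¬ (p : ℤ) ∣ Y ^ (q ^ (a - 1)) - 1 := by
  by_contra hcon
  push Not at hcon
  set W := Y ^ (q ^ (a - 1)) with hW
  have hdvd : x.natAbs ^ n ∣ (q * (W - 1)).natAbs := by
    rw [Nat.dvd_iff_prime_pow_dvd_dvd]
    intro p k hp hpk
    rcases Nat.eq_zero_or_pos k with hk | hk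
    · rw [hk, pow_zero]; exact one_dvd _
    · have hpx : (p : ℤ) ∣ x := by
        rw [Int.natCast_dvd]
        exact hp.dvd_of_dvd_pow ((dvd_pow_self p (by omega)).trans hpk)
      have h3 := part_dvd q a h.hq h2 Y p k hp (hcon p hp hpx) (by
        rw [h.factor]
        apply Dvd.dvd.mul_right
        have h4 : ((p ^ k : ℕ) : ℤ) ∣ x ^ n := by
          rw [Int.natCast_dvd, Int.natAbs_pow]
          exact hpk
        exact_mod_cast h4)
      have h5 : ((p ^ k : ℕ) : ℤ) ∣ q * (W - 1) := by exact_mod_cast h3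
      rwa [Int.natCast_dvd] at h5
  have hW2 := h.W_abs
  rw [← hW] at hW2
  have hW1 : W - 1 ≠ 0 := by
    intro h0
    have : W = 1 := by linarith
    rw [this] at hW2
    simp at hW2
  have hqpos := h.hq.pos
  have hne : (q * (W - 1)).natAbs ≠ 0 := by
    rw [Int.natAbs_ne_zero]
    exact mul_ne_zero (by exact_mod_cast hqpos.ne') hW1
  have hle := Nat.le_of_dvd (Nat.pos_of_ne_zero hne) hdvd
  have hle2 : x.natAbs ^ n ≤ 2 * q * W.natAbs := by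
    refine hle.trans ?_
    rw [Int.natAbs_mul, Int.natAbs_natCast]
    have h3 : (W - 1).natAbs ≤ W.natAbs + 1 := by
      have := Int.natAbs_sub_le W 1
      simpa using this
    calc q * (W - 1).natAbs ≤ q * (2 * W.natAbs) := Nat.mul_le_mul_left _ (by omega)
      _ = 2 * q * W.natAbs := by ring
  have hWq : W.natAbs ^ q ≤ (R + 2) * x.natAbs ^ (q ^ a * K) := by
    rw [← Int.natAbs_pow, h.W_pow, Int.natAbs_pow]
    exact h.V_le
  set X := x.natAbs with hX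
  have hX2 : 2 ≤ X := h.hx
  set g := q ^ a with hg
  have hqg : q ≤ g := Nat.le_self_pow (by have := h.ha; omega) q
  have hD2 : X ^ D ≤ ((R + 1) * X ^ K) ^ 2 := by
    calc X ^ D ≤ X ^ (d2 * 2) := Nat.pow_le_pow_right (by omega) (by have := h.hs; omega)
      _ = (X ^ d2) ^ 2 := pow_mul _ _ _
      _ ≤ ((R + 1) * X ^ K) ^ 2 := Nat.pow_le_pow_left h.crude 2
  set Z := X ^ K with hZ
  have hZ2 : 2 ≤ Z := hX2.trans (Nat.le_self_pow (by have := h.K_pos; omega) X)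
  -- main inequality
  have hmain : Z ^ (g * q) ≤ (2 * q * (R + 2) ^ 3) ^ q * Z ^ (g + 2 * q) := by
    have e1 : Z ^ (g * q) = X ^ (n * q) * (X ^ D) ^ q := by
      rw [← pow_mul X D, ← pow_add, ← add_mul, h.hn, hZ, ← pow_mul]
      congr 1; ring
    have e2 : X ^ (n * q) ≤ (2 * q) ^ q * ((R + 2) * Z ^ g) := by
      calc X ^ (n * q) = (X ^ n) ^ q := pow_mul _ _ _
        _ ≤ (2 * q * W.natAbs) ^ q := Nat.pow_le_pow_left hle2 q
        _ = (2 * q) ^ q * W.natAbs ^ q := mul_pow _ _ _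
        _ ≤ (2 * q) ^ q * ((R + 2) * X ^ (g * K)) := Nat.mul_le_mul_left _ hWq
        _ = (2 * q) ^ q * ((R + 2) * Z ^ g) := by
            rw [hZ, ← pow_mul, mul_comm g K]
    calc Z ^ (g * q) = X ^ (n * q) * (X ^ D) ^ q := e1
      _ ≤ ((2 * q) ^ q * ((R + 2) * Z ^ g)) * (((R + 1) * Z) ^ 2) ^ q :=
          Nat.mul_le_mul e2 (Nat.pow_le_pow_left hD2 q)
      _ = (2 * q) ^ q * ((R + 2) * ((R + 1) ^ 2) ^ q) * Z ^ (g + 2 * q) := by
          rw [mul_pow (R + 1) Z, mul_pow _ (Z ^ 2), ← pow_mul Z 2, pow_add]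
          ring
      _ ≤ (2 * q) ^ q * (((R + 2) ^ 3) ^ q) * Z ^ (g + 2 * q) := by
          apply Nat.mul_le_mul_right
          apply Nat.mul_le_mul_left
          calc (R + 2) * ((R + 1) ^ 2) ^ q ≤ (R + 2) ^ q * ((R + 2) ^ 2) ^ q := by
                apply Nat.mul_le_mul
                · exact Nat.le_self_pow (by omega) _
                · apply Nat.pow_le_pow_left
                  apply Nat.pow_le_pow_left
                  omega
            _ = ((R + 2) ^ 3) ^ q := by rw [← mul_pow]; ring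
      _ = (2 * q * (R + 2) ^ 3) ^ q * Z ^ (g + 2 * q) := by rw [mul_pow (2 * q)]
  have hg4 : 4 ≤ g := by
    by_contra hlt
    push Not at hlt
    have h3 : 1 ≤ (R + 2) ^ 3 := Nat.one_le_pow _ _ (by omega)
    have h4 : 2 ^ g ≤ 2 ^ 3 := Nat.pow_le_pow_right (by norm_num) (by omega)
    have h5 : 1 ≤ (2 * g * (R + 2) ^ 3) ^ 2 := Nat.one_le_pow _ _ (by
      have : 0 < g := by omega
      positivity)
    omega
  have hsq : Z ^ g ≤ (2 * q * (R + 2) ^ 3) ^ 2 * Z ^ 4 := by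
    have h3 : (Z ^ (g * q)) ^ 2 ≤ ((2 * q * (R + 2) ^ 3) ^ q * Z ^ (g + 2 * q)) ^ 2 :=
      Nat.pow_le_pow_left hmain 2
    have h4 : Z ^ (g * q) * (Z ^ g) ^ q ≤
        Z ^ (g * q) * ((2 * q * (R + 2) ^ 3) ^ 2 * Z ^ 4) ^ q := by
      calc Z ^ (g * q) * (Z ^ g) ^ q = (Z ^ (g * q)) ^ 2 := by rw [← pow_mul]; ring
        _ ≤ ((2 * q * (R + 2) ^ 3) ^ q * Z ^ (g + 2 * q)) ^ 2 := h3
        _ = ((2 * q * (R + 2) ^ 3) ^ 2) ^ q * (Z ^ (2 * g) * (Z ^ 4) ^ q) := pow_aux _ _ _ _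
        _ ≤ ((2 * q * (R + 2) ^ 3) ^ 2) ^ q * (Z ^ (g * q) * (Z ^ 4) ^ q) := by
            apply Nat.mul_le_mul_left
            apply Nat.mul_le_mul_right
            apply Nat.pow_le_pow_right (by omega)
            rw [mul_comm]
            exact Nat.mul_le_mul_left _ h.hq.two_le
        _ = Z ^ (g * q) * ((2 * q * (R + 2) ^ 3) ^ 2 * Z ^ 4) ^ q := by
            rw [mul_pow ((2 * q * (R + 2) ^ 3) ^ 2)]; ring
    have h5 := Nat.le_of_mul_le_mul_left h4 (by positivity)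
    exact (Nat.pow_le_pow_iff_left (by omega)).mp h5
  have hfin : 2 ^ (g - 4) ≤ (2 * q * (R + 2) ^ 3) ^ 2 := by
    have h3 : Z ^ g = Z ^ (g - 4) * Z ^ 4 := by
      rw [← pow_add]; congr 1; omega
    rw [h3] at hsq
    have h4 := Nat.le_of_mul_le_mul_right hsq (by positivity)
    exact (Nat.pow_le_pow_left hZ2 _).trans h4
  have h6 : 2 ^ g = 16 * 2 ^ (g - 4) := by
    rw [show (16 : ℕ) = 2 ^ 4 by norm_num, ← pow_add]; congr 1; omega
  have h7 : (2 * q * (R + 2) ^ 3) ^ 2 ≤ (2 * g * (R + 2) ^ 3) ^ 2 := by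
    apply Nat.pow_le_pow_left
    apply Nat.mul_le_mul_right
    omega
  omega

/-- primes dividing `x` but not `W - 1` are large -/
lemma Sol.prime_large (h : Sol q a x Y ε r K D e d2 s0 n R) (p : ℕ) (hp : p.Prime)
    (hpx : (p : ℤ) ∣ x) (hpW : ¬ (p : ℤ) ∣ Y ^ (q ^ (a - 1)) - 1) : q ^ a + 1 ≤ p := by
  have := Fact.mk hp
  have := Fact.mk h.hq
  have e1 : ((Y : ZMod p)) ^ (q ^ (a - 1 + 1)) = 1 := by
    have h1 : ((Y ^ (q ^ a) - 1 : ℤ) : ZMod p) = 0 := by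
      rw [ZMod.intCast_zmod_eq_zero_iff_dvd, h.heq]
      have : x ^ n * (ε * x ^ D + r) + 1 - 1 = x ^ n * (ε * x ^ D + r) := by ring
      rw [this]
      exact (hpx.trans (dvd_pow_self x (by have := h.hn1; omega))).mul_right _
    push_cast at h1
    rw [show a - 1 + 1 = a by have := h.ha; omega]
    exact sub_eq_zero.mp h1
  have e2 : ¬ ((Y : ZMod p)) ^ (q ^ (a - 1)) = 1 := by
    intro h1
    apply hpW
    rw [← ZMod.intCast_zmod_eq_zero_iff_dvd]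
    push_cast
    rw [h1, sub_self]
  have e3 := orderOf_eq_prime_pow e2 e1
  have ha' : a - 1 + 1 = a := by have := h.ha; omega
  have hY0 : (Y : ZMod p) ≠ 0 := by
    intro h0
    rw [h0, zero_pow (pow_pos h.hq.pos _).ne'] at e1
    exact zero_ne_one e1
  have e4 := ZMod.orderOf_dvd_card_sub_one hY0
  rw [e3, ha'] at e4
  have hp2 := hp.two_le
  have h5 := Nat.le_of_dvd (by omega) e4
  omega

lemma Sol.X_large (h : Sol q a x Y ε r K D e d2 s0 n R) (h2 : q = 2 → 2 ≤ a)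
    (hbig : 16 * (2 * q ^ a * (R + 2) ^ 3) ^ 2 < 2 ^ (q ^ a)) : q ^ a + 1 ≤ x.natAbs := by
  obtain ⟨p, hp, hpx, hpW⟩ := h.exists_prime h2 hbig
  refine (h.prime_large p hp hpx hpW).trans ?_
  rw [Int.natCast_dvd] at hpx
  exact Nat.le_of_dvd (by have := h.hx; omega) hpx

end Pool.Agent.Shorey
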