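import Pool.Agent.Shorey.Kill2

/-!
Solutions with arbitrary lower terms.
-/

namespace Pool.Agent.Shorey

/-- a solution of the equation with lower terms -/
structure Sol2 (q a : ℕ) (x Y ε r ρ : ℤ) (K D e d2 s0 n v R Hc c : ℕ) : Prop where
  hq : q.Prime
  ha : 1 ≤ a
  hε : ε = 1 ∨ ε = -1
  hx : 2 ≤ x.natAbs
  hK : 1 ≤ K
  hR : 1 ≤ R
  hn : n + D = q ^ a * K
  hr : r.natAbs ≤ R * x.natAbs ^ e
  hρ : ρ.natAbs ≤ Hc * x.natAbs ^ v
  hD : D = e + d2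
  hs : D + s0 = 2 * d2
  hs1 : 1 ≤ s0
  hc : 16 * (R + Hc) ≤ 2 ^ c
  hv : (c + 2) * K + v ≤ q ^ a * K
  heq : Y ^ (q ^ a) = x ^ n * (ε * x ^ D + r) + ρ
  hne : Y ^ (q ^ a) ≠ ε * x ^ (n + D)
  hX : 16 * R ≤ x.natAbs ^ d2

variable {q a : ℕ} {x Y ε r ρ : ℤ} {K D e d2 s0 n v R Hc c : ℕ}

lemma Sol2.X_pos (h : Sol2 q a x Y ε r ρ K D e d2 s0 n v R Hc c) : 0 < x.natAbs := by
  have := h.hx
  omega

/-- the lower terms are small -/
lemma Sol2.rho_small (h : Sol2 q a x Y ε r ρ K D e d2 s0 n v R Hc c) :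
    16 * (Hc * x.natAbs ^ v) * x.natAbs ^ (2 * K) ≤ x.natAbs ^ (q ^ a * K) := by
  have hX0 := h.X_pos
  have h1 : 16 * Hc ≤ x.natAbs ^ (c * K) := by
    calc 16 * Hc ≤ 2 ^ c := by have := h.hc; omega
      _ ≤ x.natAbs ^ c := Nat.pow_le_pow_left h.hx c
      _ ≤ x.natAbs ^ (c * K) := Nat.pow_le_pow_right hX0 (Nat.le_mul_of_pos_right _ h.hK)
  calc 16 * (Hc * x.natAbs ^ v) * x.natAbs ^ (2 * K)
      = (16 * Hc) * (x.natAbs ^ v * x.natAbs ^ (2 * K)) := by ring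
    _ ≤ x.natAbs ^ (c * K) * (x.natAbs ^ v * x.natAbs ^ (2 * K)) := Nat.mul_le_mul_right _ h1
    _ = x.natAbs ^ ((c + 2) * K + v) := by
        rw [← pow_add, ← pow_add]; congr 1; ring
    _ ≤ x.natAbs ^ (q ^ a * K) := Nat.pow_le_pow_right hX0 h.hv

lemma Sol2.rho_small' (h : Sol2 q a x Y ε r ρ K D e d2 s0 n v R Hc c) :
    16 * (Hc * x.natAbs ^ v) ≤ x.natAbs ^ (q ^ a * K) := by
  refine le_trans ?_ h.rho_small
  exact Nat.le_mul_of_pos_right _ (pow_pos h.X_pos _)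

lemma Sol2.r_small (h : Sol2 q a x Y ε r ρ K D e d2 s0 n v R Hc c) :
    16 * (x.natAbs ^ n * (R * x.natAbs ^ e)) ≤ x.natAbs ^ (q ^ a * K) := by
  calc 16 * (x.natAbs ^ n * (R * x.natAbs ^ e)) = (16 * R) * (x.natAbs ^ n * x.natAbs ^ e) := by ring
    _ ≤ x.natAbs ^ d2 * (x.natAbs ^ n * x.natAbs ^ e) := Nat.mul_le_mul_right _ h.hX
    _ = x.natAbs ^ (q ^ a * K) := by
        rw [← pow_add, ← pow_add, ← h.hn, h.hD]; congr 1; ring

lemma Sol2.main_abs (h : Sol2 q a x Y ε r ρ K D e d2 s0 n v R Hc c) :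
    |ε * x ^ (n + D)| = ((x.natAbs ^ (q ^ a * K) : ℕ) : ℤ) := by
  rw [abs_mul, abs_pow, h.hn, Int.abs_eq_natAbs x]
  have : |ε| = 1 := by
    rcases h.hε with h | h <;> rw [h] <;> simp
  rw [this, one_mul]
  push_cast
  rfl

lemma Sol2.eq' (h : Sol2 q a x Y ε r ρ K D e d2 s0 n v R Hc c) :
    Y ^ (q ^ a) = ε * x ^ (n + D) + (x ^ n * r + ρ) := by
  rw [h.heq, pow_add]; ring

lemma Sol2.low_abs (h : Sol2 q a x Y ε r ρ K D e d2 s0 n v R Hc c) :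
    |x ^ n * r + ρ| ≤ ((x.natAbs ^ n * (R * x.natAbs ^ e) + Hc * x.natAbs ^ v : ℕ) : ℤ) := by
  refine (abs_add_le _ _).trans ?_
  rw [abs_mul, abs_pow, Int.abs_eq_natAbs x, Int.abs_eq_natAbs r, Int.abs_eq_natAbs ρ]
  have h1 := Nat.mul_le_mul_left (x.natAbs ^ n) h.hr
  have h2 := h.hρ
  have h3 : x.natAbs ^ n * r.natAbs + ρ.natAbs ≤
      x.natAbs ^ n * (R * x.natAbs ^ e) + Hc * x.natAbs ^ v := by omega
  exact_mod_cast h3

lemma Sol2.ne (h : Sol2 q a x Y ε r ρ K D e d2 s0 n v R Hc c) : Y.natAbs ≠ x.natAbs ^ K := by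
  intro h1
  have h2 : (Y ^ (q ^ a)).natAbs = (ε * x ^ (n + D)).natAbs := by
    rw [Int.natAbs_pow, h1, ← pow_mul]
    have h3 := h.main_abs
    rw [Int.abs_eq_natAbs] at h3
    have h4 : (ε * x ^ (n + D)).natAbs = x.natAbs ^ (q ^ a * K) := by exact_mod_cast h3
    rw [h4, mul_comm]
  rcases Int.natAbs_eq_natAbs_iff.mp h2 with h3 | h3
  · exact h.hne h3
  · have h4 := h.low_abs
    have h5 : x ^ n * r + ρ = -(2 * (ε * x ^ (n + D))) := by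
      have := h.eq'
      rw [h3] at this
      linarith
    rw [h5, abs_neg, abs_mul, h.main_abs] at h4
    have h6 := h.r_small
    have h7 := h.rho_small'
    have h8 : 2 * x.natAbs ^ (q ^ a * K) ≤
        x.natAbs ^ n * (R * x.natAbs ^ e) + Hc * x.natAbs ^ v := by
      have : |(2 : ℤ)| = 2 := rfl
      rw [this] at h4
      exact_mod_cast h4
    have h9 : 0 < x.natAbs ^ (q ^ a * K) := pow_pos h.X_pos _
    omega

lemma Sol2.s0_le (h : Sol2 q a x Y ε r ρ K D e d2 s0 n v R Hc c) : s0 ≤ (c + 1) * K := by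
  have hX0 := h.X_pos
  have hg1 : 1 ≤ q ^ a := Nat.one_le_pow _ _ h.hq.pos
  have h1 := nat_gap (x.natAbs ^ K) Y.natAbs (q ^ a) hg1
  have h2 : |((Y.natAbs : ℤ)) ^ (q ^ a) - ((x.natAbs ^ K : ℕ) : ℤ) ^ (q ^ a)| ≤
      ((x.natAbs ^ n * (R * x.natAbs ^ e) + Hc * x.natAbs ^ v : ℕ) : ℤ) := by
    have e1 : ((Y.natAbs : ℤ)) ^ (q ^ a) = |Y ^ (q ^ a)| := by
      rw [abs_pow, Int.abs_eq_natAbs]
    have e2 : ((x.natAbs ^ K : ℕ) : ℤ) ^ (q ^ a) = |ε * x ^ (n + D)| := by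
      rw [h.main_abs]; push_cast; rw [← pow_mul, mul_comm]
    rw [e1, e2]
    refine (abs_abs_sub_abs_le_abs_sub _ _).trans ?_
    rw [h.eq', add_sub_cancel_left]
    exact h.low_abs
  have h3 : (1 : ℤ) ≤ |(Y.natAbs : ℤ) - (x.natAbs ^ K : ℕ)| := by
    apply Int.one_le_abs
    intro h3
    apply h.ne
    have : (Y.natAbs : ℤ) = (x.natAbs ^ K : ℕ) := by linarith
    exact_mod_cast this
  have h4 : ((x.natAbs ^ K : ℕ) : ℤ) ^ (q ^ a - 1) ≤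
      ((x.natAbs ^ n * (R * x.natAbs ^ e) + Hc * x.natAbs ^ v : ℕ) : ℤ) := by
    have h5 : (0 : ℤ) ≤ ((x.natAbs ^ K : ℕ) : ℤ) ^ (q ^ a - 1) := by positivity
    nlinarith [h1.trans h2]
  have h5 : (x.natAbs ^ K) ^ (q ^ a - 1) ≤
      x.natAbs ^ n * (R * x.natAbs ^ e) + Hc * x.natAbs ^ v := by exact_mod_cast h4
  set X := x.natAbs with hXdef
  -- multiply by X ^ K
  have h6 : X ^ (q ^ a * K) ≤ (X ^ n * (R * X ^ e) + Hc * X ^ v) * X ^ K := by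
    have e1 : X ^ (q ^ a * K) = (X ^ K) ^ (q ^ a - 1) * X ^ K := by
      rw [← pow_succ, ← pow_mul, mul_comm]
      congr 2
      omega
    rw [e1]
    exact Nat.mul_le_mul_right _ h5
  have h7 : 2 * (Hc * X ^ v * X ^ K) ≤ X ^ (q ^ a * K) := by
    refine le_trans ?_ h.rho_small
    have e1 : X ^ K ≤ X ^ (2 * K) := Nat.pow_le_pow_right hX0 (by omega)
    calc 2 * (Hc * X ^ v * X ^ K) ≤ 16 * (Hc * X ^ v) * X ^ K := by
          have := Nat.zero_le (Hc * X ^ v * X ^ K)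
          nlinarith
      _ ≤ 16 * (Hc * X ^ v) * X ^ (2 * K) := Nat.mul_le_mul_left _ e1
  have h8 : X ^ (q ^ a * K) ≤ 2 * (X ^ n * (R * X ^ e) * X ^ K) := by
    rw [add_mul] at h6
    omega
  have h9 : X ^ (q ^ a * K) * X ^ d2 ≤ X ^ (q ^ a * K) * X ^ (c + K) := by
    calc X ^ (q ^ a * K) * X ^ d2 ≤ 2 * (X ^ n * (R * X ^ e) * X ^ K) * X ^ d2 :=
          Nat.mul_le_mul_right _ h8
      _ = (2 * R) * (X ^ (n + (e + d2)) * X ^ K) := by rw [pow_add, pow_add]; ring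
      _ = (2 * R) * (X ^ (q ^ a * K) * X ^ K) := by rw [← h.hD, h.hn]
      _ ≤ X ^ c * (X ^ (q ^ a * K) * X ^ K) := by
          apply Nat.mul_le_mul_right
          calc 2 * R ≤ 2 ^ c := by have := h.hc; omega
            _ ≤ X ^ c := Nat.pow_le_pow_left h.hx c
      _ = X ^ (q ^ a * K) * X ^ (c + K) := by rw [pow_add]; ring
  have h10 := Nat.le_of_mul_le_mul_left h9 (pow_pos hX0 _)
  have h11 := (Nat.pow_le_pow_iff_right (show 1 < X from h.hx)).mp h10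
  have h12 : c + K ≤ (c + 1) * K := by
    have := h.hK
    have h13 : (c + 1) * K = c * K + K := by ring
    have h14 : c ≤ c * K := Nat.le_mul_of_pos_right _ this
    omega
  have h15 := h.hs
  have h16 := h.hD
  omega

/-- the real equation -/
lemma Sol2.real_eq (h : Sol2 q a x Y ε r ρ K D e d2 s0 n v R Hc c) :
    ∃ δ : ℝ, |δ| ≤ ((Hc * x.natAbs ^ v : ℕ) : ℝ) ∧ (Y.natAbs : ℝ) ^ (q ^ a) =
      ((x.natAbs ^ K : ℕ) : ℝ) ^ (q ^ a) * (1 + ((ε * r : ℤ) : ℝ) / ((x ^ D : ℤ) : ℝ)) + δ := by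
  have hX0 := h.X_pos
  have hx0 : (x : ℝ) ≠ 0 := by
    have : x ≠ 0 := by
      rintro rfl
      simp at hX0
    exact_mod_cast this
  have hεR : (ε : ℝ) * ε = 1 := by
    rcases h.hε with h | h <;> rw [h] <;> norm_num
  set z := ((ε * r : ℤ) : ℝ) / ((x ^ D : ℤ) : ℝ) with hz
  -- the signed equation
  have hY : (Y : ℝ) ^ (q ^ a) = ε * (x : ℝ) ^ (n + D) * (1 + z) + ρ := by
    have h1 : ((Y ^ (q ^ a) : ℤ) : ℝ) = ((x ^ n * (ε * x ^ D + r) + ρ : ℤ) : ℝ) := by rw [h.heq]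
    push_cast at h1
    rw [h1, hz, pow_add]
    push_cast
    field_simp
    linear_combination (-(x : ℝ) ^ n * r) * hεR
  have hU : ((x.natAbs ^ K : ℕ) : ℝ) ^ (q ^ a) = ((x.natAbs ^ (q ^ a * K) : ℕ) : ℝ) := by
    push_cast
    rw [← pow_mul, mul_comm]
  rw [hU]
  set M := ((x.natAbs ^ (q ^ a * K) : ℕ) : ℝ) with hM
  have hM0 : 0 < M := by
    rw [hM]; exact_mod_cast pow_pos hX0 _
  have hmain : |(ε : ℝ) * (x : ℝ) ^ (n + D)| = M := by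
    have h2 : ((|ε * x ^ (n + D)| : ℤ) : ℝ) = ((x.natAbs ^ (q ^ a * K) : ℕ) : ℤ) := by
      rw [h.main_abs]
    rw [Int.cast_abs] at h2
    push_cast at h2
    rw [h2, hM, Nat.cast_pow, ← natAbs_real]
  have hVabs : (Y.natAbs : ℝ) ^ (q ^ a) = |(Y : ℝ) ^ (q ^ a)| := by
    rw [abs_pow, natAbs_real]
  have hρabs : |(ρ : ℝ)| ≤ ((Hc * x.natAbs ^ v : ℕ) : ℝ) := by
    rw [natAbs_real]
    exact Nat.cast_le.mpr h.hρ
  have hρM : ((Hc * x.natAbs ^ v : ℕ) : ℝ) ≤ M / 16 := by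
    have h1 : ((16 * (Hc * x.natAbs ^ v) : ℕ) : ℝ) ≤ M := Nat.cast_le.mpr h.rho_small'
    rw [Nat.cast_mul] at h1
    push_cast at h1 ⊢
    linarith
  have hzM : |M * z| ≤ M / 16 := by
    have h1 : |M * z| = ((x.natAbs ^ n * r.natAbs : ℕ) : ℝ) := by
      have hxa : (0 : ℝ) < x.natAbs := by exact_mod_cast hX0
      rw [abs_mul, abs_of_pos hM0, hz, abs_div, natAbs_real, natAbs_real, Int.natAbs_mul,
        Int.natAbs_pow]
      have e1 : ε.natAbs = 1 := by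
        rcases h.hε with h | h <;> rw [h] <;> rfl
      rw [e1, one_mul, hM, ← h.hn]
      simp only [Nat.cast_pow, Nat.cast_mul]
      rw [pow_add]
      field_simp
    rw [h1]
    have h2 : ((16 * (x.natAbs ^ n * r.natAbs) : ℕ) : ℝ) ≤ M := by
      apply Nat.cast_le.mpr
      refine le_trans ?_ h.r_small
      exact Nat.mul_le_mul_left _ (Nat.mul_le_mul_left _ h.hr)
    rw [Nat.cast_mul] at h2
    have h3 : ((16 : ℕ) : ℝ) = 16 := by norm_num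
    rw [h3] at h2
    linarith
  have hlow : 0 ≤ M * (1 + z) - |(ρ : ℝ)| := by
    have := (abs_le.mp hzM).1
    have h2 : M * (1 + z) = M + M * z := by ring
    linarith
  rcases abs_choice ((ε : ℝ) * (x : ℝ) ^ (n + D)) with hc | hc
  · refine ⟨ρ, hρabs, ?_⟩
    rw [hmain] at hc
    rw [hVabs, hY, ← hc, abs_of_nonneg]
    have := neg_abs_le (ρ : ℝ)
    linarith
  · refine ⟨-ρ, by rw [abs_neg]; exact hρabs, ?_⟩
    have h2 : (ε : ℝ) * (x : ℝ) ^ (n + D) = -M := by linarith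
    rw [hVabs, hY, h2]
    have h3 : -M * (1 + z) + ρ = -(M * (1 + z) - ρ) := by ring
    have h4 := le_abs_self (ρ : ℝ)
    rw [h3, abs_neg, abs_of_nonneg (by linarith)]
    ring

/-- the approximation argument -/
theorem Sol2.kill (h : Sol2 q a x Y ε r ρ K D e d2 s0 n v R Hc c) (κ s : ℕ) (hκ : D ≤ κ * s0)
    (hs : 1 ≤ s) (hr : r ≠ 0) (hL : (16 * q ^ a * R ^ 2) ^ (s + 1) ≤ x.natAbs ^ (s0 * s))
    (hg : ((c + 1) + (s + 1 + 2 * (c + 1)) * (1 + κ) + 1) * K + v ≤ q ^ a * K)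
    (hHc : Hc ≤ q ^ a) : False := by
  obtain ⟨δ, hδ, heq⟩ := h.real_eq
  have hN : ε * r ≠ 0 := by
    rcases h.hε with h | h <;> rw [h] <;> simpa using hr
  refine pade_main2 q a h.hq h.ha (ε * r) (x ^ D) hN x.natAbs K D e d2 s0 s κ R Y.natAbs (c + 1) Hc
    v δ h.hx h.hR (Int.natAbs_pow _ _) ?_ h.hD h.hs h.hs1 h.s0_le hκ hs hL hg hHc hδ heq
  rw [Int.natAbs_mul]
  have : ε.natAbs = 1 := by
    rcases h.hε with h | h <;> rw [h] <;> rfl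
  rw [this, one_mul]
  exact h.hr

end Pool.Agent.Shorey
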